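import Mathlib
import Pool.Agent.Helper723.Egg7

set_option autoImplicit false

namespace Pool.Agent.W457.SgEggert

open MonoidAlgebra

section prime

variable {S : Type} [CommSemigroup S] (F : Type) [Field F] (z : S)

/-- `e_s - e_z` in the monoid algebra of `S` with a unit adjoined. -/
noncomputable def dd (s : S) : MonoidAlgebra F (WithOne S) :=
  single (s : WithOne S) 1 - single (z : WithOne S) 1

variable {z} (hz : ∀ x : S, z * x = z)

theorem dd_self : dd F z z = 0 := by simp [dd]

include hz in
theorem dd_mul (s t : S) : dd F z s * dd F z t = dd F z (s * t) := by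
  have h1 : s * z = z := by rw [mul_comm]; exact hz s
  have h2 : z * t = z := hz t
  have h3 : z * z = z := hz z
  simp only [dd, sub_mul, mul_sub, single_mul_single, mul_one, ← WithOne.coe_mul, h1, h2, h3]
  abel

include hz in
theorem single_mul_dd (m : WithOne S) (c : F) (t : S) :
    ∃ s : S, single m c * dd F z t = c • dd F z s := by
  induction m using WithOne.recOneCoe with
  | one =>
    refine ⟨t, ?_⟩
    simp only [dd, mul_sub, single_mul_single, one_mul, mul_one, smul_sub, smul_single,
      smul_eq_mul]
  | coe s =>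
    refine ⟨s * t, ?_⟩
    have h1 : s * z = z := by rw [mul_comm]; exact hz s
    simp only [dd, mul_sub, single_mul_single, mul_one, ← WithOne.coe_mul, h1, smul_sub,
      smul_single, smul_eq_mul]

variable (z) in
/-- The ideal spanned by all `e_s - e_z`. -/
noncomputable def II : Ideal (MonoidAlgebra F (WithOne S)) :=
  Ideal.span (Set.range (dd F z))

include hz in
theorem II_eq : Submodule.restrictScalars F (II F z) = Submodule.span F (Set.range (dd F z)) := by
  apply le_antisymm
  · intro x hx
    have hx' : x ∈ Submodule.span (MonoidAlgebra F (WithOne S)) (Set.range (dd F z)) := hx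
    have key : ∀ (a : MonoidAlgebra F (WithOne S)) (y : MonoidAlgebra F (WithOne S)),
        y ∈ Submodule.span F (Set.range (dd F z)) →
          a * y ∈ Submodule.span F (Set.range (dd F z)) := by
      intro a y hy
      induction hy using Submodule.span_induction with
      | mem y hy =>
        obtain ⟨t, rfl⟩ := hy
        induction a using MonoidAlgebra.induction_linear with
        | zero => simp
        | add f g hf hg => rw [add_mul]; exact Submodule.add_mem _ hf hg
        | single m c =>
          obtain ⟨s, hs⟩ := single_mul_dd F hz m c t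
          rw [hs]
          exact Submodule.smul_mem _ _ (Submodule.subset_span ⟨s, rfl⟩)
      | zero => simp
      | add y1 y2 _ _ h1 h2 => rw [mul_add]; exact Submodule.add_mem _ h1 h2
      | smul c y _ h => rw [mul_smul_comm]; exact Submodule.smul_mem _ _ h
    show x ∈ Submodule.span F (Set.range (dd F z))
    induction hx' using Submodule.span_induction with
    | mem y hy => exact Submodule.subset_span hy
    | zero => simp
    | add y1 y2 h1' h2' h1 h2 =>
      exact Submodule.add_mem _ (h1 h1') (h2 h2')
    | smul a y h' h => exact key a y (h h')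
  · rw [Submodule.span_le]
    intro x hx
    exact Ideal.subset_span hx

theorem dd_linInd [Finite S] : LinearIndependent F (fun y : {y : S // y ≠ z} => dd F z y.1) := by
  classical
  let φ : MonoidAlgebra F (WithOne S) →ₗ[F] ({y : S // y ≠ z} → F) :=
    { toFun := fun f y => f.coeff (y.1 : WithOne S)
      map_add' := by intro f g; ext y; simp
      map_smul' := by intro c f; ext y; simp }
  apply LinearIndependent.of_comp φ
  have : (φ ∘ fun y : {y : S // y ≠ z} => dd F z y.1) = fun y => Pi.single y (1 : F) := by
    funext y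
    ext w
    show (dd F z y.1).coeff (w.1 : WithOne S) = _
    have hw : (z : WithOne S) ≠ (w.1 : WithOne S) := by
      intro h
      exact w.2 (WithOne.coe_inj.mp h).symm
    simp only [dd, coeff_sub, coeff_single, Finsupp.sub_apply, Finsupp.single_apply, Pi.single_apply]
    rw [if_neg hw, sub_zero]
    by_cases h : w = y
    · subst h; simp
    · have : ¬ ((y.1 : WithOne S) = (w.1 : WithOne S)) := by
        intro h'
        exact h (Subtype.ext (WithOne.coe_inj.mp h').symm)
      rw [if_neg this, if_neg h]
  rw [this]
  have h := (Pi.basisFun F {y : S // y ≠ z}).linearIndependent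
  convert h using 1
  funext y
  simp

include hz in
theorem dd_pow (x : S) (n : ℕ) (hn : 0 < n) :
    ∃ y : S, (x : WithOne S) ^ n = (y : WithOne S) ∧ dd F z x ^ n = dd F z y := by
  induction n, hn using Nat.le_induction with
  | base => exact ⟨x, by simp, by simp⟩
  | succ n _ ih =>
    obtain ⟨y, h1, h2⟩ := ih
    refine ⟨y * x, ?_, ?_⟩
    · rw [pow_succ, h1, WithOne.coe_mul]
    · rw [pow_succ, h2, dd_mul F hz]

include hz in
theorem dd_list (l : List S) (hl : l ≠ []) :
    ∃ y : S, (l.map (WithOne.coe : S → WithOne S)).prod = (y : WithOne S) ∧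
      (l.map (dd F z)).prod = dd F z y := by
  induction l with
  | nil => exact absurd rfl hl
  | cons a l ih =>
    by_cases h : l = []
    · subst h
      exact ⟨a, by simp, by simp⟩
    · obtain ⟨y, h1, h2⟩ := ih h
      refine ⟨a * y, ?_, ?_⟩
      · rw [List.map_cons, List.prod_cons, h1, WithOne.coe_mul]
      · rw [List.map_cons, List.prod_cons, h2, dd_mul F hz]

theorem II_pow_le (n : ℕ) :
    (II F z) ^ n ≤ Ideal.span {x | ∃ l : List S, l.length = n ∧ x = (l.map (dd F z)).prod} := by
  induction n with
  | zero =>
    rw [pow_zero, Ideal.one_eq_top, top_le_iff, Ideal.eq_top_iff_one]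
    exact Ideal.subset_span ⟨[], rfl, by simp⟩
  | succ n ih =>
    rw [pow_succ]
    refine (Ideal.mul_mono_left ih).trans ?_
    unfold II
    rw [Ideal.span_mul_span']
    apply Ideal.span_mono
    rintro x ⟨a, ⟨l, hl, rfl⟩, b, ⟨s, rfl⟩, rfl⟩
    refine ⟨s :: l, by simp [hl], ?_⟩
    simp [mul_comm]

include hz in
theorem II_nil (k : ℕ) (hk : ∀ l : List S, l.length = k →
    (l.map (WithOne.coe : S → WithOne S)).prod = (z : WithOne S)) : IsNilpotent (II F z) := by
  refine ⟨k, ?_⟩
  rw [Ideal.zero_eq_bot, ← le_bot_iff]
  refine (II_pow_le F k).trans ?_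
  rw [Ideal.span_le]
  rintro x ⟨l, hl, rfl⟩
  have h1 := hk l hl
  have hne : l ≠ [] := by
    rintro rfl
    simp at h1
  obtain ⟨y, h2, h3⟩ := dd_list F hz l hne
  have : y = z := WithOne.coe_inj.mp (h2.symm.trans h1)
  rw [h3, this, dd_self]
  simp

include hz in
theorem prime_case [Finite S] (p : ℕ) [hp : Fact p.Prime] (k : ℕ)
    (hk : ∀ l : List S, l.length = k →
      (l.map (WithOne.coe : S → WithOne S)).prod = (z : WithOne S)) :
    p * {y : S | y ≠ z ∧ ∃ x : S, (x : WithOne S) ^ p = (y : WithOne S)}.ncard
      ≤ {y : S | y ≠ z}.ncard := by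
  classical
  have : Finite (WithOne S) := inferInstanceAs (Finite (Option S))
  have : Module.Finite (ZMod p) (WithOne S →₀ ZMod p) := inferInstance
  have : FiniteDimensional (ZMod p) (MonoidAlgebra (ZMod p) (WithOne S)) :=
    Module.Finite.equiv (MonoidAlgebra.coeffLinearEquiv (ZMod p)).symm
  have key := Pool.Agent.Helper723.Egg.eggert p (ZMod p) (MonoidAlgebra (ZMod p) (WithOne S))
    (II (ZMod p) z) (II_nil (ZMod p) hz k hk)
  have := Fintype.ofFinite S
  have hup : Module.finrank (ZMod p) (Submodule.restrictScalars (ZMod p) (II (ZMod p) z)) ≤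
      {y : S | y ≠ z}.ncard := by
    rw [II_eq (ZMod p) hz]
    have h1 : Submodule.span (ZMod p) (Set.range (dd (ZMod p) z)) ≤
        Submodule.span (ZMod p) (Set.range (fun y : {y : S // y ≠ z} => dd (ZMod p) z y.1)) := by
      rw [Submodule.span_le]
      rintro x ⟨s, rfl⟩
      by_cases h : s = z
      · rw [h, dd_self]; exact Submodule.zero_mem _
      · exact Submodule.subset_span ⟨⟨s, h⟩, rfl⟩
    refine (Submodule.finrank_mono h1).trans ?_
    rw [finrank_span_eq_card (dd_linInd (ZMod p) (z := z))]
    rw [Set.ncard_eq_toFinset_card', Set.toFinset_card]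
    exact le_of_eq (Fintype.card_congr (Equiv.refl _))
  have hlow : {y : S | y ≠ z ∧ ∃ x : S, (x : WithOne S) ^ p = (y : WithOne S)}.ncard ≤
      Module.finrank (ZMod p) (Submodule.span (ZMod p)
        ((fun x : MonoidAlgebra (ZMod p) (WithOne S) => x ^ p) ''
          (II (ZMod p) z : Set (MonoidAlgebra (ZMod p) (WithOne S))))) := by
    set Y := {y : S | y ≠ z ∧ ∃ x : S, (x : WithOne S) ^ p = (y : WithOne S)} with hY
    have h1 : Submodule.span (ZMod p) (Set.range (fun y : Y => dd (ZMod p) z y.1)) ≤
        Submodule.span (ZMod p)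
        ((fun x : MonoidAlgebra (ZMod p) (WithOne S) => x ^ p) ''
          (II (ZMod p) z : Set (MonoidAlgebra (ZMod p) (WithOne S)))) := by
      rw [Submodule.span_le]
      rintro _ ⟨⟨y, hy1, x, hx⟩, rfl⟩
      apply Submodule.subset_span
      obtain ⟨y', h1, h2⟩ := dd_pow (ZMod p) hz x p hp.out.pos
      have : y' = y := WithOne.coe_inj.mp (h1.symm.trans hx)
      subst this
      exact ⟨dd (ZMod p) z x, Ideal.subset_span ⟨x, rfl⟩, h2⟩
    refine le_trans ?_ (Submodule.finrank_mono h1)
    have hli : LinearIndependent (ZMod p) (fun y : Y => dd (ZMod p) z y.1) :=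
      (dd_linInd (ZMod p) (z := z)).comp (fun y : Y => (⟨y.1, y.2.1⟩ : {y : S // y ≠ z}))
        (fun a b h => Subtype.ext (congrArg (fun t : {y : S // y ≠ z} => t.1) h))
    rw [finrank_span_eq_card hli]
    rw [Set.ncard_eq_toFinset_card', Set.toFinset_card]
  exact (Nat.mul_le_mul_left p hlow).trans (key.trans hup)

end prime

end Pool.Agent.W457.SgEggert
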