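import Mathlib
import Pool.Agent.W457.SgEggert

set_option autoImplicit false

namespace Pool.Agent.W457.SgEggert

/-- The set of nonzero `n`-th powers. -/
def Pw (S : Type) [CommSemigroup S] (z : S) (n : ℕ) : Set S :=
  {y : S | y ≠ z ∧ ∃ x : S, (x : WithOne S) ^ n = (y : WithOne S)}

/-- The subsemigroup of all `n`-th powers. -/
def TT (S : Type) [CommSemigroup S] (n : ℕ) : Subsemigroup S where
  carrier := {y : S | ∃ x : S, (x : WithOne S) ^ n = (y : WithOne S)}
  mul_mem' := by
    rintro a b ⟨x, hx⟩ ⟨y, hy⟩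
    refine ⟨x * y, ?_⟩
    rw [WithOne.coe_mul, mul_pow, hx, hy, WithOne.coe_mul]

theorem pow_coe {S : Type} [CommSemigroup S] (x : S) (n : ℕ) (hn : 0 < n) :
    ∃ y : S, (x : WithOne S) ^ n = (y : WithOne S) := by
  induction n, hn using Nat.le_induction with
  | base => exact ⟨x, by simp⟩
  | succ n _ ih =>
    obtain ⟨y, h1⟩ := ih
    exact ⟨y * x, by rw [pow_succ, h1, WithOne.coe_mul]⟩

theorem general : ∀ (n : ℕ), 0 < n → ∀ (S : Type) [CommSemigroup S] [Finite S] (z : S)
    (_ : ∀ x : S, z * x = z) (k : ℕ)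
    (_ : ∀ l : List S, l.length = k →
      (l.map (WithOne.coe : S → WithOne S)).prod = (z : WithOne S)),
    n * (Pw S z n).ncard ≤ {y : S | y ≠ z}.ncard := by
  intro n
  induction n using Nat.strong_induction_on with
  | _ n ih =>
  intro hn S _ _ z hz k hk
  rcases Nat.lt_or_ge 1 n with h1 | h1
  swap
  · have : n = 1 := by omega
    subst this
    rw [one_mul]
    exact Set.ncard_le_ncard (fun y hy => hy.1) (Set.toFinite _)
  obtain ⟨m, hm⟩ := Nat.minFac_dvd n
  set p := n.minFac with hp
  have hpp : p.Prime := Nat.minFac_prime (by omega)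
  have hpf : Fact p.Prime := ⟨hpp⟩
  have hm0 : 0 < m := by
    rcases Nat.eq_zero_or_pos m with h | h
    · subst h; omega
    · exact h
  have hmn : m < n := by
    rw [hm]; exact (Nat.lt_mul_iff_one_lt_left hm0).mpr hpp.one_lt
  have hzp : ∀ j : ℕ, 0 < j → (z : WithOne S) ^ j = (z : WithOne S) := by
    intro j hj
    induction j, hj using Nat.le_induction with
    | base => simp
    | succ j _ ihj => rw [pow_succ, ihj, ← WithOne.coe_mul, hz]
  let T := TT S p
  let zT : T := ⟨z, z, hzp p hpp.pos⟩
  have hzT : ∀ x : T, zT * x = zT := fun x => Subtype.ext (hz x.1)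
  let ι : WithOne T →* WithOne S := WithOne.mapMulHom (MulMemClass.subtype T)
  have hι : ∀ x : T, ι (x : WithOne T) = ((x : S) : WithOne S) := fun x => rfl
  have hιinj : ∀ a b : T, ι (a : WithOne T) = ι (b : WithOne T) → a = b := by
    intro a b h
    rw [hι, hι] at h
    exact Subtype.ext (WithOne.coe_inj.mp h)
  have hkT : ∀ l : List T, l.length = k →
      (l.map (WithOne.coe : T → WithOne T)).prod = (zT : WithOne T) := by
    intro l hl
    have hne : l ≠ [] := by
      rintro rfl
      have := hk [] (by simpa using hl)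
      simp at this
    have hprod : ∀ l : List T, l ≠ [] → ∃ y : T,
        (l.map (WithOne.coe : T → WithOne T)).prod = (y : WithOne T) := by
      intro l
      induction l with
      | nil => intro h; exact absurd rfl h
      | cons a l ihl =>
        intro _
        by_cases h : l = []
        · subst h; exact ⟨a, by simp⟩
        · obtain ⟨y, hy⟩ := ihl h
          exact ⟨a * y, by rw [List.map_cons, List.prod_cons, hy, WithOne.coe_mul]⟩
    obtain ⟨y, hy⟩ := hprod l hne
    rw [hy]
    have h2 := hk (l.map (fun t : T => (t : S))) (by simpa using hl)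
    have h3 : ι (l.map (WithOne.coe : T → WithOne T)).prod =
        ((l.map (fun t : T => (t : S))).map (WithOne.coe : S → WithOne S)).prod := by
      rw [map_list_prod, List.map_map, List.map_map]
      rfl
    rw [h2, hy] at h3
    congr 1
    exact hιinj y zT h3
  have step := ih m hmn hm0 T zT hzT k hkT
  have first := prime_case (z := z) hz p k hk
  have e1 : {y : T | y ≠ zT}.ncard ≤
      {y : S | y ≠ z ∧ ∃ x : S, (x : WithOne S) ^ p = (y : WithOne S)}.ncard := by
    rw [← Set.ncard_image_of_injective {y : T | y ≠ zT} Subtype.val_injective]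
    apply Set.ncard_le_ncard _ (Set.toFinite _)
    rintro _ ⟨y, hy, rfl⟩
    exact ⟨fun h => hy (Subtype.ext h), y.2⟩
  have e2 : (Pw S z n).ncard ≤ (Pw T zT m).ncard := by
    rw [← Set.ncard_image_of_injective (Pw T zT m) Subtype.val_injective]
    apply Set.ncard_le_ncard _ (Set.toFinite _)
    rintro y ⟨hy, x, hx⟩
    obtain ⟨w, hw⟩ := pow_coe x p hpp.pos
    let wT : T := ⟨w, x, hw⟩
    have hyw : (w : WithOne S) ^ m = (y : WithOne S) := by
      rw [← hw, ← pow_mul, ← hm, hx]
    obtain ⟨v, hv⟩ := pow_coe wT m hm0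
    have hvy : (v : S) = y := by
      have : ι ((wT : WithOne T) ^ m) = ι (v : WithOne T) := by rw [hv]
      rw [map_pow, hι, hι] at this
      exact (WithOne.coe_inj.mp (hyw.symm.trans this)).symm
    refine ⟨v, ⟨?_, wT, hv⟩, hvy⟩
    intro h
    apply hy
    rw [← hvy, h]
  calc n * (Pw S z n).ncard ≤ n * (Pw T zT m).ncard := Nat.mul_le_mul_left _ e2
    _ = p * (m * (Pw T zT m).ncard) := by
        conv_lhs => rw [hm]
        rw [mul_assoc]
    _ ≤ p * {y : T | y ≠ zT}.ncard := Nat.mul_le_mul_left _ step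
    _ ≤ p * {y : S | y ≠ z ∧ ∃ x : S, (x : WithOne S) ^ p = (y : WithOne S)}.ncard :=
        Nat.mul_le_mul_left _ e1
    _ ≤ _ := first

end Pool.Agent.W457.SgEggert
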