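import Mathlib

namespace Pool.Agent.W457.HC

open MvPolynomial

variable {k L : Type*} [Field k] [Field L] [Algebra k L] {σ : Type*}

/-- coefficientwise application of a derivation of the coefficient field -/
noncomputable def cD (D : Derivation k L L) (p : MvPolynomial σ L) : MvPolynomial σ L :=
  ∑ a ∈ p.support, monomial a (D (coeff a p))

@[simp] lemma coeff_cD (D : Derivation k L L) (p : MvPolynomial σ L) (a : σ →₀ ℕ) :
    coeff a (cD D p) = D (coeff a p) := by
  classical
  unfold cD
  rw [coeff_sum]
  simp only [coeff_monomial]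
  rw [Finset.sum_ite_eq' p.support a (fun x => D (coeff x p))]
  split_ifs with h
  · rfl
  · rw [notMem_support_iff.mp h, map_zero]

lemma cD_add (D : Derivation k L L) (p q : MvPolynomial σ L) :
    cD D (p + q) = cD D p + cD D q := by
  ext a; simp

lemma cD_sub (D : Derivation k L L) (p q : MvPolynomial σ L) :
    cD D (p - q) = cD D p - cD D q := by
  ext a; simp

lemma cD_neg (D : Derivation k L L) (p : MvPolynomial σ L) :
    cD D (-p) = - cD D p := by
  ext a; simp

@[simp] lemma cD_zero (D : Derivation k L L) : cD D (0 : MvPolynomial σ L) = 0 := by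
  ext a; simp

lemma cD_mul (D : Derivation k L L) (p q : MvPolynomial σ L) :
    cD D (p * q) = cD D p * q + p * cD D q := by
  classical
  ext a
  rw [coeff_cD, coeff_mul, coeff_add, coeff_mul, coeff_mul, map_sum, ← Finset.sum_add_distrib]
  refine Finset.sum_congr rfl fun x _ => ?_
  rw [coeff_cD, coeff_cD, Derivation.leibniz]
  simp only [smul_eq_mul]
  ring

lemma cD_monomial_one (D : Derivation k L L) (a : σ →₀ ℕ) :
    cD D (monomial a (1 : L)) = 0 := by
  classical
  ext b
  rw [coeff_cD, coeff_monomial, coeff_zero]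
  split_ifs <;> simp

lemma cD_C (D : Derivation k L L) (c : L) : cD D (C c : MvPolynomial σ L) = C (D c) := by
  classical
  ext b
  rw [coeff_cD, coeff_C, coeff_C]
  split_ifs <;> simp

@[simp] lemma cD_X (D : Derivation k L L) (i : σ) : cD D (X i : MvPolynomial σ L) = 0 :=
  cD_monomial_one D _

lemma cD_X_pow (D : Derivation k L L) (i : σ) (n : ℕ) :
    cD D ((X i : MvPolynomial σ L) ^ n) = 0 := by
  rw [X_pow_eq_monomial]; exact cD_monomial_one D _

lemma cD_sum (D : Derivation k L L) {ι : Type*} (s : Finset ι) (f : ι → MvPolynomial σ L) :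
    cD D (∑ i ∈ s, f i) = ∑ i ∈ s, cD D (f i) := by
  ext a; simp [coeff_sum]

lemma cD_Cmul (D : Derivation k L L) (c : L) (p : MvPolynomial σ L) :
    cD D (C c * p) = C (D c) * p + C c * cD D p := by
  rw [cD_mul, cD_C]

lemma cD_add_left (D₁ D₂ : Derivation k L L) (p : MvPolynomial σ L) :
    cD (D₁ + D₂) p = cD D₁ p + cD D₂ p := by
  ext a; simp

lemma cD_smul_left (c : L) (D : Derivation k L L) (p : MvPolynomial σ L) :
    cD (c • D) p = C c * cD D p := by
  ext a; simp

end Pool.Agent.W457.HC
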