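import Pool.Agent.W457.H9

namespace Pool.Agent.W457.HC

open MvPolynomial

variable {L K : Type*} [Field L] [Field K] [Algebra L K] {n : ℕ} {b : Fin n → Fin 3 →₀ ℕ}

lemma expand_gg {c : (Fin 3 →₀ ℕ) → Fin n → K} (h : ChartData b c)
    {g : MvPolynomial (Fin 3) K} (hg : g ∈ Ic h) :
    g = ∑ α ∈ g.support, C (coeff α g) * gg b c α := by
  have h1 : ∑ α ∈ g.support, C (coeff α g) * gg b c α =
      g - ∑ i, C (ev c g i) * monomial (b i) 1 := by
    simp only [gg, mul_sub, Finset.sum_sub_distrib]
    congr 1
    · conv_rhs => rw [g.as_sum]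
      refine Finset.sum_congr rfl fun α _ => ?_
      rw [C_mul_monomial, mul_one]
    · simp only [Finset.mul_sum]
      rw [Finset.sum_comm]
      refine Finset.sum_congr rfl fun i _ => ?_
      rw [ev_apply, Finset.sum_apply, map_sum, Finset.sum_mul]
      refine Finset.sum_congr rfl fun α _ => ?_
      rw [Pi.smul_apply, smul_eq_mul, C_mul, mul_assoc]
  rw [h1, (mem_Ic h g).mp hg]
  simp

/-- scalar extension of a linear map on polynomials -/
noncomputable def extH {s : Type*} (H : MvPolynomial (Fin 3) L →ₗ[L] (s → L)) :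
    MvPolynomial (Fin 3) K →ₗ[K] (s → K) :=
  (basisMonomials (Fin 3) K).constr K (fun α i => algebraMap L K (H (monomial α 1) i))

lemma extH_monomial {s : Type*} (H : MvPolynomial (Fin 3) L →ₗ[L] (s → L)) (α : Fin 3 →₀ ℕ) :
    extH (K := K) H (monomial α 1) = fun i => algebraMap L K (H (monomial α 1) i) := by
  have := (basisMonomials (Fin 3) K).constr_basis K
    (fun α i => algebraMap L K (H (monomial α 1) i)) α
  simpa [extH] using this

lemma extH_map {s : Type*} (H : MvPolynomial (Fin 3) L →ₗ[L] (s → L))
    (g : MvPolynomial (Fin 3) L) :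
    extH (K := K) H (map (algebraMap L K) g) = fun i => algebraMap L K (H g i) := by
  induction g using MvPolynomial.induction_on' with
  | monomial α u =>
    rw [map_monomial]
    have e1 : (monomial α (algebraMap L K u) : MvPolynomial (Fin 3) K) =
        (algebraMap L K u) • monomial α 1 := by rw [smul_monomial, smul_eq_mul, mul_one]
    have e2 : (monomial α u : MvPolynomial (Fin 3) L) = u • monomial α 1 := by
      rw [smul_monomial, smul_eq_mul, mul_one]
    rw [e1, e2, map_smul, map_smul, extH_monomial]
    funext i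
    simp
  | add p q hp hq =>
    rw [map_add, map_add, hp, hq, map_add]
    funext i
    simp

lemma map_gg (c : (Fin 3 →₀ ℕ) → Fin n → L) (α : Fin 3 →₀ ℕ) :
    map (algebraMap L K) (gg b c α) = gg b (fun α l => algebraMap L K (c α l)) α := by
  simp [gg]

theorem gen3 {c : (Fin 3 →₀ ℕ) → Fin n → L} (h : ChartData b c)
    (f : Fin 3 → MvPolynomial (Fin 3) K) (hf : ∀ i, f i ∈ Ic (h.map (algebraMap L K)))
    (hu : ∀ α, ∃ u : Fin 3 → MvPolynomial (Fin 3) K,
      gg b (fun α l => algebraMap L K (c α l)) α - ∑ i, u i * f i ∈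
        idealOfVars (Fin 3) K ^ (n + 1)) :
    ∃ f' : Fin 3 → MvPolynomial (Fin 3) L, (∀ i, f' i ∈ Ic h) ∧
      Ic h ≤ Ideal.span (Set.range f') ⊔ idealOfVars (Fin 3) L * Ic h := by
  classical
  set T : Submodule L (MvPolynomial (Fin 3) L) :=
    (idealOfVars (Fin 3) L * Ic h).restrictScalars L with hT
  set W : Submodule L (MvPolynomial (Fin 3) L ⧸ T) :=
    ((Ic h).restrictScalars L).map T.mkQ with hW
  have hrank : Module.rank L W ≤ (3 : ℕ) := by
    apply rank_le
    intro s hs
    have hinj : Function.Injective (Fintype.linearCombination L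
        (fun i : s => ((i : W) : MvPolynomial (Fin 3) L ⧸ T))) := by
      have h1 : LinearIndependent L (fun i : s => ((i : W) : MvPolynomial (Fin 3) L ⧸ T)) :=
        hs.map' W.subtype (Submodule.ker_subtype W)
      exact linearIndependent_iff_injective_fintypeLinearCombination.mp h1
    obtain ⟨η, hη⟩ := LinearMap.exists_leftInverse_of_injective _
      (LinearMap.ker_eq_bot.mpr hinj)
    set H : MvPolynomial (Fin 3) L →ₗ[L] (s → L) := η ∘ₗ T.mkQ with hH
    have hHT : ∀ g ∈ idealOfVars (Fin 3) L * Ic h, H g = 0 := by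
      intro g hg
      change η (T.mkQ g) = 0
      have : T.mkQ g = 0 := by
        rw [← LinearMap.mem_ker, Submodule.ker_mkQ]; exact hg
      rw [this, map_zero]
    set HK : MvPolynomial (Fin 3) K →ₗ[K] (s → K) := extH H with hHK
    have hXX : ∀ (j : Fin 3) (g : MvPolynomial (Fin 3) K), g ∈ Ic (h.map (algebraMap L K)) →
        HK (X j * g) = 0 := by
      intro j g hg
      rw [expand_gg _ hg, Finset.mul_sum, map_sum]
      refine Finset.sum_eq_zero fun α _ => ?_
      rw [mul_left_comm, ← smul_eq_C_mul, map_smul]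
      have e : (X j * gg b (fun α l => algebraMap L K (c α l)) α : MvPolynomial (Fin 3) K) =
          map (algebraMap L K) (X j * gg b c α) := by
        rw [map_mul, map_X, map_gg]
      rw [e, hHK, extH_map, hHT _ (Ideal.mul_mem_mul (Ideal.subset_span ⟨j, rfl⟩) (gg_mem h α))]
      funext i; simp
    have hmul : ∀ g ∈ idealOfVars (Fin 3) K * Ic (h.map (algebraMap L K)), HK g = 0 := by
      intro g hg
      refine Submodule.mul_induction_on hg ?_ ?_
      · intro a ha g' hg'
        rw [idealOfVars, Ideal.mem_span_range_iff_exists_fun] at ha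
        obtain ⟨q, rfl⟩ := ha
        rw [Finset.sum_mul, map_sum]
        refine Finset.sum_eq_zero fun j _ => ?_
        rw [show q j * X j * g' = X j * (q j * g') by ring]
        exact hXX j _ (Ideal.mul_mem_left _ _ hg')
      · intro x y hx hy
        rw [map_add, hx, hy, add_zero]
    have hconst : ∀ (v g : MvPolynomial (Fin 3) K), g ∈ Ic (h.map (algebraMap L K)) →
        HK (v * g) = constantCoeff v • HK g := by
      intro v g hg
      obtain ⟨p0, p1, p2, hv⟩ := decomp v
      have e : v * g = C (constantCoeff v) * g + (X 0 * (p0 * g) + X 1 * (p1 * g) +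
          X 2 * (p2 * g)) := by
        conv_lhs => rw [hv]
        ring
      rw [e, map_add, map_add, map_add, hXX _ _ (Ideal.mul_mem_left _ _ hg),
        hXX _ _ (Ideal.mul_mem_left _ _ hg), hXX _ _ (Ideal.mul_mem_left _ _ hg), add_zero,
        add_zero, add_zero, ← smul_eq_C_mul, map_smul]
    have hgg : ∀ α, HK (gg b (fun α l => algebraMap L K (c α l)) α) ∈
        Submodule.span K (Set.range (fun i => HK (f i))) := by
      intro α
      obtain ⟨u, hu⟩ := hu α
      have h1 : gg b (fun α l => algebraMap L K (c α l)) α - ∑ i, u i * f i ∈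
          idealOfVars (Fin 3) K * Ic (h.map (algebraMap L K)) := by
        have h2 : idealOfVars (Fin 3) K ^ (n + 1) ≤
            idealOfVars (Fin 3) K * Ic (h.map (algebraMap L K)) := by
          rw [pow_succ']
          exact Ideal.mul_mono_right (pow_le_Ic _)
        exact h2 hu
      have h3 := hmul _ h1
      rw [map_sub, sub_eq_zero] at h3
      rw [h3, map_sum]
      refine Submodule.sum_mem _ fun i _ => ?_
      rw [hconst _ _ (hf i)]
      exact Submodule.smul_mem _ _ (Submodule.subset_span ⟨i, rfl⟩)
    have hI : ∀ g ∈ Ic (h.map (algebraMap L K)), HK g ∈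
        Submodule.span K (Set.range (fun i => HK (f i))) := by
      intro g hg
      rw [expand_gg _ hg, map_sum]
      refine Submodule.sum_mem _ fun α _ => ?_
      rw [← smul_eq_C_mul, map_smul]
      exact Submodule.smul_mem _ _ (hgg α)
    have htop : Submodule.span K (Set.range (fun i => HK (f i))) = ⊤ := by
      rw [eq_top_iff, ← (Pi.basisFun K s).span_eq, Submodule.span_le]
      rintro _ ⟨i, rfl⟩
      obtain ⟨h0, hh0, hh1⟩ := (i : W).2
      have h4 : H h0 = Pi.single i 1 := by
        change η (T.mkQ h0) = _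
        rw [hh1]
        have h5 := LinearMap.congr_fun hη (Pi.single i 1)
        rw [LinearMap.comp_apply, Fintype.linearCombination_apply_single, one_smul] at h5
        exact h5
      have h6 : map (algebraMap L K) h0 ∈ Ic (h.map (algebraMap L K)) := by
        have := expand_gg h hh0
        rw [this, map_sum]
        refine Ideal.sum_mem _ fun α _ => ?_
        rw [map_mul, map_gg]
        exact Ideal.mul_mem_left _ _ (gg_mem _ _)
      have h7 := hI _ h6
      rw [hHK, extH_map, h4] at h7
      have h9 : (fun j => algebraMap L K ((Pi.single i 1 : s → L) j)) = Pi.basisFun K s i := by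
        funext j
        simp only [Pi.basisFun_apply, Pi.single_apply]
        split_ifs <;> simp
      rw [h9] at h7
      exact h7
    have h8 := finrank_range_le_card (R := K) (fun i => HK (f i))
    unfold Set.finrank at h8
    rw [htop, finrank_top, Module.finrank_fintype_fun_eq_card, Fintype.card_coe,
      Fintype.card_fin] at h8
    exact h8
  have hfin : Module.Finite L W := by
    rw [← Module.rank_lt_aleph0_iff]
    exact lt_of_le_of_lt hrank (Cardinal.natCast_lt_aleph0)
  have hfr : Module.finrank L W ≤ 3 := Module.finrank_le_of_rank_le hrank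
  -- spanning family indexed by Fin 3
  let B := Module.finBasis L W
  let w : Fin 3 → W := fun i => if hi : (i : ℕ) < Module.finrank L W then B ⟨i, hi⟩ else 0
  have hw : ⊤ ≤ Submodule.span L (Set.range w) := by
    rw [← B.span_eq, Submodule.span_le]
    rintro _ ⟨i, rfl⟩
    apply Submodule.subset_span
    refine ⟨⟨i, by omega⟩, ?_⟩
    simp [w]
  have hch : ∀ i, ∃ f' ∈ Ic h, T.mkQ f' = (w i : MvPolynomial (Fin 3) L ⧸ T) := fun i => (w i).2
  choose f' hf1 hf2 using hch
  refine ⟨f', hf1, ?_⟩
  intro g hg
  have h1 : (⟨T.mkQ g, ⟨g, hg, rfl⟩⟩ : W) ∈ Submodule.span L (Set.range w) := hw trivial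
  rw [Submodule.mem_span_range_iff_exists_fun] at h1
  obtain ⟨v, hv⟩ := h1
  have h2 := congrArg Subtype.val hv
  simp only [Submodule.coe_sum, Submodule.coe_smul] at h2
  have h3 : T.mkQ (∑ i, v i • f' i) = T.mkQ g := by
    rw [map_sum, ← h2]
    refine Finset.sum_congr rfl fun i _ => ?_
    rw [map_smul, hf2]
  have h4 : g - ∑ i, v i • f' i ∈ T := by
    rw [← Submodule.ker_mkQ T, LinearMap.mem_ker, map_sub, h3, sub_self]
  have e : g = ∑ i, v i • f' i + (g - ∑ i, v i • f' i) := by ring
  rw [e]
  refine add_mem (Ideal.mem_sup_left ?_) (Ideal.mem_sup_right h4)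
  refine Ideal.sum_mem _ fun i _ => ?_
  rw [smul_eq_C_mul]
  exact Ideal.mul_mem_left _ _ (Ideal.subset_span ⟨i, rfl⟩)

end Pool.Agent.W457.HC
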