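import Pool.Agent.W457.H10

namespace Pool.Agent.W457.HC

open MvPolynomial

theorem boundD {k K : Type*} [Field k] [Infinite k] [PerfectField k] [Field K] [Algebra k K]
    {n : ℕ} {b : Fin n → Fin 3 →₀ ℕ} {cK : (Fin 3 →₀ ℕ) → Fin n → K} (hK : ChartData b cK)
    (f : Fin 3 → MvPolynomial (Fin 3) K) (hf : ∀ i, f i ∈ Ic hK)
    (hu : ∀ α, ∃ u : Fin 3 → MvPolynomial (Fin 3) K,
      gg b cK α - ∑ i, u i * f i ∈ idealOfVars (Fin 3) K ^ (n + 1))
    (t0 : Fin n → k)
    (hdet : (Matrix.of fun i j : Fin n => ∑ l, cK (b i + b j) l * algebraMap k K (t0 l)).det ≠ 0)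
    {ι : Type*} [Fintype ι] (v : ι → (Fin 3 →₀ ℕ) × Fin n)
    (hv : AlgebraicIndependent k (fun i => cK (v i).1 (v i).2)) :
    ∃ r a t ρ : ℕ, Fintype.card ι ≤ r ∧ a ≤ 3 * t ∧ r + 3 * t ^ 3 ≤ 3 * n ∧ r + ρ ≤ 3 * n ∧
      n ≤ a * ρ := by
  classical
  set S : Set K := Set.range (fun p : (Fin 3 →₀ ℕ) × Fin n => cK p.1 p.2) with hS
  have hSfin : S.Finite := by
    have h1 : S ⊆ insert 0 ((fun p : (Fin 3 →₀ ℕ) × Fin n => cK p.1 p.2) ''
        ({α : Fin 3 →₀ ℕ | α.degree < n} ×ˢ Set.univ)) := by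
      rintro _ ⟨⟨α, l⟩, rfl⟩
      by_cases h : n ≤ α.degree
      · left; exact hK.hdeg α h l
      · right; exact ⟨(α, l), ⟨by simpa using h, trivial⟩, rfl⟩
    refine Set.Finite.subset (Set.Finite.insert _ (Set.Finite.image _ ?_)) h1
    exact Set.Finite.prod (Finsupp.finite_of_degree_lt n) Set.finite_univ
  let L := IntermediateField.adjoin k S
  have hess : Algebra.EssFiniteType k L :=
    IntermediateField.essFiniteType_iff.mpr (IntermediateField.fg_adjoin_of_finite hSfin)
  let c : (Fin 3 →₀ ℕ) → Fin n → L := fun α l =>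
    ⟨cK α l, IntermediateField.subset_adjoin k S ⟨(α, l), rfl⟩⟩
  have hc : ∀ α l, algebraMap L K (c α l) = cK α l := fun α l => rfl
  have hL : ChartData b c :=
    ChartData.of_injective (algebraMap L K) (algebraMap L K).injective hK
  have hadj : IntermediateField.adjoin k
      (Set.range (fun p : (Fin 3 →₀ ℕ) × Fin n => c p.1 p.2)) = ⊤ := by
    apply IntermediateField.map_injective L.val
    rw [IntermediateField.adjoin_map, ← Set.range_comp]
    rw [← AlgHom.fieldRange_eq_map, IntermediateField.fieldRange_val]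
    rfl
  obtain ⟨f', hf', hgen⟩ := gen3 (K := K) hL f hf hu
  obtain ⟨r, D, hD, hr⟩ := exists_ders (k := k) (L := L) (v := fun i => c (v i).1 (v i).2) (by
    have := (L.val.algebraicIndependent_iff (R := k) (x := fun i => c (v i).1 (v i).2)
      L.val.injective)
    exact this.mp hv)
  have hfinite := finite_quot hL
  obtain ⟨a, t, ρ, h1, h2, h3, h4⟩ := boundB (k := k) (N := n) (Ic hL) (pow_le_Ic hL) f' hf' hgen
    (tau c (fun l => algebraMap k L (t0 l))) (tau_zero hL _)
    (tau_nondeg hL _ (by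
      intro h0
      apply hdet
      have := congrArg (algebraMap L K) h0
      rw [RingHom.map_det, map_zero] at this
      rw [← this]
      congr 1
      ext i j
      simp only [Matrix.of_apply, RingHom.mapMatrix_apply, Matrix.map_apply, map_sum, map_mul]
      rfl))
    (rigid hL hadj) D hD
  rw [finrank_quot hL] at h2 h3 h4
  exact ⟨r, a, t, ρ, hr, h1, h2, h3, h4⟩

end Pool.Agent.W457.HC
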