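import Pool.Agent.W457.H2

namespace Pool.Agent.W457.HC

open MvPowerSeries

variable {k : Type*} [Field k]

/-- exponents of degree less than N -/
noncomputable def AA (N : ℕ) : Finset (Fin 3 →₀ ℕ) := (Finsupp.finite_of_degree_lt N).toFinset

@[simp] lemma mem_AA {N : ℕ} {α : Fin 3 →₀ ℕ} : α ∈ AA N ↔ α.degree < N := by
  simp [AA]

/-- power series of order at least N -/
def Tail (N : ℕ) (h : MvPowerSeries (Fin 3) k) : Prop := ∀ γ : Fin 3 →₀ ℕ, γ.degree < N →
  coeff γ h = 0

lemma Tail_add {N : ℕ} {g h : MvPowerSeries (Fin 3) k} (hg : Tail N g) (hh : Tail N h) :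
    Tail N (g + h) := by
  intro γ hγ; rw [map_add, hg γ hγ, hh γ hγ, add_zero]

lemma Tail_mul {M N : ℕ} {g h : MvPowerSeries (Fin 3) k} (hg : Tail M g) (hh : Tail N h) :
    Tail (M + N) (g * h) := by
  classical
  intro γ hγ
  rw [coeff_mul]
  refine Finset.sum_eq_zero fun p hp => ?_
  rw [Finset.HasAntidiagonal.mem_antidiagonal] at hp
  have h1 : p.1.degree + p.2.degree = γ.degree := by rw [← hp, map_add]
  by_cases h2 : p.1.degree < M
  · rw [hg _ h2, zero_mul]
  · rw [hh _ (by omega), mul_zero]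

lemma Tail_zero (h : MvPowerSeries (Fin 3) k) : Tail 0 h := fun γ hγ => absurd hγ (by omega)

lemma Tail_monomial (α : Fin 3 →₀ ℕ) (c : k) : Tail α.degree (monomial α c) := by
  classical
  intro γ hγ
  rw [coeff_monomial, if_neg]
  rintro rfl
  exact absurd hγ (by omega)

lemma Tail_mono {M N : ℕ} (hMN : M ≤ N) {g : MvPowerSeries (Fin 3) k} (hg : Tail N g) :
    Tail M g := fun γ hγ => hg γ (by omega)

/-- tails lie in an ideal containing the monomials of the given degree -/
lemma tail_mem {J : Ideal (MvPowerSeries (Fin 3) k)} {N : ℕ}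
    (hJ : ∀ α : Fin 3 →₀ ℕ, α.degree = N → monomial α (1 : k) ∈ J)
    {h : MvPowerSeries (Fin 3) k} (hh : Tail N h) : h ∈ J := by
  classical
  have hch : ∀ γ : Fin 3 →₀ ℕ, ∃ α : Fin 3 →₀ ℕ, N ≤ γ.degree → α ≤ γ ∧ α.degree = N := by
    intro γ
    by_cases hγ : N ≤ γ.degree
    · obtain ⟨α, h1, h2⟩ := Finsupp.exists_le_degree_eq γ N hγ
      exact ⟨α, fun _ => ⟨h1, h2⟩⟩
    · exact ⟨0, fun h => absurd h hγ⟩
  choose A hA using hch
  let S : Finset (Fin 3 →₀ ℕ) := (AA (N + 1)).filter (fun α => α.degree = N)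
  let q : (Fin 3 →₀ ℕ) → MvPowerSeries (Fin 3) k := fun α =>
    (fun β => if A (α + β) = α then coeff (α + β) h else 0 : (Fin 3 →₀ ℕ) → k)
  have hq : ∀ α β, coeff β (q α) = if A (α + β) = α then coeff (α + β) h else 0 := fun _ _ => rfl
  have he : h = ∑ α ∈ S, monomial α (1 : k) * q α := by
    ext γ
    rw [map_sum]
    by_cases hγ : γ.degree < N
    · rw [hh γ hγ]
      refine (Finset.sum_eq_zero fun α hα => ?_).symm
      rw [coeff_monomial_mul, if_neg]
      intro hle
      have h1 : α.degree = N := (Finset.mem_filter.mp hα).2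
      have h2 := Finsupp.degree_mono hle
      omega
    · push Not at hγ
      obtain ⟨h1, h2⟩ := hA γ hγ
      rw [Finset.sum_eq_single (A γ)]
      · rw [coeff_monomial_mul, if_pos h1, hq, one_mul, add_tsub_cancel_of_le h1, if_pos rfl]
      · intro α _ hne
        rw [coeff_monomial_mul]
        split_ifs with hle
        · rw [hq, one_mul, add_tsub_cancel_of_le hle, if_neg (Ne.symm hne)]
        · rfl
      · intro hn
        exfalso; apply hn
        rw [Finset.mem_filter, mem_AA]
        exact ⟨by omega, h2⟩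
  rw [he]
  refine Ideal.sum_mem _ fun α hα => ?_
  exact J.mul_mem_right _ (hJ α (Finset.mem_filter.mp hα).2)

/-- every power series is a polynomial plus a tail -/
lemma trunc_tail (N : ℕ) (h : MvPowerSeries (Fin 3) k) :
    Tail N (h - ∑ β ∈ AA N, coeff β h • monomial β (1 : k)) := by
  classical
  intro γ hγ
  rw [map_sub, map_sum, Finset.sum_eq_single γ]
  · rw [map_smul, coeff_monomial_same, smul_eq_mul, mul_one, sub_self]
  · intro β _ hne
    rw [map_smul, coeff_monomial_ne (Ne.symm hne), smul_zero]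
  · intro hn; exact absurd (mem_AA.mpr hγ) hn

/-- chain of exponents below α -/
noncomputable def chn (α : Fin 3 →₀ ℕ) (i : ℕ) : Fin 3 →₀ ℕ :=
  ex3 (min i (α 0), min (i - α 0) (α 1), min (i - α 0 - α 1) (α 2))

lemma chn_le (α : Fin 3 →₀ ℕ) (i : ℕ) : chn α i ≤ α := by
  intro j
  fin_cases j
  · exact min_le_right _ _
  · exact min_le_right _ _
  · exact min_le_right _ _

lemma chn_mono (α : Fin 3 →₀ ℕ) {i i' : ℕ} (h : i ≤ i') : chn α i ≤ chn α i' := by
  intro j
  fin_cases j
  · change min i (α 0) ≤ min i' (α 0); omega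
  · change min (i - α 0) (α 1) ≤ min (i' - α 0) (α 1); omega
  · change min (i - α 0 - α 1) (α 2) ≤ min (i' - α 0 - α 1) (α 2); omega

lemma degree_three (α : Fin 3 →₀ ℕ) : α.degree = α 0 + α 1 + α 2 := by
  rw [Finsupp.degree_eq_sum, Fin.sum_univ_three]

lemma chn_degree (α : Fin 3 →₀ ℕ) {i : ℕ} (h : i ≤ α.degree) : (chn α i).degree = i := by
  rw [chn, degree_ex3]
  rw [degree_three] at h
  simp only
  omega

theorem nilp {J : Ideal (MvPowerSeries (Fin 3) k)} [Module.Finite k (MvPowerSeries (Fin 3) k ⧸ J)]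
    (α : Fin 3 →₀ ℕ) (hα : Module.finrank k (MvPowerSeries (Fin 3) k ⧸ J) ≤ α.degree) :
    monomial α (1 : k) ∈ J := by
  classical
  set n := Module.finrank k (MvPowerSeries (Fin 3) k ⧸ J) with hn
  have hdep : ¬ LinearIndependent k (fun i : Fin (n + 1) =>
      Ideal.Quotient.mk J (monomial (chn α i) (1 : k))) := by
    intro h
    have := h.fintype_card_le_finrank
    rw [Fintype.card_fin] at this
    omega
  rw [Fintype.not_linearIndependent_iff] at hdep
  obtain ⟨c, hc, i1, hi1⟩ := hdep
  obtain ⟨s, hs, hmin⟩ := Finset.exists_min_image (Finset.univ.filter (fun i => c i ≠ 0))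
    (fun i => i) ⟨i1, by simpa using hi1⟩
  have hcs : c s ≠ 0 := by simpa using hs
  have hmem : (∑ i, c i • monomial (chn α i) (1 : k)) ∈ J := by
    rw [← Ideal.Quotient.eq_zero_iff_mem, map_sum, ← hc]
    refine Finset.sum_congr rfl fun i _ => ?_
    rfl
  set u : MvPowerSeries (Fin 3) k := ∑ i, c i • (if s ≤ i then
    monomial (chn α i - chn α s) (1 : k) else 0) with hu
  have hfac : (∑ i, c i • monomial (chn α i) (1 : k)) = monomial (chn α s) (1 : k) * u := by
    rw [hu, Finset.mul_sum]
    refine Finset.sum_congr rfl fun i _ => ?_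
    rw [mul_smul_comm]
    by_cases hci : c i = 0
    · rw [hci, zero_smul, zero_smul]
    · have hsi : s ≤ i := hmin i (by simpa using hci)
      rw [if_pos hsi, monomial_mul_monomial, one_mul,
        add_tsub_cancel_of_le (chn_mono α (by exact_mod_cast hsi))]
  have hu0 : constantCoeff u = c s := by
    rw [hu, map_sum, Finset.sum_eq_single s]
    · rw [if_pos le_rfl, tsub_self, monomial_zero_one, constantCoeff_smul]
      simp
    · intro i _ hne
      by_cases hsi : s ≤ i
      · rw [if_pos hsi, constantCoeff_smul, ← coeff_zero_eq_constantCoeff_apply,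
          coeff_monomial_ne, smul_zero]
        intro h0
        have h1 : (chn α i).degree ≤ (chn α s).degree := by
          have : chn α i ≤ chn α s := tsub_eq_zero_iff_le.mp h0.symm
          exact Finsupp.degree_mono this
        rw [chn_degree α (by have := i.2; omega), chn_degree α (by have := s.2; omega)] at h1
        exact hne (le_antisymm (by exact_mod_cast h1) hsi)
      · rw [if_neg hsi]; simp
    · intro h; exact absurd (Finset.mem_univ _) h
  have hunit : IsUnit u := by
    rw [MvPowerSeries.isUnit_iff_constantCoeff, hu0]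
    exact isUnit_iff_ne_zero.mpr hcs
  rw [hfac] at hmem
  have h1 : monomial (chn α s) (1 : k) ∈ J := (Ideal.mul_unit_mem_iff_mem J hunit).mp hmem
  have h2 : monomial α (1 : k) = monomial (chn α s) (1 : k) * monomial (α - chn α s) (1 : k) := by
    rw [monomial_mul_monomial, one_mul, add_tsub_cancel_of_le (chn_le α s)]
  rw [h2]
  exact J.mul_mem_right _ h1

end Pool.Agent.W457.HC
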