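import Mathlib

/-!
# The punctual Hilbert scheme of k[[x,y,z]] with its Zariski topology
-/

namespace Pool.Agent.W457.HC

open MvPowerSeries

/-- The set of k-points of the punctual Hilbert scheme `Hilb^n_0` of 3-space: the ideals `I` of
`k[[x,y,z]]` with `dim_k k[[x,y,z]]/I = n`. -/
def PHilb (k : Type*) [Field k] (n : ℕ) :=
  {I : Ideal (MvPowerSeries (Fin 3) k) //
    Module.Finite k (MvPowerSeries (Fin 3) k ⧸ I) ∧
    Module.finrank k (MvPowerSeries (Fin 3) k ⧸ I) = n}

variable {k : Type*} [Field k] {n : ℕ}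

/-- `I` lies in the standard affine chart of the monomials `x^(b 0), ..., x^(b (n-1))`: they are
linearly independent modulo `I`, hence (as `dim_k k[[x,y,z]]/I = n`) a basis of
`k[[x,y,z]]/I`. -/
def InChart (b : Fin n → (Fin 3 →₀ ℕ)) (I : PHilb k n) : Prop :=
  LinearIndependent k (fun i => Ideal.Quotient.mk I.1 (monomial (b i) (1 : k)))

/-- `c` is the coordinate vector of `I` in the chart `b`: every monomial `x^α` is congruent to
`∑ i, c α i * x^(b i)` modulo `I`. (For `I` in the chart there is exactly one such `c`.) -/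
def IsCoord (b : Fin n → (Fin 3 →₀ ℕ)) (I : PHilb k n) (c : (Fin 3 →₀ ℕ) → Fin n → k) : Prop :=
  ∀ α : Fin 3 →₀ ℕ, monomial α (1 : k) - ∑ i, c α i • monomial (b i) (1 : k) ∈ I.1

/-- The principal open subset of the chart `b` where the polynomial `P` in the coordinates does not
vanish. -/
def principalOpen (b : Fin n → (Fin 3 →₀ ℕ)) (P : MvPolynomial ((Fin 3 →₀ ℕ) × Fin n) k) :
    Set (PHilb k n) :=
  {I | InChart b I ∧ ∀ c, IsCoord b I c → MvPolynomial.eval (fun p => c p.1 p.2) P ≠ 0}

/-- The Zariski topology of `Hilb^n_0`: it is generated by the principal open subsets of the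
affine charts. -/
instance zariski (k : Type*) [Field k] (n : ℕ) : TopologicalSpace (PHilb k n) :=
  TopologicalSpace.generateFrom {U | ∃ b P, U = principalOpen b P}

/-- The socle `0 :_A m` of `A = k[[x,y,z]]/I`, `m = (x,y,z)`. -/
noncomputable def socle (I : Ideal (MvPowerSeries (Fin 3) k)) :
    Submodule k (MvPowerSeries (Fin 3) k ⧸ I) where
  carrier := {a | ∀ i : Fin 3, Ideal.Quotient.mk I (X i) * a = 0}
  add_mem' := by
    intro a b ha hb i
    rw [mul_add, ha i, hb i, add_zero]
  zero_mem' := by intro i; rw [mul_zero]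
  smul_mem' := by
    intro c a ha i
    rw [mul_smul_comm, ha i, smul_zero]

/-- `k[[x,y,z]]/I` is Gorenstein: its socle is one-dimensional. -/
def IsGorenstein (I : Ideal (MvPowerSeries (Fin 3) k)) : Prop :=
  Module.finrank k (socle I) = 1

/-- `k[[x,y,z]]/I` is a complete intersection: `I` is generated by three elements. -/
def IsCI (I : Ideal (MvPowerSeries (Fin 3) k)) : Prop :=
  ∃ f g h, I = Ideal.span {f, g, h}

end Pool.Agent.W457.HC
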