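import Pool.Agent.W457.H12
import Pool.Agent.W457.HDefs

namespace Pool.Agent.W457.HC

open MvPowerSeries

variable {k : Type*} [Field k]

/-- the functional attached to t, concentrated in degrees at most D -/
noncomputable def Phi (D : ℕ) (t : (Fin 3 →₀ ℕ) → k) : MvPowerSeries (Fin 3) k →ₗ[k] k :=
  ∑ γ ∈ AA (D + 1), t γ • (coeff γ : MvPowerSeries (Fin 3) k →ₗ[k] k)

lemma Phi_apply (D : ℕ) (t : (Fin 3 →₀ ℕ) → k) (g : MvPowerSeries (Fin 3) k) :
    Phi D t g = ∑ γ ∈ AA (D + 1), t γ * coeff γ g := by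
  simp [Phi]

lemma Phi_tail (D : ℕ) (t : (Fin 3 →₀ ℕ) → k) {g : MvPowerSeries (Fin 3) k}
    (hg : Tail (D + 1) g) : Phi D t g = 0 := by
  rw [Phi_apply]
  refine Finset.sum_eq_zero fun γ hγ => ?_
  rw [hg γ (mem_AA.mp hγ), mul_zero]

lemma Phi_monomial (D : ℕ) (t : (Fin 3 →₀ ℕ) → k) (α : Fin 3 →₀ ℕ) :
    Phi D t (monomial α 1) = if α.degree ≤ D then t α else 0 := by
  classical
  split_ifs with h
  · rw [Phi_apply, Finset.sum_eq_single α]
    · rw [coeff_monomial_same, mul_one]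
    · intro γ _ hne
      rw [coeff_monomial_ne hne, mul_zero]
    · intro hn; exact absurd (mem_AA.mpr (by omega)) hn
  · exact Phi_tail D t (Tail_mono (by omega) (Tail_monomial α 1))

/-- the annihilator ideal of the functional -/
noncomputable def Jt (D : ℕ) (t : (Fin 3 →₀ ℕ) → k) : Ideal (MvPowerSeries (Fin 3) k) where
  carrier := {g | ∀ h, Phi D t (h * g) = 0}
  add_mem' := by
    intro a b ha hb h
    rw [mul_add, map_add, ha h, hb h, add_zero]
  zero_mem' := by intro h; rw [mul_zero, map_zero]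
  smul_mem' := by
    intro c x hx h
    rw [smul_eq_mul, ← mul_assoc]; exact hx _

lemma mem_Jt (D : ℕ) (t : (Fin 3 →₀ ℕ) → k) (g : MvPowerSeries (Fin 3) k) :
    g ∈ Jt D t ↔ ∀ h, Phi D t (h * g) = 0 := Iff.rfl

lemma tail_Jt (D : ℕ) (t : (Fin 3 →₀ ℕ) → k) {g : MvPowerSeries (Fin 3) k}
    (hg : Tail (D + 1) g) : g ∈ Jt D t := by
  intro h
  apply Phi_tail
  have := Tail_mul (Tail_zero h) hg
  rwa [zero_add] at this

lemma Phi_expand (D : ℕ) (t : (Fin 3 →₀ ℕ) → k) (h g : MvPowerSeries (Fin 3) k) :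
    Phi D t (h * g) = ∑ β ∈ AA (D + 1), coeff β h * Phi D t (monomial β 1 * g) := by
  have h1 := trunc_tail (D + 1) h
  have h2 : Phi D t ((h - ∑ β ∈ AA (D + 1), coeff β h • monomial β (1 : k)) * g) = 0 := by
    apply Phi_tail
    have := Tail_mul h1 (Tail_zero g)
    rwa [add_zero] at this
  rw [sub_mul, map_sub, sub_eq_zero] at h2
  rw [h2, Finset.sum_mul, map_sum]
  refine Finset.sum_congr rfl fun β _ => ?_
  rw [smul_mul_assoc, map_smul, smul_eq_mul]

/-- finiteness map -/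
noncomputable def Xi (m : ℕ) (t : (Fin 3 →₀ ℕ) → k) :
    MvPowerSeries (Fin 3) k →ₗ[k] ((AA m → k) × (AA (m + 1) → k)) :=
  LinearMap.prod (LinearMap.pi fun α => (coeff (α : Fin 3 →₀ ℕ) : MvPowerSeries (Fin 3) k →ₗ[k] k))
    (LinearMap.pi fun β => (Phi (2 * m) t) ∘ₗ (LinearMap.mulLeft k (monomial (β : Fin 3 →₀ ℕ) (1 : k))))

lemma ker_Xi (m : ℕ) (t : (Fin 3 →₀ ℕ) → k) (g : MvPowerSeries (Fin 3) k)
    (hg : Xi m t g = 0) : g ∈ Jt (2 * m) t := by
  have h1 : Tail m g := by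
    intro γ hγ
    exact congrFun (congrArg Prod.fst hg) ⟨γ, mem_AA.mpr hγ⟩
  have h2 : ∀ β : Fin 3 →₀ ℕ, β.degree ≤ m → Phi (2 * m) t (monomial β 1 * g) = 0 := by
    intro β hβ
    exact congrFun (congrArg Prod.snd hg) ⟨β, mem_AA.mpr (by omega)⟩
  intro h
  rw [Phi_expand]
  refine Finset.sum_eq_zero fun β _ => ?_
  by_cases hβ : β.degree ≤ m
  · rw [h2 β hβ, mul_zero]
  · rw [Phi_tail, mul_zero]
    exact Tail_mono (by omega) (Tail_mul (Tail_monomial β 1) h1)

lemma finite_Jt (m : ℕ) (t : (Fin 3 →₀ ℕ) → k) :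
    Module.Finite k (MvPowerSeries (Fin 3) k ⧸ Jt (2 * m) t) ∧
    Module.finrank k (MvPowerSeries (Fin 3) k ⧸ Jt (2 * m) t) ≤ (AA m).card + (AA (m + 1)).card := by
  let q : MvPowerSeries (Fin 3) k →ₗ[k] (MvPowerSeries (Fin 3) k ⧸ Jt (2 * m) t) :=
    (Ideal.Quotient.mkₐ k (Jt (2 * m) t)).toLinearMap
  have hq : Function.Surjective q := Ideal.Quotient.mk_surjective
  have hker : LinearMap.ker (Xi m t) ≤ LinearMap.ker q := by
    intro g hg
    rw [LinearMap.mem_ker] at hg ⊢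
    exact Ideal.Quotient.eq_zero_iff_mem.mpr (ker_Xi m t g hg)
  have hs : Function.Surjective ((LinearMap.ker (Xi m t)).liftQ q hker) := by
    intro y
    obtain ⟨x, rfl⟩ := hq y
    exact ⟨Submodule.Quotient.mk x, rfl⟩
  have hfin : Module.Finite k (MvPowerSeries (Fin 3) k ⧸ LinearMap.ker (Xi m t)) :=
    Module.Finite.equiv (Xi m t).quotKerEquivRange.symm
  refine ⟨Module.Finite.of_surjective _ hs, ?_⟩
  calc Module.finrank k (MvPowerSeries (Fin 3) k ⧸ Jt (2 * m) t)
      ≤ Module.finrank k (MvPowerSeries (Fin 3) k ⧸ LinearMap.ker (Xi m t)) :=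
        LinearMap.finrank_le_finrank_of_surjective hs
    _ = Module.finrank k (LinearMap.range (Xi m t)) := (Xi m t).quotKerEquivRange.finrank_eq
    _ ≤ Module.finrank k ((AA m → k) × (AA (m + 1) → k)) := Submodule.finrank_le _
    _ = (AA m).card + (AA (m + 1)).card := by simp

lemma socle_Jt (m : ℕ) (t : (Fin 3 →₀ ℕ) → k) (hne : Jt (2 * m) t ≠ ⊤) :
    Module.finrank k (socle (Jt (2 * m) t)) = 1 := by
  set J := Jt (2 * m) t with hJ
  have hfin : Module.Finite k (MvPowerSeries (Fin 3) k ⧸ J) := (finite_Jt m t).1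
  -- descend Phi
  have hPhi0 : ∀ g ∈ J, Phi (2 * m) t g = 0 := by
    intro g hg
    have := hg 1
    rwa [one_mul] at this
  let q : MvPowerSeries (Fin 3) k →ₗ[k] (MvPowerSeries (Fin 3) k ⧸ J) :=
    (Ideal.Quotient.mkₐ k J).toLinearMap
  let F : (MvPowerSeries (Fin 3) k ⧸ J) →ₗ[k] k :=
    ((J.restrictScalars k).liftQ (Phi (2 * m) t) (fun g hg => hPhi0 g hg)) ∘ₗ
      (Submodule.Quotient.restrictScalarsEquiv k J).symm.toLinearMap
  have hF : ∀ g, F (Ideal.Quotient.mk J g) = Phi (2 * m) t g := fun g => rfl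
  -- pairing
  let B : (MvPowerSeries (Fin 3) k ⧸ J) →ₗ[k] Module.Dual k (MvPowerSeries (Fin 3) k ⧸ J) :=
    LinearMap.mk₂ k (fun a b => F (a * b))
      (by intro a b c; rw [add_mul, map_add]) (by intro c a b; rw [smul_mul_assoc, map_smul])
      (by intro a b c; rw [mul_add, map_add]) (by intro c a b; rw [mul_smul_comm, map_smul])
  have hB : Function.Injective B := by
    rw [← LinearMap.ker_eq_bot, LinearMap.ker_eq_bot']
    intro a ha
    obtain ⟨g, rfl⟩ := Ideal.Quotient.mk_surjective a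
    rw [Ideal.Quotient.eq_zero_iff_mem]
    intro h
    have := LinearMap.congr_fun ha (Ideal.Quotient.mk J h)
    change F (Ideal.Quotient.mk J g * Ideal.Quotient.mk J h) = 0 at this
    rw [← map_mul, hF] at this
    rw [mul_comm h g]
    exact this
  have hB' : Function.Surjective B :=
    (LinearMap.injective_iff_surjective_of_finrank_eq_finrank
      (Subspace.dual_finrank_eq).symm).mp hB
  have hcc : ∀ g ∈ J, constantCoeff g = 0 := by
    intro g hg
    by_contra hc
    apply hne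
    apply Ideal.eq_top_of_isUnit_mem _ hg
    rw [MvPowerSeries.isUnit_iff_constantCoeff]
    exact isUnit_iff_ne_zero.mpr hc
  let E : (MvPowerSeries (Fin 3) k ⧸ J) →ₗ[k] k :=
    ((J.restrictScalars k).liftQ (coeff 0 : MvPowerSeries (Fin 3) k →ₗ[k] k)
      (fun g hg => hcc g hg)) ∘ₗ (Submodule.Quotient.restrictScalarsEquiv k J).symm.toLinearMap
  have hE : ∀ g, E (Ideal.Quotient.mk J g) = constantCoeff g := fun g => rfl
  obtain ⟨a0, ha0⟩ := hB' E
  have ha0' : ∀ b, F (a0 * b) = E b := fun b => LinearMap.congr_fun ha0 b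
  have ha0s : a0 ∈ socle J := by
    intro i
    apply hB
    refine LinearMap.ext fun b => ?_
    rw [map_zero]
    change F (Ideal.Quotient.mk J (X i) * a0 * b) = 0
    obtain ⟨g, rfl⟩ := Ideal.Quotient.mk_surjective b
    rw [show Ideal.Quotient.mk J (X i) * a0 * Ideal.Quotient.mk J g =
      a0 * Ideal.Quotient.mk J (X i * g) by rw [map_mul]; ring, ha0', hE, map_mul,
      constantCoeff_X, zero_mul]
  have ha0ne : a0 ≠ 0 := by
    intro h0
    have h1 := ha0' (Ideal.Quotient.mk J 1)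
    have h2 : F (a0 * Ideal.Quotient.mk J 1) = 0 := by rw [h0, zero_mul, map_zero]
    have h3 : E (Ideal.Quotient.mk J 1) = 1 := (hE 1).trans (map_one _)
    rw [h2, h3] at h1
    exact zero_ne_one h1
  -- socle elements: h a = h(0) a
  have hsoc : ∀ a ∈ socle J, ∀ h, Ideal.Quotient.mk J h * a = constantCoeff h • a := by
    intro a ha h
    have hmon : ∀ β : Fin 3 →₀ ℕ, β ≠ 0 → Ideal.Quotient.mk J (monomial β 1) * a = 0 := by
      intro β hβ
      obtain ⟨i, hi⟩ : ∃ i, β i ≠ 0 := by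
        by_contra hcon
        push Not at hcon
        exact hβ (Finsupp.ext hcon)
      have hle : Finsupp.single i 1 ≤ β := by
        rw [Finsupp.single_le_iff]; omega
      have e : (monomial β 1 : MvPowerSeries (Fin 3) k) =
          monomial (β - Finsupp.single i 1) 1 * X i := by
        rw [X, monomial_mul_monomial, mul_one, tsub_add_cancel_of_le hle]
      rw [e, map_mul, mul_assoc, ha i, mul_zero]
    have htail := tail_Jt (2 * m) t (trunc_tail (2 * m + 1) h)
    have h1 : Ideal.Quotient.mk J h =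
        ∑ β ∈ AA (2 * m + 1), coeff β h • Ideal.Quotient.mk J (monomial β (1 : k)) := by
      have h2 := Ideal.Quotient.eq_zero_iff_mem.mpr htail
      rw [map_sub, sub_eq_zero] at h2
      rw [h2, map_sum]
      rfl
    rw [h1, Finset.sum_mul, Finset.sum_eq_single (0 : Fin 3 →₀ ℕ)]
    · rw [monomial_zero_one, map_one, smul_mul_assoc, one_mul]
      rfl
    · intro β _ hβ
      rw [smul_mul_assoc, hmon β hβ, smul_zero]
    · intro hn
      exfalso; apply hn
      rw [mem_AA]; simp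
  rw [finrank_eq_one_iff']
  refine ⟨⟨a0, ha0s⟩, fun h => ha0ne (congrArg Subtype.val h), ?_⟩
  rintro ⟨a, ha⟩
  refine ⟨F a, ?_⟩
  apply Subtype.ext
  change F a • a0 = a
  rw [← sub_eq_zero]
  apply hB
  refine LinearMap.ext fun b => ?_
  rw [map_zero]
  change F ((F a • a0 - a) * b) = 0
  obtain ⟨g, rfl⟩ := Ideal.Quotient.mk_surjective b
  rw [sub_mul, map_sub, smul_mul_assoc, map_smul, ha0', hE, mul_comm a, hsoc a ha g, map_smul,
    smul_eq_mul, smul_eq_mul]
  ring

end Pool.Agent.W457.HC
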