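import Pool.Agent.W457.H9
import Pool.Agent.W457.H13

namespace Pool.Agent.W457.HC

open MvPowerSeries

variable {k : Type*} [Field k] {n : ℕ}

/-- the linear quotient map -/
noncomputable def qm (I : Ideal (MvPowerSeries (Fin 3) k)) :
    MvPowerSeries (Fin 3) k →ₗ[k] (MvPowerSeries (Fin 3) k ⧸ I) :=
  (Ideal.Quotient.mkₐ k I).toLinearMap

lemma qm_zero {I : Ideal (MvPowerSeries (Fin 3) k)} {g : MvPowerSeries (Fin 3) k} :
    qm I g = 0 ↔ g ∈ I := Ideal.Quotient.eq_zero_iff_mem

lemma exists_coord {b : Fin n → (Fin 3 →₀ ℕ)} {I : PHilb k n} (hI : InChart b I)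
    (g : MvPowerSeries (Fin 3) k) :
    ∃ v : Fin n → k, g - ∑ i, v i • monomial (b i) (1 : k) ∈ I.1 := by
  obtain ⟨I, hfin, hrk⟩ := I
  have hli : LinearIndependent k (fun i => qm I (monomial (b i) (1 : k))) := hI
  have htop : Submodule.span k (Set.range (fun i => qm I (monomial (b i) (1 : k)))) = ⊤ :=
    hli.span_eq_top_of_card_eq_finrank' (by rw [Fintype.card_fin, hrk])
  have : qm I g ∈ Submodule.span k (Set.range (fun i => qm I (monomial (b i) (1 : k)))) := by
    rw [htop]; trivial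
  rw [Submodule.mem_span_range_iff_exists_fun] at this
  obtain ⟨v, hv⟩ := this
  refine ⟨v, ?_⟩
  change _ ∈ I
  rw [← qm_zero, map_sub, map_sum, ← hv]
  simp only [map_smul, sub_self]

lemma coord_unique {b : Fin n → (Fin 3 →₀ ℕ)} {I : PHilb k n} (hI : InChart b I)
    {v : Fin n → k} (hv : ∑ i, v i • monomial (b i) (1 : k) ∈ I.1) : v = 0 := by
  have hli : LinearIndependent k (fun i => qm I.1 (monomial (b i) (1 : k))) := hI
  rw [Fintype.linearIndependent_iff] at hli
  funext i
  apply hli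
  rw [← qm_zero, map_sum] at hv
  simpa only [map_smul] using hv

lemma coord_eq {b : Fin n → (Fin 3 →₀ ℕ)} {I : PHilb k n} (hI : InChart b I)
    {g : MvPowerSeries (Fin 3) k} {v w : Fin n → k}
    (hv : g - ∑ i, v i • monomial (b i) (1 : k) ∈ I.1)
    (hw : g - ∑ i, w i • monomial (b i) (1 : k) ∈ I.1) : v = w := by
  have h := I.1.sub_mem hw hv
  have e : (g - ∑ i, w i • monomial (b i) (1 : k)) - (g - ∑ i, v i • monomial (b i) (1 : k)) =
      ∑ i, (v - w) i • monomial (b i) (1 : k) := by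
    simp only [Pi.sub_apply, sub_smul, Finset.sum_sub_distrib]
    abel
  rw [e] at h
  have := coord_unique hI h
  exact sub_eq_zero.mp this

lemma exists_isCoord {b : Fin n → (Fin 3 →₀ ℕ)} {I : PHilb k n} (hI : InChart b I) :
    ∃ c, IsCoord b I c := by
  choose c hc using fun α : Fin 3 →₀ ℕ => exists_coord hI (monomial α (1 : k))
  exact ⟨c, hc⟩

lemma isCoord_unique {b : Fin n → (Fin 3 →₀ ℕ)} {I : PHilb k n} (hI : InChart b I)
    {c c' : (Fin 3 →₀ ℕ) → Fin n → k} (hc : IsCoord b I c) (hc' : IsCoord b I c') : c = c' := by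
  funext α
  exact coord_eq hI (hc α) (hc' α)

lemma monomial_mem {I : PHilb k n} {α : Fin 3 →₀ ℕ} (hα : n ≤ α.degree) :
    monomial α (1 : k) ∈ I.1 := by
  have := I.2.1
  exact nilp α (by rw [I.2.2]; exact hα)

lemma tail_mem' {I : PHilb k n} {N : ℕ} (hN : n ≤ N) {h : MvPowerSeries (Fin 3) k}
    (hh : Tail N h) : h ∈ I.1 :=
  tail_mem (fun α hα => monomial_mem (by omega)) hh

theorem chartData {b : Fin n → (Fin 3 →₀ ℕ)} {I : PHilb k n} (hI : InChart b I)
    {c : (Fin 3 →₀ ℕ) → Fin n → k} (hc : IsCoord b I c) : ChartData b c where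
  hb i l := by
    have h1 : monomial (b i) (1 : k) - ∑ j, (fun j => if i = j then (1 : k) else 0) j •
        monomial (b j) (1 : k) ∈ I.1 := by
      simp
    exact congrFun (coord_eq hI (hc (b i)) h1) l
  hmul α j l := by
    have h1 : monomial (α + Finsupp.single j 1) (1 : k) -
        ∑ l, (fun l => ∑ i, c α i * c (b i + Finsupp.single j 1) l) l •
          monomial (b l) (1 : k) ∈ I.1 := by
      have h2 := I.1.mul_mem_left (X j) (hc α)
      have h3 : ∑ i, c α i • (monomial (b i + Finsupp.single j 1) (1 : k) -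
          ∑ l, c (b i + Finsupp.single j 1) l • monomial (b l) (1 : k)) ∈ I.1 := by
        refine I.1.sum_mem fun i _ => ?_
        rw [smul_eq_C_mul]
        exact I.1.mul_mem_left _ (hc _)
      have h4 := I.1.add_mem h2 h3
      convert h4 using 1
      have e1 : ∀ β : Fin 3 →₀ ℕ, X j * monomial β (1 : k) =
          monomial (β + Finsupp.single j 1) (1 : k) := by
        intro β
        rw [X, monomial_mul_monomial, one_mul, add_comm]
      rw [mul_sub, e1, Finset.mul_sum]
      simp only [mul_smul_comm, e1, smul_sub, Finset.sum_sub_distrib, Finset.smul_sum, smul_smul]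
      rw [Finset.sum_comm]
      simp only [Finset.sum_smul]
      abel
    exact congrFun (coord_eq hI (hc _) h1) l
  hdeg α hα l := by
    have h1 : monomial α (1 : k) - ∑ i, (fun _ : Fin n => (0 : k)) i •
        monomial (b i) (1 : k) ∈ I.1 := by
      simpa using monomial_mem (I := I) hα
    exact congrFun (coord_eq hI (hc α) h1) l

/-- coordinates of a power series in the ideal -/
lemma sum_coord_zero {b : Fin n → (Fin 3 →₀ ℕ)} {I : PHilb k n} (hI : InChart b I)
    {c : (Fin 3 →₀ ℕ) → Fin n → k} (hc : IsCoord b I c) {N : ℕ} (hN : n ≤ N)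
    {f : MvPowerSeries (Fin 3) k} (hf : f ∈ I.1) (l : Fin n) :
    ∑ β ∈ AA N, coeff β f * c β l = 0 := by
  have h1 : f - (f - ∑ β ∈ AA N, coeff β f • monomial β (1 : k)) -
      ∑ β ∈ AA N, coeff β f • (monomial β (1 : k) - ∑ i, c β i • monomial (b i) (1 : k)) ∈ I.1 := by
    refine I.1.sub_mem (I.1.sub_mem hf (tail_mem' hN (trunc_tail N f))) ?_
    refine I.1.sum_mem fun β _ => ?_
    rw [smul_eq_C_mul]
    exact I.1.mul_mem_left _ (hc _)
  have e : f - (f - ∑ β ∈ AA N, coeff β f • monomial β (1 : k)) -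
      ∑ β ∈ AA N, coeff β f • (monomial β (1 : k) - ∑ i, c β i • monomial (b i) (1 : k)) =
      ∑ i, (fun i => ∑ β ∈ AA N, coeff β f * c β i) i • monomial (b i) (1 : k) := by
    simp only [smul_sub, Finset.sum_sub_distrib, Finset.smul_sum, smul_smul, Finset.sum_smul]
    rw [Finset.sum_comm]
    abel
  rw [e] at h1
  exact congrFun (coord_unique hI h1) l

end Pool.Agent.W457.HC
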