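import Pool.Agent.W457.H14

namespace Pool.Agent.W457.HC

open MvPowerSeries

variable {k : Type*} [Field k] {n : ℕ}

/-- Gram matrix -/
noncomputable def Gm (D : ℕ) (t : (Fin 3 →₀ ℕ) → k) (b : Fin n → (Fin 3 →₀ ℕ)) :
    Matrix (Fin n) (Fin n) k :=
  Matrix.of fun i j => Phi D t (monomial (b i + b j) 1)

lemma Gm_symm (D : ℕ) (t : (Fin 3 →₀ ℕ) → k) (b : Fin n → (Fin 3 →₀ ℕ)) (i j : Fin n) :
    Gm D t b i j = Gm D t b j i := by
  simp only [Gm, Matrix.of_apply, add_comm]

/-- if the monomials span then the pairing with them detects membership -/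
lemma nd {D : ℕ} {t : (Fin 3 →₀ ℕ) → k} {b : Fin n → (Fin 3 →₀ ℕ)}
    (hspan : Submodule.span k (Set.range (fun i => qm (Jt D t) (monomial (b i) (1 : k)))) = ⊤)
    {g : MvPowerSeries (Fin 3) k} (hg : ∀ i, Phi D t (monomial (b i) 1 * g) = 0) : g ∈ Jt D t := by
  intro h
  have h1 : qm (Jt D t) h ∈ Submodule.span k
      (Set.range (fun i => qm (Jt D t) (monomial (b i) (1 : k)))) := by
    rw [hspan]; trivial
  rw [Submodule.mem_span_range_iff_exists_fun] at h1
  obtain ⟨v, hv⟩ := h1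
  have h2 : h - ∑ i, v i • monomial (b i) (1 : k) ∈ Jt D t := by
    rw [← qm_zero, map_sub, map_sum, ← hv]
    simp only [map_smul, sub_self]
  have h3 := h2 g
  rw [mul_sub, map_sub, sub_eq_zero, mul_comm g h] at h3
  rw [h3, Finset.mul_sum, map_sum]
  refine Finset.sum_eq_zero fun i _ => ?_
  rw [mul_smul_comm, map_smul, mul_comm g, hg, smul_zero]

lemma Phi_mul_comb (D : ℕ) (t : (Fin 3 →₀ ℕ) → k) (b : Fin n → (Fin 3 →₀ ℕ)) (v : Fin n → k)
    (i : Fin n) :
    Phi D t (monomial (b i) 1 * ∑ j, v j • monomial (b j) (1 : k)) = (Gm D t b).mulVec v i := by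
  rw [Finset.mul_sum, map_sum, Matrix.mulVec, dotProduct]
  refine Finset.sum_congr rfl fun j _ => ?_
  rw [mul_smul_comm, map_smul, monomial_mul_monomial, one_mul, smul_eq_mul, mul_comm]
  rfl

lemma li_of_det {D : ℕ} {t : (Fin 3 →₀ ℕ) → k} {b : Fin n → (Fin 3 →₀ ℕ)}
    (hdet : (Gm D t b).det ≠ 0) :
    LinearIndependent k (fun i => qm (Jt D t) (monomial (b i) (1 : k))) := by
  rw [Fintype.linearIndependent_iff]
  intro v hv
  have h1 : (∑ i, v i • monomial (b i) (1 : k)) ∈ Jt D t := by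
    rw [← qm_zero, map_sum]
    simpa only [map_smul] using hv
  have h2 : (Gm D t b).mulVec v = 0 := by
    funext i
    rw [← Phi_mul_comb]
    exact h1 _
  intro i
  have := Matrix.eq_zero_of_mulVec_eq_zero hdet h2
  rw [this]; rfl

theorem chartJ {m : ℕ} {t : (Fin 3 →₀ ℕ) → k} {b : Fin n → (Fin 3 →₀ ℕ)}
    (hdet : (Gm (2 * m) t b).det ≠ 0)
    (hle : Module.finrank k (MvPowerSeries (Fin 3) k ⧸ Jt (2 * m) t) ≤ n) :
    ∃ I : PHilb k n, I.1 = Jt (2 * m) t ∧ InChart b I ∧ IsCoord b I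
      (fun α i => ∑ j, Phi (2 * m) t (monomial (α + b j) 1) * (Gm (2 * m) t b)⁻¹ j i) := by
  have hfin := (finite_Jt m t).1
  have hli := li_of_det hdet
  have hge := hli.fintype_card_le_finrank
  rw [Fintype.card_fin] at hge
  have hrk : Module.finrank k (MvPowerSeries (Fin 3) k ⧸ Jt (2 * m) t) = n := le_antisymm hle hge
  have hspan : Submodule.span k
      (Set.range (fun i => qm (Jt (2 * m) t) (monomial (b i) (1 : k)))) = ⊤ :=
    hli.span_eq_top_of_card_eq_finrank' (by rw [Fintype.card_fin, hrk])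
  refine ⟨⟨Jt (2 * m) t, hfin, hrk⟩, rfl, hli, ?_⟩
  intro α
  apply nd hspan
  intro l
  rw [mul_sub, map_sub, Phi_mul_comb, sub_eq_zero, monomial_mul_monomial, one_mul,
    Matrix.mulVec, dotProduct]
  have h1 : ∑ i, Gm (2 * m) t b l i *
      (∑ j, Phi (2 * m) t (monomial (α + b j) 1) * (Gm (2 * m) t b)⁻¹ j i) =
      ∑ j, Phi (2 * m) t (monomial (α + b j) 1) * ((Gm (2 * m) t b)⁻¹ * Gm (2 * m) t b) j l := by
    simp only [Finset.mul_sum, Matrix.mul_apply]
    rw [Finset.sum_comm]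
    refine Finset.sum_congr rfl fun j _ => Finset.sum_congr rfl fun i _ => ?_
    rw [Gm_symm (2 * m) t b l i]; ring
  rw [h1, Matrix.nonsing_inv_mul _ (isUnit_iff_ne_zero.mpr hdet), Finset.sum_eq_single l]
  · rw [Matrix.one_apply_eq, mul_one, add_comm]
  · intro j _ hj
    rw [Matrix.one_apply_ne hj, mul_zero]
  · intro h; exact absurd (Finset.mem_univ _) h

theorem exists_chart (m : ℕ) (t : (Fin 3 →₀ ℕ) → k) :
    ∃ b : Fin (Module.finrank k (MvPowerSeries (Fin 3) k ⧸ Jt (2 * m) t)) → (Fin 3 →₀ ℕ),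
      (Gm (2 * m) t b).det ≠ 0 := by
  classical
  have hfin := (finite_Jt m t).1
  set J := Jt (2 * m) t with hJ
  have htop : Submodule.span k (Set.range (fun α : Fin 3 →₀ ℕ => qm J (monomial α (1 : k)))) =
      ⊤ := by
    rw [eq_top_iff]
    rintro y -
    obtain ⟨h, rfl⟩ := Ideal.Quotient.mk_surjective y
    have h1 : h - ∑ β ∈ AA (2 * m + 1), coeff β h • monomial β (1 : k) ∈ J :=
      tail_Jt (2 * m) t (trunc_tail (2 * m + 1) h)
    have h2 : qm J h = ∑ β ∈ AA (2 * m + 1), coeff β h • qm J (monomial β (1 : k)) := by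
      have h3 := qm_zero.mpr h1
      rw [map_sub, sub_eq_zero] at h3
      rw [h3, map_sum]
      simp only [map_smul]
    change qm J h ∈ _
    rw [h2]
    exact Submodule.sum_mem _ fun β _ => Submodule.smul_mem _ _ (Submodule.subset_span ⟨β, rfl⟩)
  obtain ⟨κ, a, ha, hs2, hs3⟩ := exists_linearIndependent' k
    (fun α : Fin 3 →₀ ℕ => qm J (monomial α (1 : k)))
  rw [htop] at hs2
  let B : Module.Basis κ k (MvPowerSeries (Fin 3) k ⧸ J) := Module.Basis.mk hs3 hs2.ge
  have : Finite κ := Module.Finite.finite_basis B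
  have : Fintype κ := Fintype.ofFinite κ
  have hcard : Fintype.card κ = Module.finrank k (MvPowerSeries (Fin 3) k ⧸ J) :=
    (Module.finrank_eq_card_basis B).symm
  let e : Fin (Module.finrank k (MvPowerSeries (Fin 3) k ⧸ J)) ≃ κ :=
    (Fintype.equivFinOfCardEq hcard).symm
  refine ⟨fun i => a (e i), ?_⟩
  intro hdet
  obtain ⟨v, hv0, hv⟩ := Matrix.exists_mulVec_eq_zero_iff.mpr hdet
  apply hv0
  have hspan : Submodule.span k
      (Set.range (fun i => qm J (monomial (a (e i)) (1 : k)))) = ⊤ := by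
    rw [← hs2]
    congr 1
    exact e.surjective.range_comp ((fun α : Fin 3 →₀ ℕ => qm J (monomial α (1 : k))) ∘ a)
  have h1 : (∑ j, v j • monomial (a (e j)) (1 : k)) ∈ J := by
    apply nd hspan
    intro i
    rw [Phi_mul_comb (2 * m) t (fun i => a (e i)) v i, hv]
    rfl
  have h2 : LinearIndependent k (fun i => qm J (monomial (a (e i)) (1 : k))) :=
    hs3.comp e e.injective
  rw [Fintype.linearIndependent_iff] at h2
  funext i
  apply h2
  rw [← qm_zero, map_sum] at h1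
  simpa only [map_smul] using h1

end Pool.Agent.W457.HC
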