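import Pool.Agent.W457.H15

namespace Pool.Agent.W457.HC

open MvPolynomial

section
variable {k : Type*} [Field k] {n : ℕ} (m : ℕ)

/-- extension by zero of a function on the exponents of degree at most 2m -/
noncomputable def ext0 {R : Type*} [Zero R] (t : AA (2 * m + 1) → R) (γ : Fin 3 →₀ ℕ) : R :=
  open Classical in if h : γ ∈ AA (2 * m + 1) then t ⟨γ, h⟩ else 0

/-- the generic coefficient -/
noncomputable def Tg (k : Type*) [Field k] (γ : Fin 3 →₀ ℕ) : MvPolynomial (AA (2 * m + 1)) k :=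
  ext0 m (fun γ => X γ) γ

lemma eval_Tg (t : AA (2 * m + 1) → k) (γ : Fin 3 →₀ ℕ) :
    eval t (Tg m k γ) = ext0 m t γ := by
  unfold Tg ext0
  split_ifs <;> simp

lemma Phi_ext0 (t : AA (2 * m + 1) → k) (γ : Fin 3 →₀ ℕ) :
    Phi (2 * m) (ext0 m t) (MvPowerSeries.monomial γ 1) = ext0 m t γ := by
  rw [Phi_monomial]
  split_ifs with h
  · rfl
  · unfold ext0
    rw [dif_neg]
    rw [mem_AA]; omega

variable (b : Fin n → (Fin 3 →₀ ℕ))

/-- generic Gram matrix -/
noncomputable def GT (k : Type*) [Field k] :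
    Matrix (Fin n) (Fin n) (MvPolynomial (AA (2 * m + 1)) k) :=
  Matrix.of fun i j => Tg m k (b i + b j)

lemma Gm_ext0 (t : AA (2 * m + 1) → k) :
    Gm (2 * m) (ext0 m t) b = (eval t).mapMatrix (GT m b k) := by
  ext i j
  simp only [Gm, Matrix.of_apply, RingHom.mapMatrix_apply, Matrix.map_apply, GT]
  rw [Phi_ext0, eval_Tg]

lemma eval_det (t : AA (2 * m + 1) → k) :
    eval t (GT m b k).det = (Gm (2 * m) (ext0 m t) b).det := by
  rw [RingHom.map_det, Gm_ext0]

/-- numerator of the generic coordinates -/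
noncomputable def NN (k : Type*) [Field k] (α : Fin 3 →₀ ℕ) (i : Fin n) :
    MvPolynomial (AA (2 * m + 1)) k :=
  ∑ j, Tg m k (α + b j) * (GT m b k).adjugate j i

lemma coord_eval (t : AA (2 * m + 1) → k) (α : Fin 3 →₀ ℕ) (i : Fin n) :
    (∑ j, Phi (2 * m) (ext0 m t) (MvPowerSeries.monomial (α + b j) 1) *
      (Gm (2 * m) (ext0 m t) b)⁻¹ j i) = eval t (NN m b k α i) / eval t (GT m b k).det := by
  rw [eval_det, NN, map_sum, div_eq_mul_inv, Finset.sum_mul]
  refine Finset.sum_congr rfl fun j _ => ?_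
  have h1 : (Gm (2 * m) (ext0 m t) b).adjugate = ((GT m b k).adjugate).map (eval t) := by
    rw [Gm_ext0]; exact (RingHom.map_adjugate (eval t) (GT m b k)).symm
  rw [map_mul, eval_Tg, Phi_ext0, Matrix.inv_def, Matrix.smul_apply, smul_eq_mul,
    Ring.inverse_eq_inv, h1, Matrix.map_apply]
  ring

/-- generic coordinates -/
noncomputable def cOm (k : Type*) [Field k] (α : Fin 3 →₀ ℕ) (i : Fin n) :
    FractionRing (MvPolynomial (AA (2 * m + 1)) k) :=
  algebraMap _ _ (NN m b k α i) / algebraMap _ _ (GT m b k).det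

lemma homog (hΔ : (GT m b k).det ≠ 0) (P : MvPolynomial ((Fin 3 →₀ ℕ) × Fin n) k) :
    ∃ (s : ℕ) (Q : MvPolynomial (AA (2 * m + 1)) k),
      algebraMap _ (FractionRing (MvPolynomial (AA (2 * m + 1)) k)) Q =
        (algebraMap _ (FractionRing (MvPolynomial (AA (2 * m + 1)) k)) (GT m b k).det) ^ s *
          aeval (fun p => cOm m b k p.1 p.2) P ∧
      ∀ t, eval t (GT m b k).det ≠ 0 → eval t Q = (eval t (GT m b k).det) ^ s *
        eval (fun p => eval t (NN m b k p.1 p.2) / eval t (GT m b k).det) P := by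
  have hΔ' : algebraMap _ (FractionRing (MvPolynomial (AA (2 * m + 1)) k)) (GT m b k).det ≠ 0 := by
    rwa [Ne, IsFractionRing.to_map_eq_zero_iff]
  induction P using MvPolynomial.induction_on with
  | C a =>
    refine ⟨0, C a, ?_, ?_⟩
    · simp only [pow_zero, one_mul, aeval_C]
      rw [IsScalarTower.algebraMap_apply k (MvPolynomial (AA (2 * m + 1)) k)
        (FractionRing (MvPolynomial (AA (2 * m + 1)) k))]
      rfl
    · intro t _; simp
  | add p q hp hq =>
    obtain ⟨s, Q, h1, h2⟩ := hp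
    obtain ⟨s', Q', h1', h2'⟩ := hq
    refine ⟨s + s', (GT m b k).det ^ s' * Q + (GT m b k).det ^ s * Q', ?_, ?_⟩
    · simp only [map_add, map_mul, map_pow]
      rw [h1, h1']; ring
    · intro t ht
      simp only [map_add, map_mul, map_pow]
      rw [h2 t ht, h2' t ht]; ring
  | mul_X p e hp =>
    obtain ⟨s, Q, h1, h2⟩ := hp
    refine ⟨s + 1, Q * NN m b k e.1 e.2, ?_, ?_⟩
    · rw [map_mul, map_mul, aeval_X, h1, cOm]
      field_simp
      ring
    · intro t ht
      rw [map_mul, map_mul, eval_X, h2 t ht]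
      field_simp
      ring

variable [Infinite k]

lemma zero_of_eval {Q Δ : MvPolynomial (AA (2 * m + 1)) k} (hΔ : Δ ≠ 0)
    (h : ∀ t, eval t Δ ≠ 0 → eval t Q = 0) : Q = 0 := by
  have : Q * Δ = 0 := by
    apply MvPolynomial.funext
    intro t
    rw [map_mul, map_zero]
    by_cases ht : eval t Δ = 0
    · rw [ht, mul_zero]
    · rw [h t ht, zero_mul]
  exact (mul_eq_zero.mp this).resolve_right hΔ

theorem specialise (hΔ : (GT m b k).det ≠ 0) (P : MvPolynomial ((Fin 3 →₀ ℕ) × Fin n) k) :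
    aeval (fun p => cOm m b k p.1 p.2) P = 0 ↔
      ∀ t, eval t (GT m b k).det ≠ 0 →
        eval (fun p => eval t (NN m b k p.1 p.2) / eval t (GT m b k).det) P = 0 := by
  have hΔ' : algebraMap _ (FractionRing (MvPolynomial (AA (2 * m + 1)) k)) (GT m b k).det ≠ 0 := by
    rwa [Ne, IsFractionRing.to_map_eq_zero_iff]
  obtain ⟨s, Q, h1, h2⟩ := homog m b hΔ P
  constructor
  · intro h t ht
    rw [h, mul_zero, IsFractionRing.to_map_eq_zero_iff] at h1
    have := h2 t ht
    rw [h1, map_zero] at this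
    exact (mul_eq_zero.mp this.symm).resolve_left (pow_ne_zero _ ht)
  · intro h
    have : Q = 0 := by
      apply zero_of_eval m hΔ
      intro t ht
      rw [h2 t ht, h t ht, mul_zero]
    rw [this, map_zero] at h1
    exact (mul_eq_zero.mp h1.symm).resolve_left (pow_ne_zero _ hΔ')

/-- the generic coefficients are combinations of the generic coordinates -/
theorem Tg_eq (hΔ : (GT m b k).det ≠ 0)
    (hmax : ∀ t : AA (2 * m + 1) → k,
      Module.finrank k (MvPowerSeries (Fin 3) k ⧸ Jt (2 * m) (ext0 m t)) ≤ n)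
    (α : Fin 3 →₀ ℕ) :
    algebraMap _ (FractionRing (MvPolynomial (AA (2 * m + 1)) k)) (Tg m k α) =
      ∑ i, cOm m b k α i *
        algebraMap _ (FractionRing (MvPolynomial (AA (2 * m + 1)) k)) (Tg m k (b i)) := by
  have hΔ' : algebraMap _ (FractionRing (MvPolynomial (AA (2 * m + 1)) k)) (GT m b k).det ≠ 0 := by
    rwa [Ne, IsFractionRing.to_map_eq_zero_iff]
  have key : (GT m b k).det * Tg m k α - ∑ i, NN m b k α i * Tg m k (b i) = 0 := by
    apply zero_of_eval m hΔ
    intro t ht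
    rw [eval_det] at ht
    obtain ⟨I, hI1, hI2, hI3⟩ := chartJ ht (hmax t)
    have h1 := hI3 α
    rw [hI1] at h1
    have h2 := h1 1
    rw [one_mul, map_sub, map_sum, sub_eq_zero, Phi_ext0] at h2
    rw [map_sub, map_mul, map_sum, eval_Tg, h2, Finset.mul_sum, sub_eq_zero]
    refine Finset.sum_congr rfl fun i _ => ?_
    rw [← eval_det] at ht
    rw [map_smul, Phi_ext0]
    dsimp only
    rw [coord_eval, map_mul, eval_Tg, smul_eq_mul]
    field_simp
  rw [sub_eq_zero] at key
  have h3 := congrArg (algebraMap _ (FractionRing (MvPolynomial (AA (2 * m + 1)) k))) key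
  rw [map_mul, map_sum] at h3
  simp only [cOm]
  rw [← mul_right_inj' hΔ', h3, Finset.mul_sum]
  refine Finset.sum_congr rfl fun i _ => ?_
  rw [map_mul]
  field_simp

end

end Pool.Agent.W457.HC
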