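import Pool.Agent.W457.H16

namespace Pool.Agent.W457.HC

open MvPolynomial

variable {k : Type*} [Field k] [Infinite k] {n : ℕ} (m : ℕ) (b : Fin n → (Fin 3 →₀ ℕ))

lemma alg_over_adjoin (hΔ : (GT m b k).det ≠ 0)
    (hmax : ∀ t : AA (2 * m + 1) → k,
      Module.finrank k (MvPowerSeries (Fin 3) k ⧸ Jt (2 * m) (ext0 m t)) ≤ n)
    (S : Set (FractionRing (MvPolynomial (AA (2 * m + 1)) k)))
    (hS1 : ∀ α i, cOm m b k α i ∈ S)
    (hS2 : ∀ i, algebraMap _ (FractionRing (MvPolynomial (AA (2 * m + 1)) k))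
      (Tg m k (b i)) ∈ S) :
    Algebra.IsAlgebraic (Algebra.adjoin k S)
      (FractionRing (MvPolynomial (AA (2 * m + 1)) k)) := by
  have hT : ∀ p : MvPolynomial (AA (2 * m + 1)) k,
      algebraMap _ (FractionRing (MvPolynomial (AA (2 * m + 1)) k)) p ∈ Algebra.adjoin k S := by
    intro p
    induction p using MvPolynomial.induction_on with
    | C a =>
      have : algebraMap _ (FractionRing (MvPolynomial (AA (2 * m + 1)) k))
          (C a : MvPolynomial (AA (2 * m + 1)) k) =
          algebraMap k _ a := by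
        rw [IsScalarTower.algebraMap_apply k (MvPolynomial (AA (2 * m + 1)) k)
          (FractionRing (MvPolynomial (AA (2 * m + 1)) k))]
        rfl
      rw [this]
      exact Subalgebra.algebraMap_mem _ _
    | add p q hp hq => rw [map_add]; exact add_mem hp hq
    | mul_X p γ hp =>
      rw [map_mul]
      refine mul_mem hp ?_
      have hX : (X γ : MvPolynomial (AA (2 * m + 1)) k) = Tg m k γ := by
        unfold Tg ext0
        rw [dif_pos γ.2]
      rw [hX, Tg_eq m b hΔ hmax]
      refine sum_mem fun i _ => mul_mem (Algebra.subset_adjoin (hS1 _ _))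
        (Algebra.subset_adjoin (hS2 i))
  constructor
  intro x
  obtain ⟨p, q, hq, rfl⟩ := IsFractionRing.div_surjective (A := MvPolynomial (AA (2 * m + 1)) k) x
  have hq0 : algebraMap _ (FractionRing (MvPolynomial (AA (2 * m + 1)) k)) q ≠ 0 :=
    IsFractionRing.to_map_ne_zero_of_mem_nonZeroDivisors hq
  refine ⟨Polynomial.C ⟨_, hT q⟩ * Polynomial.X - Polynomial.C ⟨_, hT p⟩, ?_, ?_⟩
  · intro h
    have h1 := congrArg (fun P => Polynomial.coeff P 1) h
    simp only [Polynomial.coeff_sub, Polynomial.coeff_C_mul, Polynomial.coeff_X_one, mul_one,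
      Polynomial.coeff_C_succ, sub_zero, Polynomial.coeff_zero] at h1
    exact hq0 (congrArg Subtype.val h1)
  · simp only [map_sub, map_mul, Polynomial.aeval_C, Polynomial.aeval_X]
    change algebraMap _ (FractionRing (MvPolynomial (AA (2 * m + 1)) k)) q * _ -
      algebraMap _ (FractionRing (MvPolynomial (AA (2 * m + 1)) k)) p = 0
    field_simp
    ring

theorem exists_indep (hΔ : (GT m b k).det ≠ 0)
    (hmax : ∀ t : AA (2 * m + 1) → k,
      Module.finrank k (MvPowerSeries (Fin 3) k ⧸ Jt (2 * m) (ext0 m t)) ≤ n) :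
    ∃ (ι : Type) (_ : Fintype ι) (v : ι → (Fin 3 →₀ ℕ) × Fin n),
      AlgebraicIndependent k (fun i => cOm m b k (v i).1 (v i).2) ∧
      (AA (2 * m + 1)).card ≤ Fintype.card ι + n := by
  classical
  set Ω := FractionRing (MvPolynomial (AA (2 * m + 1)) k) with hΩ
  set C1 : Set Ω := Set.range (fun p : (Fin 3 →₀ ℕ) × Fin n => cOm m b k p.1 p.2) with hC1
  set TB : Set Ω := Set.range (fun i : Fin n => algebraMap _ Ω (Tg m k (b i))) with hTB
  have halg : Algebra.IsAlgebraic (Algebra.adjoin k (C1 ∪ TB)) Ω :=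
    alg_over_adjoin m b hΔ hmax _ (fun α i => Or.inl ⟨(α, i), rfl⟩) (fun i => Or.inr ⟨i, rfl⟩)
  obtain ⟨u, hu, htb⟩ := exists_isTranscendenceBasis_subset (R := k) (C1 ∪ TB)
  have hX : AlgebraicIndependent k (fun γ : AA (2 * m + 1) => algebraMap _ Ω
      (X γ : MvPolynomial (AA (2 * m + 1)) k)) := by
    have h1 := MvPolynomial.algebraicIndependent_X (AA (2 * m + 1)) k
    exact h1.map' (f := IsScalarTower.toAlgHom k (MvPolynomial (AA (2 * m + 1)) k) Ω)
      (IsFractionRing.injective _ _)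
  have hemb : Nonempty (AA (2 * m + 1) ↪ u) := by
    rw [← Cardinal.lift_mk_le']
    have h1 := hX.lift_cardinalMk_le_trdeg
    have h2 := htb.lift_cardinalMk_eq_trdeg
    rw [Cardinal.lift_id, Cardinal.lift_id] at h2
    rw [h2]
    exact h1
  obtain ⟨f⟩ := hemb
  let ι := {x : AA (2 * m + 1) // (f x : Ω) ∈ C1}
  have hcompl : Fintype.card {x : AA (2 * m + 1) // ¬ (f x : Ω) ∈ C1} ≤ n := by
    have hch : ∀ x : {x : AA (2 * m + 1) // ¬ (f x : Ω) ∈ C1},
        ∃ i : Fin n, algebraMap _ Ω (Tg m k (b i)) = (f x : Ω) := by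
      intro x
      rcases hu (f x.1).2 with h | h
      · exact absurd h x.2
      · exact h
    choose g hg using hch
    have hginj : Function.Injective g := by
      intro x y hxy
      have h1 : (f x.1 : Ω) = (f y.1 : Ω) := by rw [← hg x, ← hg y, hxy]
      exact Subtype.ext (f.injective (Subtype.ext h1))
    have := Fintype.card_le_of_injective g hginj
    rwa [Fintype.card_fin] at this
  have hch : ∀ x : ι, ∃ p : (Fin 3 →₀ ℕ) × Fin n, cOm m b k p.1 p.2 = (f x.1 : Ω) := fun x => x.2
  choose v hv using hch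
  refine ⟨ι, inferInstance, v, ?_, ?_⟩
  · have h1 : (fun i : ι => cOm m b k (v i).1 (v i).2) =
        (fun x : u => (x : Ω)) ∘ (fun i : ι => f i.1) := by
      funext i; exact hv i
    rw [h1]
    exact htb.1.comp _ (f.injective.comp Subtype.val_injective)
  · have h1 := Fintype.card_subtype_compl (fun x : AA (2 * m + 1) => (f x : Ω) ∈ C1)
    have h2 := Fintype.card_subtype_le (fun x : AA (2 * m + 1) => (f x : Ω) ∈ C1)
    rw [Fintype.card_coe] at h1 h2
    change _ ≤ Fintype.card {x : AA (2 * m + 1) // (f x : Ω) ∈ C1} + n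
    omega

end Pool.Agent.W457.HC
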