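import Pool.Agent.W457.H11
import Pool.Agent.W457.H17

namespace Pool.Agent.W457.HC

open MvPolynomial

section
variable {k : Type*} [Field k] {n : ℕ} (m : ℕ) (b : Fin n → (Fin 3 →₀ ℕ))

/-- truncation of a family of power series, as a polynomial over K -/
noncomputable def trK {Λ K : Type*} [Field K] (φ : (Λ → k) →+* K) (N : ℕ)
    (F : Λ → MvPowerSeries (Fin 3) k) : MvPolynomial (Fin 3) K :=
  ∑ β ∈ AA N, monomial β (φ (fun x => MvPowerSeries.coeff β (F x)))

lemma coeff_trK {Λ K : Type*} [Field K] (φ : (Λ → k) →+* K) {N : ℕ}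
    (F : Λ → MvPowerSeries (Fin 3) k) {γ : Fin 3 →₀ ℕ} (hγ : γ.degree < N) :
    coeff γ (trK φ N F) = φ (fun x => MvPowerSeries.coeff γ (F x)) := by
  classical
  rw [trK, coeff_sum, Finset.sum_eq_single γ]
  · rw [coeff_monomial, if_pos rfl]
  · intro β _ hβ
    rw [coeff_monomial, if_neg hβ]
  · intro h; exact absurd (mem_AA.mpr hγ) h

lemma ev_trK {Λ K : Type*} [Field K] (φ : (Λ → k) →+* K) (N : ℕ)
    (F : Λ → MvPowerSeries (Fin 3) k) (c : (Fin 3 →₀ ℕ) → Fin n → K) :
    ev c (trK φ N F) = ∑ β ∈ AA N, φ (fun x => MvPowerSeries.coeff β (F x)) • c β := by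
  rw [trK, map_sum]
  refine Finset.sum_congr rfl fun β _ => ?_
  have : (monomial β (φ (fun x => MvPowerSeries.coeff β (F x))) : MvPolynomial (Fin 3) K) =
      φ (fun x => MvPowerSeries.coeff β (F x)) • monomial β 1 := by
    rw [smul_monomial, smul_eq_mul, mul_one]
  rw [this, map_smul, ev_monomial]

lemma coeff_trK_mul {Λ K : Type*} [Field K] (φ : (Λ → k) →+* K) {N : ℕ}
    (F G : Λ → MvPowerSeries (Fin 3) k) {γ : Fin 3 →₀ ℕ} (hγ : γ.degree < N) :
    coeff γ (trK φ N F * trK φ N G) = φ (fun x => MvPowerSeries.coeff γ (F x * G x)) := by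
  classical
  rw [coeff_mul]
  have e : (fun x => MvPowerSeries.coeff γ (F x * G x)) =
      ∑ p ∈ Finset.HasAntidiagonal.antidiagonal γ, (fun x => MvPowerSeries.coeff p.1 (F x)) *
        (fun x => MvPowerSeries.coeff p.2 (G x)) := by
    funext x
    rw [MvPowerSeries.coeff_mul, Finset.sum_apply]
    rfl
  rw [e, map_sum]
  refine Finset.sum_congr rfl fun p hp => ?_
  rw [Finset.HasAntidiagonal.mem_antidiagonal] at hp
  have h1 : p.1.degree + p.2.degree = γ.degree := by rw [← hp, map_add]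
  rw [coeff_trK φ F (by omega), coeff_trK φ G (by omega), map_mul]

lemma exists_field.{u} {k : Type u} [Field k] {Λ : Type u} (S : Submonoid (Λ → k))
    (h0 : (0 : Λ → k) ∉ S) :
    ∃ (K : Type u) (_ : Field K) (_ : Algebra k K) (φ : (Λ → k) →ₐ[k] K), ∀ w ∈ S, φ w ≠ 0 := by
  have h0S : Disjoint ((⊥ : Ideal (Λ → k)) : Set (Λ → k)) (S : Set (Λ → k)) := by
    rw [Set.disjoint_left]
    intro w hw hwS
    have hw' : w = 0 := hw
    rw [hw'] at hwS
    exact h0 hwS
  obtain ⟨𝔓, hprime, -, hdisj⟩ := Ideal.exists_le_prime_disjoint _ S h0S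
  refine ⟨FractionRing ((Λ → k) ⧸ 𝔓), inferInstance, inferInstance,
    (IsScalarTower.toAlgHom k ((Λ → k) ⧸ 𝔓) (FractionRing ((Λ → k) ⧸ 𝔓))).comp
      (Ideal.Quotient.mkₐ k 𝔓), ?_⟩
  intro w hwS hw
  have h1 : algebraMap ((Λ → k) ⧸ 𝔓) (FractionRing ((Λ → k) ⧸ 𝔓)) (Ideal.Quotient.mk 𝔓 w) = 0 := hw
  rw [IsFractionRing.to_map_eq_zero_iff] at h1
  exact (Set.disjoint_left.mp hdisj) (Ideal.Quotient.eq_zero_iff_mem.mp h1) hwS

theorem core [Infinite k] [PerfectField k]
    (hmax : ∀ t : AA (2 * m + 1) → k,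
      Module.finrank k (MvPowerSeries (Fin 3) k ⧸ Jt (2 * m) (ext0 m t)) ≤ n)
    (t0 : AA (2 * m + 1) → k) (ht0 : eval t0 (GT m b k).det ≠ 0)
    (hcl : ∀ P : MvPolynomial ((Fin 3 →₀ ℕ) × Fin n) k,
      (∀ J : PHilb k n, InChart b J → IsCI J.1 → ∀ c, IsCoord b J c →
        eval (fun p => c p.1 p.2) P = 0) →
      aeval (fun p => cOm m b k p.1 p.2) P = 0) :
    ∃ r a t ρ : ℕ, (AA (2 * m + 1)).card ≤ r + n ∧ a ≤ 3 * t ∧ r + 3 * t ^ 3 ≤ 3 * n ∧
      r + ρ ≤ 3 * n ∧ n ≤ a * ρ := by
  classical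
  have hΔ : (GT m b k).det ≠ 0 := by
    intro h; rw [h, map_zero] at ht0; exact ht0 rfl
  let Λ := {J : PHilb k n // InChart b J ∧ IsCI J.1}
  choose c hc using fun x : Λ => exists_isCoord x.2.1
  let cW : (Fin 3 →₀ ℕ) → Fin n → (Λ → k) := fun α l x => c x α l
  have hW : ChartData b cW := by
    refine ⟨?_, ?_, ?_⟩
    · intro i l
      funext x
      have := (chartData x.2.1 (hc x)).hb i l
      change c x (b i) l = _
      rw [this]
      split_ifs <;> rfl
    · intro α j l
      funext x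
      have := (chartData x.2.1 (hc x)).hmul α j l
      rw [Finset.sum_apply]
      exact this
    · intro α hα l
      funext x
      exact (chartData x.2.1 (hc x)).hdeg α hα l
  have hevalW : ∀ (P : MvPolynomial ((Fin 3 →₀ ℕ) × Fin n) k) (x : Λ),
      (aeval (fun p : (Fin 3 →₀ ℕ) × Fin n => cW p.1 p.2) P) x =
        eval (fun p => c x p.1 p.2) P := by
    intro P x
    have h1 : (Pi.evalAlgHom k (fun _ : Λ => k) x).comp
        (aeval (fun p : (Fin 3 →₀ ℕ) × Fin n => cW p.1 p.2)) =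
        aeval (fun p => c x p.1 p.2) := by
      apply MvPolynomial.algHom_ext
      intro i
      simp [cW]
    have h2 := AlgHom.congr_fun h1 P
    rw [AlgHom.comp_apply] at h2
    rw [← MvPolynomial.coe_aeval_eq_eval]
    exact h2
  let S : Submonoid (Λ → k) :=
    { carrier := {w | ∃ P : MvPolynomial ((Fin 3 →₀ ℕ) × Fin n) k,
        aeval (fun p => cOm m b k p.1 p.2) P ≠ 0 ∧
          w = aeval (fun p : (Fin 3 →₀ ℕ) × Fin n => cW p.1 p.2) P}
      mul_mem' := by
        rintro _ _ ⟨P, hP, rfl⟩ ⟨Q, hQ, rfl⟩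
        exact ⟨P * Q, by rw [map_mul]; exact mul_ne_zero hP hQ, by rw [map_mul]⟩
      one_mem' := ⟨1, by rw [map_one]; exact one_ne_zero, by rw [map_one]⟩ }
  have h0S : (0 : Λ → k) ∉ S := by
    rintro ⟨P, hP, hP0⟩
    apply hP
    apply hcl
    intro J hJ1 hJ2 c' hc'
    have h1 : c' = c ⟨J, hJ1, hJ2⟩ := isCoord_unique hJ1 hc' (hc ⟨J, hJ1, hJ2⟩)
    rw [h1, ← hevalW, ← hP0]
    rfl
  obtain ⟨K, instK, instA, φ, hφ⟩ := exists_field S h0S
  let cK : (Fin 3 →₀ ℕ) → Fin n → K := fun α l => φ (cW α l)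
  have hK : ChartData b cK := hW.map (φ : (Λ → k) →+* K)
  have hevalK : ∀ P : MvPolynomial ((Fin 3 →₀ ℕ) × Fin n) k,
      aeval (fun p : (Fin 3 →₀ ℕ) × Fin n => cK p.1 p.2) P =
        φ (aeval (fun p : (Fin 3 →₀ ℕ) × Fin n => cW p.1 p.2) P) := by
    intro P
    have h1 : φ.comp (aeval (fun p : (Fin 3 →₀ ℕ) × Fin n => cW p.1 p.2)) =
        aeval (fun p : (Fin 3 →₀ ℕ) × Fin n => cK p.1 p.2) := by
      apply MvPolynomial.algHom_ext
      intro i
      simp [cK]
    exact (AlgHom.congr_fun h1 P).symm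
  have key : ∀ P : MvPolynomial ((Fin 3 →₀ ℕ) × Fin n) k,
      aeval (fun p : (Fin 3 →₀ ℕ) × Fin n => cK p.1 p.2) P = 0 →
      aeval (fun p => cOm m b k p.1 p.2) P = 0 := by
    intro P hP
    by_contra hne
    rw [hevalK] at hP
    exact hφ _ ⟨P, hne, rfl⟩ hP
  -- generators
  have hgenF : ∀ x : Λ, ∃ F : Fin 3 → MvPowerSeries (Fin 3) k,
      x.1.1 = Ideal.span (Set.range F) := by
    intro x
    obtain ⟨f, g, h, hx⟩ := x.2.2
    refine ⟨![f, g, h], ?_⟩
    rw [hx]
    congr 1
    ext y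
    simp [Fin.exists_fin_succ, or_comm, or_left_comm, eq_comm]
  choose F hF using hgenF
  have hFmem : ∀ (x : Λ) (i : Fin 3), F x i ∈ x.1.1 := by
    intro x i
    rw [hF x]; exact Ideal.subset_span ⟨i, rfl⟩
  have hU : ∀ (x : Λ) (α : Fin 3 →₀ ℕ), ∃ U : Fin 3 → MvPowerSeries (Fin 3) k,
      ∑ i, U i * F x i = MvPowerSeries.monomial α (1 : k) -
        ∑ i, c x α i • MvPowerSeries.monomial (b i) (1 : k) := by
    intro x α
    have h1 := hc x α
    rw [hF x, Ideal.mem_span_range_iff_exists_fun] at h1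
    exact h1
  choose U hU using hU
  obtain ⟨ι, hι, v, hv, hcard⟩ := exists_indep m b hΔ hmax
  -- the determinant polynomial
  let P0 : MvPolynomial ((Fin 3 →₀ ℕ) × Fin n) k :=
    (Matrix.of fun i j : Fin n => ∑ l, X (b i + b j, l) * C (ext0 m t0 (b l))).det
  have hP0 : aeval (fun p => cOm m b k p.1 p.2) P0 ≠ 0 := by
    intro h0
    rw [specialise m b hΔ] at h0
    have h1 := h0 t0 ht0
    obtain ⟨d, hd⟩ : ∃ d, d = eval t0 (GT m b k).det := ⟨_, rfl⟩
    rw [← hd] at h1
    apply ht0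
    rw [← h1, RingHom.map_det, RingHom.map_det]
    congr 1
    ext i j
    simp only [RingHom.mapMatrix_apply, Matrix.map_apply, Matrix.of_apply, map_sum, map_mul,
      eval_X, eval_C]
    change eval t0 (Tg m k (b i + b j)) = _
    have ht0' := ht0
    rw [eval_det] at ht0'
    obtain ⟨I, hI1, hI2, hI3⟩ := chartJ ht0' (hmax t0)
    have h3 := hI3 (b i + b j)
    rw [hI1] at h3
    have h4 := h3 1
    rw [one_mul, map_sub, map_sum, sub_eq_zero, Phi_ext0] at h4
    rw [eval_Tg, h4]
    refine Finset.sum_congr rfl fun l _ => ?_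
    rw [map_smul, Phi_ext0]
    dsimp only
    rw [coord_eval, smul_eq_mul, hd]
  obtain ⟨r, a, t, ρ, h1, h2, h3, h4, h5⟩ := boundD (k := k) (K := K) hK
    (fun i => trK (φ : (Λ → k) →+* K) (n + 1) (fun x => F x i))
    (by
      intro i
      rw [mem_Ic, ev_trK]
      funext l
      have h1 : ∑ β ∈ AA (n + 1), (fun x => MvPowerSeries.coeff β (F x i)) * cW β l =
          (0 : Λ → k) := by
        funext x
        rw [Finset.sum_apply]
        exact sum_coord_zero x.2.1 (hc x) (Nat.le_succ n) (hFmem x i) l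
      rw [Finset.sum_apply]
      have h2 := congrArg φ h1
      rw [map_sum, map_zero] at h2
      rw [Pi.zero_apply, ← h2]
      refine Finset.sum_congr rfl fun β _ => ?_
      rw [map_mul]; rfl)
    (by
      intro α
      refine ⟨fun i => trK (φ : (Λ → k) →+* K) (n + 1) (fun x => U x α i), ?_⟩
      rw [mem_pow_idealOfVars_iff']
      intro γ hγ
      rw [coeff_sub, coeff_sum, sub_eq_zero]
      simp only [coeff_trK_mul (φ : (Λ → k) →+* K) _ _ hγ]
      have e1 : coeff γ (gg b cK α) = φ (fun x => MvPowerSeries.coeff γ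
          (MvPowerSeries.monomial α (1 : k) -
            ∑ i, c x α i • MvPowerSeries.monomial (b i) (1 : k))) := by
        have e2 : (fun x : Λ => MvPowerSeries.coeff γ (MvPowerSeries.monomial α (1 : k) -
            ∑ i, c x α i • MvPowerSeries.monomial (b i) (1 : k))) =
            (if γ = α then 1 else 0 : Λ → k) -
              ∑ i, cW α i * (if γ = b i then 1 else 0 : Λ → k) := by
          funext x
          rw [map_sub, map_sum, Pi.sub_apply, Finset.sum_apply, MvPowerSeries.coeff_monomial]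
          congr 1
          · split_ifs <;> rfl
          · refine Finset.sum_congr rfl fun i _ => ?_
            rw [map_smul, MvPowerSeries.coeff_monomial, smul_eq_mul, Pi.mul_apply]
            congr 1
            split_ifs <;> rfl
        rw [e2, gg, coeff_sub, coeff_sum, coeff_monomial, map_sub, map_sum]
        congr 1
        · by_cases h : γ = α
          · rw [if_pos h.symm, if_pos h, map_one]
          · rw [if_neg (Ne.symm h), if_neg h, map_zero]
        · refine Finset.sum_congr rfl fun i _ => ?_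
          rw [coeff_C_mul, coeff_monomial, map_mul]
          congr 1
          by_cases h : γ = b i
          · rw [if_pos h.symm, if_pos h, map_one]
          · rw [if_neg (Ne.symm h), if_neg h, map_zero]
      rw [e1]
      have e3 : (fun x : Λ => MvPowerSeries.coeff γ (MvPowerSeries.monomial α (1 : k) -
            ∑ i, c x α i • MvPowerSeries.monomial (b i) (1 : k))) =
          ∑ i, (fun x : Λ => MvPowerSeries.coeff γ (U x α i * F x i)) := by
        funext x
        rw [← hU x α, map_sum, Finset.sum_apply]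
      rw [e3, map_sum]
      rfl)
    (fun l => ext0 m t0 (b l))
    (by
      intro h0
      apply hP0
      apply key
      rw [← h0]
      simp only [P0]
      rw [AlgHom.map_det]
      congr 1
      ext i j
      simp only [AlgHom.mapMatrix_apply, Matrix.map_apply, Matrix.of_apply, map_sum, map_mul,
        aeval_X, aeval_C])
    v
    (by
      rw [algebraicIndependent_iff]
      intro P hP
      rw [algebraicIndependent_iff] at hv
      apply hv
      have h1 : aeval (fun p : (Fin 3 →₀ ℕ) × Fin n => cK p.1 p.2) (rename v P) = 0 := by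
        rw [aeval_rename]; exact hP
      have h2 := key _ h1
      rw [aeval_rename] at h2
      exact h2)
  exact ⟨r, a, t, ρ, by omega, h2, h3, h4, h5⟩

end

end Pool.Agent.W457.HC
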