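import Pool.Agent.W457.H18

namespace Pool.Agent.W457.HC

/-- explicit index set for the exponents of degree less than N -/
def SS (N : ℕ) : Finset ((_ : ℕ) × (_ : ℕ) × ℕ) :=
  (Finset.range N).sigma fun a => (Finset.range (N - a)).sigma fun b => Finset.range (N - a - b)

lemma card_AA_eq (N : ℕ) : (AA N).card = (SS N).card := by
  classical
  refine Finset.card_bij' (fun α _ => ⟨α 0, α 1, α 2⟩)
    (fun e _ => ex3 (e.1, e.2.1, e.2.2)) ?_ ?_ ?_ ?_
  · intro α hα
    rw [mem_AA, degree_three] at hα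
    simp only [SS, Finset.mem_sigma, Finset.mem_range]
    omega
  · intro e he
    simp only [SS, Finset.mem_sigma, Finset.mem_range] at he
    rw [mem_AA, degree_ex3]
    simp only
    omega
  · intro α _
    ext i
    fin_cases i <;> rfl
  · intro e _
    rfl

lemma sum_inner (M : ℕ) : 2 * ∑ b ∈ Finset.range M, (M - b) = M * (M + 1) := by
  induction M with
  | zero => simp
  | succ M ih =>
    rw [Finset.sum_range_succ']
    simp only [Nat.add_sub_add_right, Nat.sub_zero]
    rw [mul_add, ih]; ring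

lemma card_SS (N : ℕ) : 6 * (SS N).card = N * (N + 1) * (N + 2) := by
  have h1 : ∀ N, 6 * (SS N).card = 3 * ∑ a ∈ Finset.range N, ((N - a) * (N - a + 1)) := by
    intro N
    rw [SS, Finset.card_sigma]
    simp only [Finset.card_sigma, Finset.card_range]
    rw [Finset.mul_sum, Finset.mul_sum]
    refine Finset.sum_congr rfl fun a _ => ?_
    have := sum_inner (N - a)
    omega
  have h2 : ∀ N, 3 * ∑ a ∈ Finset.range N, ((N - a) * (N - a + 1)) = N * (N + 1) * (N + 2) := by
    intro N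
    induction N with
    | zero => simp
    | succ N ih =>
      rw [Finset.sum_range_succ']
      simp only [Nat.add_sub_add_right, Nat.sub_zero]
      rw [mul_add, ih]; ring
  rw [h1, h2]

lemma card_AA (N : ℕ) : 6 * (AA N).card = N * (N + 1) * (N + 2) := by
  rw [card_AA_eq, card_SS]

/-- the numerical contradiction -/
lemma numeric (A B C n r a t ρ : ℕ) (e1 : 6 * A = 8001 * 8002 * 8003)
    (e2 : 6 * B = 4000 * 4001 * 4002) (e3 : 6 * C = 4001 * 4002 * 4003)
    (hn : n ≤ B + C) (h1 : A ≤ r + n) (h2 : a ≤ 3 * t) (h3 : r + 3 * t ^ 3 ≤ 3 * n)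
    (h4 : r + ρ ≤ 3 * n) (h5 : n ≤ a * ρ) : False := by
  norm_num at e1 e2 e3
  have ht : t ≤ 220 := by
    by_contra hlt
    push Not at hlt
    have := Nat.pow_le_pow_left (show 221 ≤ t by omega) 3
    norm_num at this
    omega
  have ha : a ≤ 660 := by omega
  have h6 : n ≤ 660 * ρ := h5.trans (Nat.mul_le_mul_right ρ ha)
  omega

lemma jt_ne_top_of_pos {k : Type*} [Field k] (m : ℕ) (t : (Fin 3 →₀ ℕ) → k) (h : t 0 ≠ 0) :
    Jt (2 * m) t ≠ ⊤ := by
  intro htop
  have h1 : (1 : MvPowerSeries (Fin 3) k) ∈ Jt (2 * m) t := by rw [htop]; trivial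
  have h2 := h1 1
  rw [mul_one] at h2
  have h3 := Phi_monomial (2 * m) t 0
  rw [MvPowerSeries.monomial_zero_one, h2] at h3
  rw [if_pos (by simp)] at h3
  exact h h3.symm

theorem main.{u} (k : Type u) [Field k] [Infinite k] [PerfectField k] :
    ∃ (n : ℕ) (I : PHilb k n), IsGorenstein I.1 ∧ I ∉ closure {J : PHilb k n | IsCI J.1} := by
  classical
  by_contra hcon
  push Not at hcon
  -- choose t0 with maximal colength
  obtain ⟨m, hm⟩ : ∃ m : ℕ, m = 4000 := ⟨_, rfl⟩
  have hbound : ∀ t : AA (2 * m + 1) → k,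
      Module.finrank k (MvPowerSeries (Fin 3) k ⧸ Jt (2 * m) (ext0 m t)) ≤
        (AA m).card + (AA (m + 1)).card := fun t => (finite_Jt m _).2
  let Q : ℕ → Prop := fun d => ∃ t : AA (2 * m + 1) → k,
    Module.finrank k (MvPowerSeries (Fin 3) k ⧸ Jt (2 * m) (ext0 m t)) = d
  have hQ0 : ∃ d, Q d := ⟨_, 0, rfl⟩
  obtain ⟨d0, hd0⟩ := hQ0
  have hQb : ∀ d, Q d → d ≤ (AA m).card + (AA (m + 1)).card := by
    rintro d ⟨t, rfl⟩; exact hbound t
  let n := Nat.findGreatest Q ((AA m).card + (AA (m + 1)).card)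
  have hnQ : Q n := Nat.findGreatest_spec (hQb d0 hd0) hd0
  obtain ⟨t0, ht0⟩ := hnQ
  have hmax : ∀ t : AA (2 * m + 1) → k,
      Module.finrank k (MvPowerSeries (Fin 3) k ⧸ Jt (2 * m) (ext0 m t)) ≤ n :=
    fun t => Nat.le_findGreatest (hbound t) ⟨t, rfl⟩
  have hn : n ≤ (AA m).card + (AA (m + 1)).card := Nat.findGreatest_le _
  have hn0 : n ≠ 0 := by
    intro h0
    have h1 := hmax (fun _ => 1)
    rw [h0, Nat.le_zero] at h1
    have h2 : Jt (2 * m) (ext0 m (fun _ => (1 : k))) ≠ ⊤ := by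
      apply jt_ne_top_of_pos
      unfold ext0
      rw [dif_pos (by rw [mem_AA]; simp)]
      exact one_ne_zero
    haveI := (finite_Jt m (ext0 m (fun _ => (1 : k)))).1
    haveI : Nontrivial (MvPowerSeries (Fin 3) k ⧸ Jt (2 * m) (ext0 m (fun _ => (1 : k)))) :=
      Ideal.Quotient.nontrivial_iff.mpr h2
    have h3 := Module.finrank_pos (R := k)
      (M := MvPowerSeries (Fin 3) k ⧸ Jt (2 * m) (ext0 m (fun _ => (1 : k))))
    omega
  obtain ⟨b, hb⟩ : ∃ b : Fin n → (Fin 3 →₀ ℕ), (Gm (2 * m) (ext0 m t0) b).det ≠ 0 := by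
    rw [← ht0]; exact exists_chart m _
  rw [← eval_det] at hb
  obtain ⟨r, a, t, ρ, h1, h2, h3, h4, h5⟩ := core m b hmax t0 hb (by
    intro P hP
    rw [specialise m b (fun h => hb (by rw [h, map_zero]))]
    intro t ht
    have ht' := ht
    rw [eval_det] at ht'
    obtain ⟨I, hI1, hI2, hI3⟩ := chartJ ht' (hmax t)
    by_contra hne
    -- the ideal is Gorenstein
    have hG : IsGorenstein I.1 := by
      have hIn := I.2.2
      rw [hI1] at hIn ⊢
      apply socle_Jt
      intro htop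
      apply hn0
      rw [← hIn, htop]
      haveI : Subsingleton (MvPowerSeries (Fin 3) k ⧸ (⊤ : Ideal (MvPowerSeries (Fin 3) k))) :=
        Ideal.Quotient.subsingleton_iff.mpr rfl
      exact Module.finrank_zero_of_subsingleton
    have hcl := hcon n I hG
    rw [mem_closure_iff] at hcl
    obtain ⟨J, hJ1, hJ2⟩ := hcl (principalOpen b P)
      (TopologicalSpace.isOpen_generateFrom_of_mem ⟨b, P, rfl⟩)
      ⟨hI2, by
        intro c hc
        have h1 : c = _ := isCoord_unique hI2 hc hI3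
        rw [h1]
        simp only [coord_eval]
        exact hne⟩
    obtain ⟨c, hc⟩ := exists_isCoord hJ1.1
    exact hJ1.2 c hc (hP J hJ1.1 hJ2 c hc))
  clear_value n
  subst hm
  exact numeric _ _ _ n r a t ρ (by rw [card_AA]) (by rw [card_AA]) (by rw [card_AA])
    hn h1 h2 h3 h4 h5

end Pool.Agent.W457.HC
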