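import Pool.Agent.W457.H1

namespace Pool.Agent.W457.HC

open MvPolynomial

variable {k L : Type*} [Field k] [Field L] [Algebra k L]

lemma cD_mem_pow {σ : Type*} (D : Derivation k L L) {s : ℕ} {p : MvPolynomial σ L}
    (hp : p ∈ idealOfVars σ L ^ s) : cD D p ∈ idealOfVars σ L ^ s := by
  rw [mem_pow_idealOfVars_iff'] at hp ⊢
  intro x hx
  rw [coeff_cD, hp x hx, map_zero]

/-- derivations that map three generators into the ideal preserve it -/
lemma preserves_of_gen {σ : Type*} (I : Ideal (MvPolynomial σ L)) {N : ℕ}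
    (hN : idealOfVars σ L ^ N ≤ I)
    (f : Fin 3 → MvPolynomial σ L) (hf : ∀ i, f i ∈ I)
    (hgen : I ≤ Ideal.span (Set.range f) ⊔ idealOfVars σ L * I)
    (D : Derivation k L L) (hD : ∀ i, cD D (f i) ∈ I) : ∀ g ∈ I, cD D g ∈ I := by
  have key : ∀ s : ℕ, ∀ g ∈ I, cD D g ∈ I ⊔ idealOfVars σ L ^ s := by
    intro s
    induction s with
    | zero => intro g _; rw [pow_zero]; simp
    | succ s ih =>
      intro g hg
      obtain ⟨u, hu, v, hv, rfl⟩ := Submodule.mem_sup.mp (hgen hg)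
      rw [cD_add]
      refine add_mem ?_ ?_
      · refine Ideal.mem_sup_left ?_
        refine Submodule.span_induction (p := fun x _ => x ∈ I ∧ cD D x ∈ I) ?_ ?_ ?_ ?_ hu |>.2
        · rintro x ⟨i, rfl⟩
          exact ⟨hf i, hD i⟩
        · exact ⟨zero_mem _, by rw [cD_zero]; exact zero_mem _⟩
        · intro x y _ _ hx hy
          exact ⟨add_mem hx.1 hy.1, by rw [cD_add]; exact add_mem hx.2 hy.2⟩
        · intro a x _ hx
          refine ⟨Ideal.mul_mem_left _ _ hx.1, ?_⟩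
          rw [smul_eq_mul, cD_mul]
          exact add_mem (Ideal.mul_mem_left _ _ hx.1) (Ideal.mul_mem_left _ _ hx.2)
      · refine Submodule.mul_induction_on hv ?_ ?_
        · intro a ha b hb
          rw [cD_mul]
          refine add_mem (Ideal.mem_sup_left (Ideal.mul_mem_left _ _ hb)) ?_
          obtain ⟨b₁, hb₁, b₂, hb₂, hb12⟩ := Submodule.mem_sup.mp (ih b hb)
          rw [← hb12, mul_add]
          refine add_mem (Ideal.mem_sup_left (Ideal.mul_mem_left _ _ hb₁)) (Ideal.mem_sup_right ?_)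
          rw [pow_succ']
          exact Ideal.mul_mem_mul ha hb₂
        · intro x y hx hy
          rw [cD_add]
          exact add_mem hx hy
  intro g hg
  have := key N g hg
  rwa [sup_eq_left.mpr hN] at this

/-- the triple exponent -/
noncomputable def ex3 (e : ℕ × ℕ × ℕ) : Fin 3 →₀ ℕ :=
  Finsupp.equivFunOnFinite.symm ![e.1, e.2.1, e.2.2]

@[simp] lemma ex3_0 (e : ℕ × ℕ × ℕ) : ex3 e 0 = e.1 := rfl
@[simp] lemma ex3_1 (e : ℕ × ℕ × ℕ) : ex3 e 1 = e.2.1 := rfl
@[simp] lemma ex3_2 (e : ℕ × ℕ × ℕ) : ex3 e 2 = e.2.2 := rfl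

lemma ex3_inj : Function.Injective ex3 := by
  rintro ⟨a, b, c⟩ ⟨a', b', c'⟩ h
  have h0 := DFunLike.congr_fun h 0
  have h1 := DFunLike.congr_fun h 1
  have h2 := DFunLike.congr_fun h 2
  simp at h0 h1 h2
  simp [h0, h1, h2]

lemma degree_ex3 (e : ℕ × ℕ × ℕ) : (ex3 e).degree = e.1 + e.2.1 + e.2.2 := by
  rw [Finsupp.degree_eq_sum, Fin.sum_univ_three]; simp

/-- classes of elements of order at least a in the quotient -/
noncomputable def Wsub (I : Ideal (MvPolynomial (Fin 3) L)) (a : ℕ) :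
    Submodule L (MvPolynomial (Fin 3) L ⧸ I) :=
  ((idealOfVars (Fin 3) L ^ a).restrictScalars L).map (Ideal.Quotient.mkₐ L I).toLinearMap

lemma mem_Wsub {I : Ideal (MvPolynomial (Fin 3) L)} {a : ℕ} {p : MvPolynomial (Fin 3) L}
    (hp : p ∈ idealOfVars (Fin 3) L ^ a) : Ideal.Quotient.mk I p ∈ Wsub I a :=
  ⟨p, hp, rfl⟩

lemma mem_of_Wsub {I : Ideal (MvPolynomial (Fin 3) L)} {a : ℕ}
    (hI : I ≤ idealOfVars (Fin 3) L ^ a) {p : MvPolynomial (Fin 3) L}
    (hp : Ideal.Quotient.mk I p ∈ Wsub I a) : p ∈ idealOfVars (Fin 3) L ^ a := by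
  obtain ⟨q, hq, h⟩ := hp
  have h2 : q - p ∈ I := (Ideal.Quotient.eq).mp h
  have := sub_mem (show q ∈ idealOfVars (Fin 3) L ^ a from hq) (hI h2)
  simpa using this

lemma finrank_Wsub (I : Ideal (MvPolynomial (Fin 3) L)) {a t : ℕ}
    [Module.Finite L (MvPolynomial (Fin 3) L ⧸ I)]
    (hI : I ≤ idealOfVars (Fin 3) L ^ a) (ht : 3 * t ≤ a + 2) :
    Module.finrank L (Wsub I a) + t ^ 3 ≤ Module.finrank L (MvPolynomial (Fin 3) L ⧸ I) := by
  classical
  have hli : LinearIndependent L (fun e : Fin t × Fin t × Fin t =>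
      (Wsub I a).mkQ (Ideal.Quotient.mk I
        (monomial (ex3 ((e.1 : ℕ), (e.2.1 : ℕ), (e.2.2 : ℕ))) (1 : L)))) := by
    rw [Fintype.linearIndependent_iff]
    intro c hc e0
    have h1 : (∑ e : Fin t × Fin t × Fin t, c e • Ideal.Quotient.mk I
        (monomial (ex3 ((e.1 : ℕ), (e.2.1 : ℕ), (e.2.2 : ℕ))) (1 : L))) ∈ Wsub I a := by
      rw [← Submodule.ker_mkQ (Wsub I a), LinearMap.mem_ker, map_sum]
      simpa using hc
    have h2 : (Ideal.Quotient.mk I) (∑ e : Fin t × Fin t × Fin t,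
        monomial (ex3 ((e.1 : ℕ), (e.2.1 : ℕ), (e.2.2 : ℕ))) (c e)) ∈ Wsub I a := by
      convert h1 using 1
      rw [map_sum]
      refine Finset.sum_congr rfl fun e _ => ?_
      rw [← Ideal.Quotient.mkₐ_eq_mk L, ← map_smul, smul_monomial, smul_eq_mul, mul_one]
    have h3 := mem_of_Wsub hI h2
    rw [mem_pow_idealOfVars_iff'] at h3
    have h4 := h3 (ex3 ((e0.1 : ℕ), (e0.2.1 : ℕ), (e0.2.2 : ℕ))) (by
      rw [degree_ex3]
      have := e0.1.2; have := e0.2.1.2; have := e0.2.2.2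
      simp only
      omega)
    rw [coeff_sum, Finset.sum_eq_single e0] at h4
    · simpa using h4
    · intro b _ hb
      rw [coeff_monomial, if_neg]
      intro h
      apply hb
      have := ex3_inj h
      simp only [Prod.mk.injEq] at this
      obtain ⟨h1, h2, h3⟩ := this
      exact Prod.ext (Fin.ext h1) (Prod.ext (Fin.ext h2) (Fin.ext h3))
    · intro h; exact absurd (Finset.mem_univ _) h
  have hcard := hli.fintype_card_le_finrank
  have hq := (Wsub I a).finrank_quotient_add_finrank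
  simp only [Fintype.card_prod, Fintype.card_fin] at hcard
  have : t ^ 3 = t * (t * t) := by ring
  omega

/-- the map sending a derivation to its values on the generators -/
noncomputable def Theta (I : Ideal (MvPolynomial (Fin 3) L)) (a : ℕ)
    (hI : I ≤ idealOfVars (Fin 3) L ^ a) (f : Fin 3 → MvPolynomial (Fin 3) L)
    (hf : ∀ i, f i ∈ I) : Derivation k L L →ₗ[L] (Fin 3 → Wsub I a) where
  toFun D i := ⟨Ideal.Quotient.mk I (cD D (f i)), mem_Wsub (cD_mem_pow D (hI (hf i)))⟩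
  map_add' D₁ D₂ := by
    ext i
    simp only [cD_add_left, map_add]
    rfl
  map_smul' c D := by
    ext i
    simp only [cD_smul_left]
    change Ideal.Quotient.mk I (C c * cD D (f i)) = c • (Ideal.Quotient.mk I (cD D (f i)))
    rw [← smul_eq_C_mul]
    rfl

theorem B1 {a t N r : ℕ} (I : Ideal (MvPolynomial (Fin 3) L))
    [Module.Finite L (MvPolynomial (Fin 3) L ⧸ I)]
    (hN : idealOfVars (Fin 3) L ^ N ≤ I)
    (hI : I ≤ idealOfVars (Fin 3) L ^ a)
    (f : Fin 3 → MvPolynomial (Fin 3) L) (hf : ∀ i, f i ∈ I)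
    (hgen : I ≤ Ideal.span (Set.range f) ⊔ idealOfVars (Fin 3) L * I)
    (hrig : ∀ D : Derivation k L L, (∀ g ∈ I, cD D g ∈ I) → D = 0)
    (ht : 3 * t ≤ a + 2) (D : Fin r → Derivation k L L) (hD : LinearIndependent L D) :
    r + 3 * t ^ 3 ≤ 3 * Module.finrank L (MvPolynomial (Fin 3) L ⧸ I) := by
  have hinj : LinearMap.ker (Theta (k := k) I a hI f hf) = ⊥ := by
    rw [LinearMap.ker_eq_bot']
    intro D' h
    apply hrig
    apply preserves_of_gen I hN f hf hgen
    intro i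
    have h2 := congrFun h i
    have h3 : Ideal.Quotient.mk I (cD D' (f i)) = 0 := congrArg Subtype.val h2
    exact Ideal.Quotient.eq_zero_iff_mem.mp h3
  have h1 := (hD.map' _ hinj).fintype_card_le_finrank
  rw [Module.finrank_pi_fintype] at h1
  simp only [Fintype.card_fin, Finset.sum_const, Finset.card_univ, smul_eq_mul] at h1
  have h2 := finrank_Wsub I hI ht
  omega

end Pool.Agent.W457.HC
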