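import Pool.Agent.W457.H2

namespace Pool.Agent.W457.HC

open MvPolynomial

variable {L : Type*} [Field L]

/-- leading form z^i (y^j x^l + (z a + y^(j+1) b + y^j x^l' c)) -/
noncomputable def low (j l : ℕ) (a b c : MvPolynomial (Fin 3) L) : MvPolynomial (Fin 3) L :=
  X 2 * a + X 1 ^ (j + 1) * b + X 1 ^ j * X 0 ^ l * c

/-- (i,j,l) is an initial exponent of I -/
def Ex (I : Ideal (MvPolynomial (Fin 3) L)) (i j l : ℕ) : Prop :=
  ∃ a b c : MvPolynomial (Fin 3) L, X 2 ^ i * (X 1 ^ j * X 0 ^ l + low j (l + 1) a b c) ∈ I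

lemma Ex_l {I : Ideal (MvPolynomial (Fin 3) L)} {i j l : ℕ} (h : Ex I i j l) :
    Ex I i j (l + 1) := by
  obtain ⟨a, b, c, h⟩ := h
  refine ⟨X 0 * a, X 0 * b, c, ?_⟩
  convert I.mul_mem_left (X 0) h using 1
  unfold low; ring

lemma Ex_j {I : Ideal (MvPolynomial (Fin 3) L)} {i j l : ℕ} (h : Ex I i j l) :
    Ex I i (j + 1) l := by
  obtain ⟨a, b, c, h⟩ := h
  refine ⟨X 1 * a, b, c, ?_⟩
  convert I.mul_mem_left (X 1) h using 1
  unfold low; ring

lemma Ex_i {I : Ideal (MvPolynomial (Fin 3) L)} {i j l : ℕ} (h : Ex I i j l) :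
    Ex I (i + 1) j l := by
  obtain ⟨a, b, c, h⟩ := h
  refine ⟨a, b, c, ?_⟩
  convert I.mul_mem_left (X 2) h using 1
  unfold low; ring

lemma Ex_l' {I : Ideal (MvPolynomial (Fin 3) L)} {i j l l' : ℕ} (h : Ex I i j l) (hl : l ≤ l') :
    Ex I i j l' := by
  induction l', hl using Nat.le_induction with
  | base => exact h
  | succ n _ ih => exact Ex_l ih

lemma Ex_j' {I : Ideal (MvPolynomial (Fin 3) L)} {i j j' l : ℕ} (h : Ex I i j l) (hl : j ≤ j') :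
    Ex I i j' l := by
  induction j', hl using Nat.le_induction with
  | base => exact h
  | succ n _ ih => exact Ex_j ih

lemma Ex_i' {I : Ideal (MvPolynomial (Fin 3) L)} {i i' j l : ℕ} (h : Ex I i j l) (hl : i ≤ i') :
    Ex I i' j l := by
  induction i', hl using Nat.le_induction with
  | base => exact h
  | succ n _ ih => exact Ex_i ih

/-- product of leading forms -/
lemma low_mul (j₁ l₁ j₂ l₂ : ℕ) (a₁ b₁ c₁ a₂ b₂ c₂ : MvPolynomial (Fin 3) L) :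
    ∃ a b c, (X 1 ^ j₁ * X 0 ^ l₁ + low j₁ (l₁ + 1) a₁ b₁ c₁) *
      (X 1 ^ j₂ * X 0 ^ l₂ + low j₂ (l₂ + 1) a₂ b₂ c₂) =
      X 1 ^ (j₁ + j₂) * X 0 ^ (l₁ + l₂) + low (j₁ + j₂) (l₁ + l₂ + 1) a b c := by
  refine ⟨a₁ * (X 1 ^ j₂ * X 0 ^ l₂ + low j₂ (l₂ + 1) a₂ b₂ c₂) +
      (X 1 ^ j₁ * X 0 ^ l₁ + X 1 ^ (j₁ + 1) * b₁ + X 1 ^ j₁ * X 0 ^ (l₁ + 1) * c₁) * a₂,
    b₁ * (X 0 ^ l₂ + X 1 * b₂ + X 0 ^ (l₂ + 1) * c₂) + (X 0 ^ l₁ + X 0 ^ (l₁ + 1) * c₁) * b₂,
    c₂ + c₁ + X 0 * c₁ * c₂, ?_⟩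
  unfold low
  ring

/-- the ideal (x^M, y^M, z^M) as a predicate -/
def Bx (M : ℕ) (g : MvPolynomial (Fin 3) L) : Prop :=
  ∃ a b c : MvPolynomial (Fin 3) L, g = X 0 ^ M * a + X 1 ^ M * b + X 2 ^ M * c

lemma Bx_zero (M : ℕ) : Bx M (0 : MvPolynomial (Fin 3) L) := ⟨0, 0, 0, by ring⟩

lemma Bx_add {M : ℕ} {g h : MvPolynomial (Fin 3) L} (hg : Bx M g) (hh : Bx M h) :
    Bx M (g + h) := by
  obtain ⟨a, b, c, rfl⟩ := hg
  obtain ⟨a', b', c', rfl⟩ := hh
  exact ⟨a + a', b + b', c + c', by ring⟩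

lemma Bx_mul {M : ℕ} {g : MvPolynomial (Fin 3) L} (h : MvPolynomial (Fin 3) L) (hg : Bx M g) :
    Bx M (h * g) := by
  obtain ⟨a, b, c, rfl⟩ := hg
  exact ⟨h * a, h * b, h * c, by ring⟩

lemma Bx_mem {M : ℕ} {I : Ideal (MvPolynomial (Fin 3) L)} (hx : ∀ i : Fin 3, X i ^ M ∈ I)
    {g : MvPolynomial (Fin 3) L} (hg : Bx M g) : g ∈ I := by
  obtain ⟨a, b, c, rfl⟩ := hg
  exact add_mem (add_mem (I.mul_mem_right _ (hx 0)) (I.mul_mem_right _ (hx 1)))
    (I.mul_mem_right _ (hx 2))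

lemma decomp (p : MvPolynomial (Fin 3) L) :
    ∃ p0 p1 p2, p = C (constantCoeff p) + X 0 * p0 + X 1 * p1 + X 2 * p2 := by
  have h : p - C (constantCoeff p) ∈ idealOfVars (Fin 3) L ^ 1 := by
    rw [mem_pow_idealOfVars_iff']
    intro x hx
    have : x = 0 := by
      rw [← Finsupp.degree_eq_zero_iff]; omega
    subst this
    simp [constantCoeff_eq]
  rw [pow_one, idealOfVars, Ideal.mem_span_range_iff_exists_fun] at h
  obtain ⟨c, hc⟩ := h
  rw [Fin.sum_univ_three] at hc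
  exact ⟨c 0, c 1, c 2, by linear_combination -hc⟩

theorem lexfill {M : ℕ} (J V : Submodule L (MvPolynomial (Fin 3) L)) (hVJ : V ≤ J)
    (hB : ∀ g ∈ J, Bx M g → g ∈ V)
    (hstep : ∀ i j l : ℕ, ∀ a b c β : MvPolynomial (Fin 3) L, Bx M β →
      X 2 ^ i * (X 1 ^ j * X 0 ^ l + low j (l + 1) a b c) + β ∈ J →
      ∃ a' b' c' β' : MvPolynomial (Fin 3) L, Bx M β' ∧
      X 2 ^ i * (X 1 ^ j * X 0 ^ l + low j (l + 1) a' b' c') + β' ∈ V) :
    J ≤ V := by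
  let P : ℕ → ℕ → ℕ → Prop := fun i j l => ∀ a b c β : MvPolynomial (Fin 3) L, Bx M β →
    X 2 ^ i * low j l a b c + β ∈ J → X 2 ^ i * low j l a b c + β ∈ V
  have hl : ∀ i j l, P i j (l + 1) → P i j l := by
    intro i j l hP a b c β hβ hg
    obtain ⟨c0, c1, c2, hc⟩ := decomp c
    by_cases h0 : constantCoeff c = 0
    · have e : X 2 ^ i * low j l a b c + β = X 2 ^ i * low j (l + 1)
          (a + X 1 ^ j * X 0 ^ l * c2) (b + X 0 ^ l * c1) c0 + β := by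
        rw [hc, h0, C_0]; unfold low; ring
      rw [e] at hg ⊢
      exact hP _ _ _ _ hβ hg
    · set u := constantCoeff c with hu
      have e : X 2 ^ i * low j l a b c + β = u • (X 2 ^ i * (X 1 ^ j * X 0 ^ l + low j (l + 1)
          (C u⁻¹ * (a + X 1 ^ j * X 0 ^ l * c2)) (C u⁻¹ * (b + X 0 ^ l * c1)) (C u⁻¹ * c0)) +
            C u⁻¹ * β) := by
        have h1 : (C u : MvPolynomial (Fin 3) L) * C u⁻¹ = 1 := by
          rw [← C_mul, mul_inv_cancel₀ h0, C_1]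
        rw [smul_eq_C_mul, hc]
        unfold low
        linear_combination (-(X 2 ^ i * (X 2 * (a + X 1 ^ j * X 0 ^ l * c2) +
          X 1 ^ (j + 1) * (b + X 0 ^ l * c1) + X 1 ^ j * X 0 ^ (l + 1) * c0)) - β) * h1
      have hg' := J.smul_mem u⁻¹ hg
      rw [e, smul_smul, inv_mul_cancel₀ h0, one_smul] at hg'
      obtain ⟨a', b', c', β', hβ', hV⟩ := hstep i j l _ _ _ _ (Bx_mul _ hβ) hg'
      have hd : X 2 ^ i * low j l a b c + β - u • (X 2 ^ i * (X 1 ^ j * X 0 ^ l +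
          low j (l + 1) a' b' c') + β') ∈ V := by
        have hJ : X 2 ^ i * low j l a b c + β - u • (X 2 ^ i * (X 1 ^ j * X 0 ^ l +
          low j (l + 1) a' b' c') + β') ∈ J := sub_mem hg (J.smul_mem _ (hVJ hV))
        have e2 : X 2 ^ i * low j l a b c + β - u • (X 2 ^ i * (X 1 ^ j * X 0 ^ l +
          low j (l + 1) a' b' c') + β') = X 2 ^ i * low j (l + 1)
            (a + X 1 ^ j * X 0 ^ l * c2 - C u * a') (b + X 0 ^ l * c1 - C u * b')
            (c0 - C u * c') + (β + (- C u) * β') := by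
          rw [smul_eq_C_mul, hc]; unfold low; ring
        rw [e2] at hJ ⊢
        exact hP _ _ _ _ (Bx_add hβ (Bx_mul _ hβ')) hJ
      have := add_mem hd (V.smul_mem u hV)
      simpa using this
  have hl0 : ∀ i j l, P i j l → P i j 0 := by
    intro i j l
    induction l with
    | zero => exact id
    | succ l ih => exact fun h => ih (hl _ _ _ h)
  have hj : ∀ i j, P i (j + 1) 0 → P i j 0 := by
    intro i j hP
    refine hl0 i j M ?_
    intro a b c β hβ hg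
    have e : X 2 ^ i * low j M a b c + β = X 2 ^ i * low (j + 1) 0 a 0 b +
        (X 2 ^ i * (X 1 ^ j * c) * X 0 ^ M + β) := by
      unfold low; ring
    rw [e] at hg ⊢
    refine hP _ _ _ _ (Bx_add ⟨X 2 ^ i * (X 1 ^ j * c), 0, 0, by ring⟩ hβ) hg
  have hj0 : ∀ i j, P i j 0 → P i 0 0 := by
    intro i j
    induction j with
    | zero => exact id
    | succ j ih => exact fun h => ih (hj _ _ h)
  have hi : ∀ i, P (i + 1) 0 0 → P i 0 0 := by
    intro i hP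
    refine hj0 i M ?_
    intro a b c β hβ hg
    have e : X 2 ^ i * low M 0 a b c + β = X 2 ^ (i + 1) * low 0 0 0 0 a +
        (X 2 ^ i * (X 1 * b + c) * X 1 ^ M + β) := by
      unfold low; ring
    rw [e] at hg ⊢
    refine hP _ _ _ _ (Bx_add ⟨0, X 2 ^ i * (X 1 * b + c), 0, by ring⟩ hβ) hg
  have hi0 : ∀ i, P i 0 0 → P 0 0 0 := by
    intro i
    induction i with
    | zero => exact id
    | succ i ih => exact fun h => ih (hi _ h)
  have hM : P M 0 0 := by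
    intro a b c β hβ hg
    exact hB _ hg (Bx_add ⟨0, 0, low 0 0 a b c, by ring⟩ hβ)
  intro g hg
  have := hi0 M hM 0 0 g 0 (Bx_zero M)
  have e : X 2 ^ 0 * low 0 0 0 0 g + 0 = g := by unfold low; ring
  rw [e] at this
  exact this hg

end Pool.Agent.W457.HC
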