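import Pool.Agent.W457.H3

namespace Pool.Agent.W457.HC

open MvPolynomial

section
variable {L : Type*} [Field L]

/-- the least j with (i,j,l) an initial exponent -/
noncomputable def rr (I : Ideal (MvPolynomial (Fin 3) L)) (i l : ℕ) : ℕ := sInf {j | Ex I i j l}

lemma Ex_N {I : Ideal (MvPolynomial (Fin 3) L)} {N : ℕ} (hx : ∀ i : Fin 3, X i ^ N ∈ I)
    (i l : ℕ) : Ex I i N l := by
  refine ⟨0, 0, 0, ?_⟩
  have : X 2 ^ i * (X 1 ^ N * X 0 ^ l + low N (l + 1) 0 0 0) =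
      (X 2 ^ i * X 0 ^ l) * (X 1 ^ N : MvPolynomial (Fin 3) L) := by unfold low; ring
  rw [this]; exact I.mul_mem_left _ (hx 1)

lemma Ex_iff {I : Ideal (MvPolynomial (Fin 3) L)} {N : ℕ} (hx : ∀ i : Fin 3, X i ^ N ∈ I)
    (i j l : ℕ) : Ex I i j l ↔ rr I i l ≤ j := by
  constructor
  · intro h; exact Nat.sInf_le h
  · intro h
    have h1 : Ex I i (rr I i l) l := Nat.sInf_mem (s := {j | Ex I i j l}) ⟨N, Ex_N hx i l⟩
    exact Ex_j' h1 h

lemma rr_zero_i {I : Ideal (MvPolynomial (Fin 3) L)} {N : ℕ} (hx : ∀ i : Fin 3, X i ^ N ∈ I)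
    {i : ℕ} (l : ℕ) (hi : N ≤ i) : rr I i l = 0 := by
  rw [← Nat.le_zero, ← Ex_iff hx]
  refine Ex_i' (i := N) ⟨0, 0, 0, ?_⟩ hi
  exact I.mul_mem_right _ (hx 2)

lemma rr_zero_l {I : Ideal (MvPolynomial (Fin 3) L)} {N : ℕ} (hx : ∀ i : Fin 3, X i ^ N ∈ I)
    (i : ℕ) {l : ℕ} (hl : N ≤ l) : rr I i l = 0 := by
  rw [← Nat.le_zero, ← Ex_iff hx]
  refine Ex_l' (l := N) ⟨0, 0, 0, ?_⟩ hl
  have : X 2 ^ i * (X 1 ^ 0 * X 0 ^ N + low 0 (N + 1) 0 0 0) =
      (X 2 ^ i) * (X 0 ^ N : MvPolynomial (Fin 3) L) := by unfold low; ring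
  rw [this]; exact I.mul_mem_left _ (hx 0)

lemma rr_anti {I : Ideal (MvPolynomial (Fin 3) L)} {N : ℕ} (hx : ∀ i : Fin 3, X i ^ N ∈ I)
    (i : ℕ) {l l' : ℕ} (hl : l ≤ l') : rr I i l' ≤ rr I i l := by
  rw [← Ex_iff hx]
  exact Ex_l' ((Ex_iff hx _ _ _).mpr le_rfl) hl

lemma rr_zero_a {I : Ideal (MvPolynomial (Fin 3) L)} {N a : ℕ} (hx : ∀ i : Fin 3, X i ^ N ∈ I)
    (ha : Ex I 0 0 a) (i : ℕ) {l : ℕ} (hl : a ≤ l) : rr I i l = 0 := by
  rw [← Nat.le_zero, ← Ex_iff hx]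
  exact Ex_l' (Ex_i' ha (Nat.zero_le i)) hl

/-- monomial z^i y^j x^l -/
noncomputable def mon (e : (_ : ℕ × ℕ) × ℕ) : MvPolynomial (Fin 3) L :=
  X 2 ^ e.1.1 * (X 1 ^ e.2 * X 0 ^ e.1.2)

/-- standard monomials -/
noncomputable def Scomp (I : Ideal (MvPolynomial (Fin 3) L)) (N : ℕ) :
    Finset ((_ : ℕ × ℕ) × ℕ) :=
  (Finset.range N ×ˢ Finset.range N).sigma (fun p => Finset.range (rr I p.1 p.2))

lemma span_comp {I : Ideal (MvPolynomial (Fin 3) L)} {N : ℕ} (hx : ∀ i : Fin 3, X i ^ N ∈ I) :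
    Module.finrank L (MvPolynomial (Fin 3) L ⧸ I) ≤ (Scomp I N).card := by
  classical
  set U : Submodule L (MvPolynomial (Fin 3) L) := Submodule.span L (mon '' (Scomp I N : Set _))
    with hU
  have h1 : (⊤ : Submodule L (MvPolynomial (Fin 3) L)) ≤ I.restrictScalars L ⊔ U := by
    refine lexfill (M := N) ⊤ _ le_top ?_ ?_
    · intro g _ hg
      exact Submodule.mem_sup_left (Bx_mem hx hg)
    · intro i j l a b c β _ _
      by_cases h : rr I i l ≤ j
      · obtain ⟨a', b', c', h'⟩ := (Ex_iff hx i j l).mpr h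
        refine ⟨a', b', c', 0, Bx_zero N, Submodule.mem_sup_left ?_⟩
        rw [add_zero]; exact h'
      · refine ⟨0, 0, 0, 0, Bx_zero N, Submodule.mem_sup_right ?_⟩
        apply Submodule.subset_span
        refine ⟨⟨(i, l), j⟩, ?_, ?_⟩
        · push Not at h
          have hi : i < N := by
            by_contra hi; push Not at hi
            rw [rr_zero_i hx l hi] at h; omega
          have hl : l < N := by
            by_contra hl; push Not at hl
            rw [rr_zero_l hx i hl] at h; omega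
          simp [Scomp, hi, hl, h]
        · unfold mon low; ring
  have h2 : Submodule.span L ((Ideal.Quotient.mk I) '' (mon '' (Scomp I N : Set _))) = ⊤ := by
    rw [eq_top_iff]
    rintro q -
    obtain ⟨p, rfl⟩ := Ideal.Quotient.mk_surjective q
    obtain ⟨u, hu, v, hv, rfl⟩ := Submodule.mem_sup.mp (h1 (Submodule.mem_top (x := p)))
    have hu' : Ideal.Quotient.mk I u = 0 := Ideal.Quotient.eq_zero_iff_mem.mpr hu
    rw [map_add, hu', zero_add]
    have := Submodule.mem_map_of_mem (f := (Ideal.Quotient.mkₐ L I).toLinearMap) hv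
    rw [Submodule.map_span] at this
    exact this
  have h3 : Module.finrank L (MvPolynomial (Fin 3) L ⧸ I) =
      Module.finrank L (Submodule.span L ((Ideal.Quotient.mk I) ''
        (mon '' (Scomp I N : Set _)))) := by
    rw [h2, finrank_top]
  rw [h3, ← Finset.coe_image, ← Finset.coe_image]
  refine (finrank_span_finset_le_card _).trans ?_
  exact Finset.card_image_le.trans Finset.card_image_le

/-- elements of z^i low -/
def Lw (i j l : ℕ) (g : MvPolynomial (Fin 3) L) : Prop :=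
  ∃ a b c, g = X 2 ^ i * low j l a b c

lemma Lw_add {i j l : ℕ} {g h : MvPolynomial (Fin 3) L} (hg : Lw i j l g) (hh : Lw i j l h) :
    Lw i j l (g + h) := by
  obtain ⟨a, b, c, rfl⟩ := hg
  obtain ⟨a', b', c', rfl⟩ := hh
  exact ⟨a + a', b + b', c + c', by unfold low; ring⟩

lemma Lw_zero (i j l : ℕ) : Lw i j l (0 : MvPolynomial (Fin 3) L) :=
  ⟨0, 0, 0, by unfold low; ring⟩

lemma Lw_mul {i j l : ℕ} {g : MvPolynomial (Fin 3) L} (h : MvPolynomial (Fin 3) L)
    (hg : Lw i j l g) : Lw i j l (h * g) := by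
  obtain ⟨a, b, c, rfl⟩ := hg
  exact ⟨h * a, h * b, h * c, by unfold low; ring⟩

lemma mon_Lw {i j l i' j' l' : ℕ}
    (h : toLex (i, toLex (j, l)) < toLex (i', toLex (j', l'))) :
    Lw i j (l + 1) (mon ⟨(i', l'), j'⟩ : MvPolynomial (Fin 3) L) := by
  rw [Prod.Lex.toLex_lt_toLex, Prod.Lex.toLex_lt_toLex] at h
  unfold mon
  simp only at h ⊢
  rcases h with h | ⟨rfl, h | ⟨rfl, h⟩⟩
  · obtain ⟨s, rfl⟩ := Nat.exists_eq_add_of_lt h
    exact ⟨X 2 ^ s * (X 1 ^ j' * X 0 ^ l'), 0, 0, by unfold low; ring⟩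
  · obtain ⟨s, rfl⟩ := Nat.exists_eq_add_of_lt h
    exact ⟨0, X 1 ^ s * X 0 ^ l', 0, by unfold low; ring⟩
  · obtain ⟨s, rfl⟩ := Nat.exists_eq_add_of_lt h
    exact ⟨0, 0, X 0 ^ s, by unfold low; ring⟩

lemma indep_comp {I : Ideal (MvPolynomial (Fin 3) L)} {N : ℕ} (hx : ∀ i : Fin 3, X i ^ N ∈ I) :
    LinearIndependent L (fun e : Scomp I N => Ideal.Quotient.mk I (mon (e : (_ : ℕ × ℕ) × ℕ))) := by
  classical
  rw [Fintype.linearIndependent_iff]
  intro c hc
  by_contra hne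
  push Not at hne
  obtain ⟨e1, he1⟩ := hne
  obtain ⟨e0, he0, hmin⟩ := Finset.exists_min_image
    (Finset.univ.filter (fun e : Scomp I N => c e ≠ 0))
    (fun e => toLex ((e : (_ : ℕ × ℕ) × ℕ).1.1, toLex ((e : (_ : ℕ × ℕ) × ℕ).2,
      (e : (_ : ℕ × ℕ) × ℕ).1.2))) ⟨e1, by simp [he1]⟩
  have hc0 : c e0 ≠ 0 := by simpa using he0
  have h1 : (∑ e : Scomp I N, C (c e) * mon (e : (_ : ℕ × ℕ) × ℕ)) ∈ I := by
    rw [← Ideal.Quotient.eq_zero_iff_mem, map_sum, ← hc]
    refine Finset.sum_congr rfl fun e _ => ?_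
    rw [← smul_eq_C_mul]; rfl
  rw [← Finset.add_sum_erase _ _ (Finset.mem_univ e0)] at h1
  have h2 : Lw (e0 : (_ : ℕ × ℕ) × ℕ).1.1 (e0 : (_ : ℕ × ℕ) × ℕ).2
      ((e0 : (_ : ℕ × ℕ) × ℕ).1.2 + 1)
      (∑ e ∈ Finset.univ.erase e0, C (c e) * mon (e : (_ : ℕ × ℕ) × ℕ)) := by
    refine Finset.sum_induction _ (Lw _ _ _) (fun _ _ => Lw_add) (Lw_zero _ _ _) ?_
    intro e he
    by_cases hce : c e = 0
    · rw [hce, C_0, zero_mul]; exact Lw_zero _ _ _
    · apply Lw_mul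
      have hlt := lt_of_le_of_ne (hmin e (by simp [hce])) (by
        intro h
        apply Finset.ne_of_mem_erase he
        have h' := toLex.injective h
        simp only [Prod.mk.injEq] at h'
        obtain ⟨ha, hb⟩ := h'
        have hb' := toLex.injective hb
        simp only [Prod.mk.injEq] at hb'
        apply Subtype.ext
        exact Sigma.ext (Prod.ext ha.symm hb'.2.symm) (heq_of_eq hb'.1.symm))
      exact mon_Lw hlt
  obtain ⟨a, b, d, h3⟩ := h2
  rw [h3] at h1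
  have h4 : Ex I (e0 : (_ : ℕ × ℕ) × ℕ).1.1 (e0 : (_ : ℕ × ℕ) × ℕ).2
      (e0 : (_ : ℕ × ℕ) × ℕ).1.2 := by
    refine ⟨C (c e0)⁻¹ * a, C (c e0)⁻¹ * b, C (c e0)⁻¹ * d, ?_⟩
    have h5 : (C (c e0) : MvPolynomial (Fin 3) L) * C (c e0)⁻¹ = 1 := by
      rw [← C_mul, mul_inv_cancel₀ hc0, C_1]
    convert I.mul_mem_left (C (c e0)⁻¹) h1 using 1
    unfold mon low
    linear_combination (-(X 2 ^ (e0 : (_ : ℕ × ℕ) × ℕ).1.1 *
      (X 1 ^ (e0 : (_ : ℕ × ℕ) × ℕ).2 * X 0 ^ (e0 : (_ : ℕ × ℕ) × ℕ).1.2))) * h5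
  rw [Ex_iff hx] at h4
  have h6 := (Finset.mem_sigma.mp (show (e0 : (_ : ℕ × ℕ) × ℕ) ∈ (Finset.range N ×ˢ
    Finset.range N).sigma (fun p => Finset.range (rr I p.1 p.2)) from e0.2)).2
  rw [Finset.mem_range] at h6
  omega

lemma card_comp {I : Ideal (MvPolynomial (Fin 3) L)} {N : ℕ} (hx : ∀ i : Fin 3, X i ^ N ∈ I)
    [Module.Finite L (MvPolynomial (Fin 3) L ⧸ I)] :
    (Scomp I N).card = Module.finrank L (MvPolynomial (Fin 3) L ⧸ I) := by
  refine le_antisymm ?_ (span_comp hx)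
  have := (indep_comp hx).fintype_card_le_finrank
  rwa [Fintype.card_coe] at this

lemma card_comp_sum (I : Ideal (MvPolynomial (Fin 3) L)) (N : ℕ) :
    (Scomp I N).card = ∑ i ∈ Finset.range N, ∑ l ∈ Finset.range N, rr I i l := by
  rw [Scomp, Finset.card_sigma, Finset.sum_product]
  simp

/-- initial exponents that are not covered by products -/
noncomputable def Sext (I : Ideal (MvPolynomial (Fin 3) L)) (N : ℕ) :
    Finset ((_ : ℕ × ℕ) × ℕ) :=
  (Finset.range N ×ˢ Finset.range (2 * N)).sigma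
    (fun p => Finset.range (rr I p.1 (p.2 / 2) + rr I p.1 ((p.2 + 1) / 2) - rr I p.1 p.2))

lemma sum_half (f : ℕ → ℕ) (N : ℕ) :
    ∑ l ∈ Finset.range (2 * N), f (l / 2) = 2 * ∑ l ∈ Finset.range N, f l := by
  induction N with
  | zero => simp
  | succ n ih =>
    rw [show 2 * (n + 1) = 2 * n + 1 + 1 by ring, Finset.sum_range_succ, Finset.sum_range_succ, ih,
      Finset.sum_range_succ]
    have h1 : (2 * n + 1) / 2 = n := by omega
    have h2 : (2 * n) / 2 = n := by omega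
    rw [h1, h2]; ring

lemma sum_half' (f : ℕ → ℕ) (N : ℕ) :
    ∑ l ∈ Finset.range (2 * N), f ((l + 1) / 2) + f 0 = 2 * ∑ l ∈ Finset.range N, f l + f N := by
  induction N with
  | zero => simp
  | succ n ih =>
    rw [show 2 * (n + 1) = 2 * n + 1 + 1 by ring, Finset.sum_range_succ, Finset.sum_range_succ,
      Finset.sum_range_succ]
    have h1 : (2 * n + 1 + 1) / 2 = n + 1 := by omega
    have h2 : (2 * n + 1) / 2 = n := by omega
    rw [h1, h2]; linarith

lemma card_ext {I : Ideal (MvPolynomial (Fin 3) L)} {N : ℕ} (hx : ∀ i : Fin 3, X i ^ N ∈ I) :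
    (Sext I N).card + ∑ i ∈ Finset.range N, rr I i 0 = 3 * (Scomp I N).card := by
  rw [card_comp_sum, Sext, Finset.card_sigma, Finset.sum_product, ← Finset.sum_add_distrib,
    Finset.mul_sum]
  refine Finset.sum_congr rfl fun i _ => ?_
  simp only [Finset.card_range]
  have h1 := sum_half (fun l => rr I i l) N
  have h2 := sum_half' (fun l => rr I i l) N
  have h3 : rr I i N = 0 := rr_zero_l hx i le_rfl
  have h4 : ∑ l ∈ Finset.range (2 * N), rr I i l = ∑ l ∈ Finset.range N, rr I i l := by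
    refine (Finset.sum_subset (Finset.range_subset_range.mpr (by omega)) ?_).symm
    intro l _ hl
    exact rr_zero_l hx i (by simpa using hl)
  have h5 : ∑ l ∈ Finset.range (2 * N), (rr I i (l / 2) + rr I i ((l + 1) / 2) - rr I i l) +
      ∑ l ∈ Finset.range (2 * N), rr I i l =
      ∑ l ∈ Finset.range (2 * N), rr I i (l / 2) +
        ∑ l ∈ Finset.range (2 * N), rr I i ((l + 1) / 2) := by
    rw [← Finset.sum_add_distrib, ← Finset.sum_add_distrib]
    refine Finset.sum_congr rfl fun l _ => ?_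
    have := rr_anti hx i (show l / 2 ≤ l by omega)
    omega
  omega

lemma card_le_a {I : Ideal (MvPolynomial (Fin 3) L)} {N a : ℕ} (hx : ∀ i : Fin 3, X i ^ N ∈ I)
    (ha : Ex I 0 0 a) : (Scomp I N).card ≤ a * ∑ i ∈ Finset.range N, rr I i 0 := by
  rw [card_comp_sum, Finset.mul_sum]
  refine Finset.sum_le_sum fun i _ => ?_
  calc ∑ l ∈ Finset.range N, rr I i l ≤ ∑ l ∈ Finset.range (max N a), rr I i l :=
        Finset.sum_le_sum_of_subset (Finset.range_subset_range.mpr (le_max_left _ _))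
    _ = ∑ l ∈ Finset.range a, rr I i l := by
        refine (Finset.sum_subset (Finset.range_subset_range.mpr (le_max_right _ _)) ?_).symm
        intro l _ hl
        exact rr_zero_a hx ha i (by simpa using hl)
    _ ≤ ∑ l ∈ Finset.range a, rr I i 0 :=
        Finset.sum_le_sum fun l _ => rr_anti hx i (Nat.zero_le l)
    _ = a * rr I i 0 := by simp

end

end Pool.Agent.W457.HC
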