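import Pool.Agent.W457.H4

namespace Pool.Agent.W457.HC

open MvPolynomial

variable {k L : Type*} [Field k] [Field L] [Algebra k L]

/-- elements g of I with τ(D g) = 0 -/
noncomputable def Vsub (I : Ideal (MvPolynomial (Fin 3) L)) (τ : MvPolynomial (Fin 3) L →ₗ[L] L)
    (hτ0 : ∀ g ∈ I, τ g = 0) (D : Derivation k L L) : Submodule L (MvPolynomial (Fin 3) L) where
  carrier := {g | g ∈ I ∧ τ (cD D g) = 0}
  add_mem' := by
    rintro x y ⟨hx, hx'⟩ ⟨hy, hy'⟩
    refine ⟨add_mem hx hy, ?_⟩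
    rw [cD_add, map_add, hx', hy', add_zero]
  zero_mem' := ⟨zero_mem _, by rw [cD_zero, map_zero]⟩
  smul_mem' := by
    rintro c x ⟨hx, hx'⟩
    refine ⟨?_, ?_⟩
    · rw [smul_eq_C_mul]; exact I.mul_mem_left _ hx
    · rw [smul_eq_C_mul, cD_Cmul, map_add, hτ0 _ (I.mul_mem_left _ hx), ← smul_eq_C_mul, map_smul,
        hx', smul_zero, add_zero]

/-- the map from derivations to values -/
noncomputable def Psi {ι : Type*} (τ : MvPolynomial (Fin 3) L →ₗ[L] L)
    (g : ι → MvPolynomial (Fin 3) L) : Derivation k L L →ₗ[L] (ι → L) where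
  toFun D e := τ (cD D (g e))
  map_add' D₁ D₂ := by
    ext e; simp [cD_add_left]
  map_smul' c D := by
    ext e
    simp only [cD_smul_left, ← smul_eq_C_mul, map_smul]
    rfl

theorem B2 {a N r : ℕ} (I : Ideal (MvPolynomial (Fin 3) L))
    [Module.Finite L (MvPolynomial (Fin 3) L ⧸ I)]
    (hx : ∀ i : Fin 3, X i ^ N ∈ I) (ha : Ex I 0 0 a)
    (τ : MvPolynomial (Fin 3) L →ₗ[L] L) (hτ0 : ∀ g ∈ I, τ g = 0)
    (hτ : ∀ p, (∀ h, τ (h * p) = 0) → p ∈ I)
    (hrig : ∀ D : Derivation k L L, (∀ g ∈ I, cD D g ∈ I) → D = 0)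
    (D : Fin r → Derivation k L L) (hD : LinearIndependent L D) :
    ∃ ρ, r + ρ ≤ 3 * Module.finrank L (MvPolynomial (Fin 3) L ⧸ I) ∧
      Module.finrank L (MvPolynomial (Fin 3) L ⧸ I) ≤ a * ρ := by
  classical
  refine ⟨∑ i ∈ Finset.range N, rr I i 0, ?_, ?_⟩
  swap
  · rw [← card_comp hx]; exact card_le_a hx ha
  have hge : ∀ e : Sext I N, ∃ a b c : MvPolynomial (Fin 3) L,
      X 2 ^ (e : (_ : ℕ × ℕ) × ℕ).1.1 *
        (X 1 ^ (rr I (e : (_ : ℕ × ℕ) × ℕ).1.1 (e : (_ : ℕ × ℕ) × ℕ).1.2 +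
          (e : (_ : ℕ × ℕ) × ℕ).2) * X 0 ^ (e : (_ : ℕ × ℕ) × ℕ).1.2 +
        low (rr I (e : (_ : ℕ × ℕ) × ℕ).1.1 (e : (_ : ℕ × ℕ) × ℕ).1.2 +
          (e : (_ : ℕ × ℕ) × ℕ).2) ((e : (_ : ℕ × ℕ) × ℕ).1.2 + 1) a b c) ∈ I := by
    intro e
    exact (Ex_iff hx _ _ _).mpr (Nat.le_add_right _ _)
  choose ga gb gc hg using hge
  set ge : Sext I N → MvPolynomial (Fin 3) L := fun e => X 2 ^ (e : (_ : ℕ × ℕ) × ℕ).1.1 *
        (X 1 ^ (rr I (e : (_ : ℕ × ℕ) × ℕ).1.1 (e : (_ : ℕ × ℕ) × ℕ).1.2 +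
          (e : (_ : ℕ × ℕ) × ℕ).2) * X 0 ^ (e : (_ : ℕ × ℕ) × ℕ).1.2 +
        low (rr I (e : (_ : ℕ × ℕ) × ℕ).1.1 (e : (_ : ℕ × ℕ) × ℕ).1.2 +
          (e : (_ : ℕ × ℕ) × ℕ).2) ((e : (_ : ℕ × ℕ) × ℕ).1.2 + 1) (ga e) (gb e) (gc e)) with hge
  have hker : LinearMap.ker (Psi (k := k) τ ge) = ⊥ := by
    rw [LinearMap.ker_eq_bot']
    intro D' hD'
    have hzero : ∀ e, τ (cD D' (ge e)) = 0 := fun e => congrFun hD' e
    set V := Vsub I τ hτ0 D' with hV
    -- products lie in V
    have hprod : ∀ (i : ℕ) (g h : MvPolynomial (Fin 3) L), X 2 ^ i * g ∈ I → X 2 ^ i * h ∈ I →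
        X 2 ^ i * (g * h) ∈ V := by
      intro i g h hg1 hh1
      have h1 : X 2 ^ i * (g * h) ∈ I := by
        rw [← mul_assoc]; exact I.mul_mem_right _ hg1
      refine ⟨h1, ?_⟩
      apply hτ0
      rw [cD_mul, cD_X_pow, zero_mul, zero_add, cD_mul, mul_add]
      refine add_mem ?_ ?_
      · have : X 2 ^ i * (cD D' g * h) = cD D' g * (X 2 ^ i * h) := by ring
        rw [this]; exact I.mul_mem_left _ hh1
      · rw [← mul_assoc]; exact I.mul_mem_right _ hg1
    have hfill : I.restrictScalars L ≤ V := by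
      refine lexfill (M := 2 * N) _ _ (fun g hg => hg.1) ?_ ?_
      · rintro g hg ⟨a', b', c', rfl⟩
        refine add_mem (add_mem ?_ ?_) ?_
        · have e : X 0 ^ (2 * N) * a' = X 2 ^ 0 * (X 0 ^ N * (X 0 ^ N * a')) := by ring
          rw [e]
          exact hprod 0 _ _ (by simpa using hx 0) (by simpa using I.mul_mem_right _ (hx 0))
        · have e : X 1 ^ (2 * N) * b' = X 2 ^ 0 * (X 1 ^ N * (X 1 ^ N * b')) := by ring
          rw [e]
          exact hprod 0 _ _ (by simpa using hx 1) (by simpa using I.mul_mem_right _ (hx 1))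
        · have e : X 2 ^ (2 * N) * c' = X 2 ^ N * (1 * (X 2 ^ N * c')) := by ring
          rw [e]
          refine hprod N _ _ (by simpa using hx 2) ?_
          exact I.mul_mem_right _ (hx 2)
      · intro i j l a' b' c' β hβ hmem
        have hβI : β ∈ I := by
          obtain ⟨u, v, w, rfl⟩ := hβ
          refine add_mem (add_mem ?_ ?_) ?_
          · rw [two_mul, pow_add, mul_assoc]; exact I.mul_mem_right _ (hx 0)
          · rw [two_mul, pow_add, mul_assoc]; exact I.mul_mem_right _ (hx 1)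
          · rw [two_mul, pow_add, mul_assoc]; exact I.mul_mem_right _ (hx 2)
        have hEx : Ex I i j l := ⟨a', b', c', by simpa using sub_mem hmem hβI⟩
        have hj := (Ex_iff hx i j l).mp hEx
        by_cases hbig : rr I i (l / 2) + rr I i ((l + 1) / 2) ≤ j
        · obtain ⟨a₁, b₁, c₁, h1⟩ := (Ex_iff hx i (rr I i (l / 2)) (l / 2)).mpr le_rfl
          obtain ⟨a₂, b₂, c₂, h2⟩ := (Ex_iff hx i (j - rr I i (l / 2)) ((l + 1) / 2)).mpr
            (by omega)
          obtain ⟨a₃, b₃, c₃, h3⟩ := low_mul (rr I i (l / 2)) (l / 2) (j - rr I i (l / 2))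
            ((l + 1) / 2) a₁ b₁ c₁ a₂ b₂ c₂
          refine ⟨a₃, b₃, c₃, 0, Bx_zero _, ?_⟩
          have := hprod i _ _ h1 h2
          rw [h3] at this
          have e1 : rr I i (l / 2) + (j - rr I i (l / 2)) = j := by omega
          have e2 : l / 2 + (l + 1) / 2 = l := by omega
          rw [e1, e2] at this
          rw [add_zero]; exact this
        · push Not at hbig
          have hiN : i < N := by
            by_contra hi; push Not at hi
            rw [rr_zero_i hx _ hi, rr_zero_i hx _ hi] at hbig; omega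
          have hlN : l < 2 * N := by
            by_contra hl; push Not at hl
            rw [rr_zero_l hx i (show N ≤ l / 2 by omega),
              rr_zero_l hx i (show N ≤ (l + 1) / 2 by omega)] at hbig; omega
          have hmemS : (⟨(i, l), j - rr I i l⟩ : (_ : ℕ × ℕ) × ℕ) ∈ Sext I N := by
            unfold Sext
            rw [Finset.mem_sigma, Finset.mem_product, Finset.mem_range, Finset.mem_range,
              Finset.mem_range]
            refine ⟨⟨hiN, hlN⟩, ?_⟩
            simp only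
            omega
          refine ⟨ga ⟨_, hmemS⟩, gb ⟨_, hmemS⟩, gc ⟨_, hmemS⟩, 0, Bx_zero _, ?_⟩
          have h1 := hg ⟨_, hmemS⟩
          have h2 := hzero ⟨_, hmemS⟩
          rw [hge] at h2
          simp only at h1 h2
          have e1 : rr I i l + (j - rr I i l) = j := by omega
          rw [e1] at h1 h2
          rw [add_zero]
          exact ⟨h1, h2⟩
    apply hrig
    intro g hgI
    apply hτ
    intro h
    have h1 : h * g ∈ I := I.mul_mem_left _ hgI
    have h2 := (hfill (show h * g ∈ I.restrictScalars L from h1)).2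
    rw [cD_mul, map_add, hτ0 _ (I.mul_mem_left _ hgI), zero_add] at h2
    exact h2
  have h1 := (hD.map' _ hker).fintype_card_le_finrank
  rw [Module.finrank_fintype_fun_eq_card, Fintype.card_fin, Fintype.card_coe] at h1
  have h2 := card_ext (I := I) hx
  rw [card_comp hx] at h2
  omega

end Pool.Agent.W457.HC
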