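import Pool.Agent.W457.H5

namespace Pool.Agent.W457.HC

open MvPolynomial

variable {k L : Type*} [Field k] [Field L] [Algebra k L]

/-- restriction to the line through p -/
noncomputable def lineMap (p : Fin 3 → L) : MvPolynomial (Fin 3) L →ₐ[L] Polynomial L :=
  aeval (fun i => Polynomial.C (p i) * Polynomial.X)

lemma coeff_lineMap (p : Fin 3 → L) (g : MvPolynomial (Fin 3) L) (a : ℕ) :
    (lineMap p g).coeff a = eval p (homogeneousComponent a g) := by
  induction g using MvPolynomial.induction_on' with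
  | monomial α c =>
    rw [lineMap, aeval_monomial]
    have h1 : (α.prod fun i e => (Polynomial.C (p i) * Polynomial.X : Polynomial L) ^ e) =
        Polynomial.C (α.prod fun i e => (p i) ^ e) * Polynomial.X ^ α.degree := by
      rw [Finsupp.prod, Finsupp.prod, Finsupp.degree_apply, map_prod, ← Finset.prod_pow_eq_pow_sum,
        ← Finset.prod_mul_distrib]
      refine Finset.prod_congr rfl fun i _ => ?_
      rw [mul_pow, Polynomial.C_pow]
    rw [h1, Polynomial.algebraMap_eq, ← mul_assoc, ← Polynomial.C_mul,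
      Polynomial.coeff_C_mul_X_pow]
    by_cases h : a = α.degree
    · subst h
      rw [if_pos rfl, homogeneousComponent_of_mem (m := α.degree) (n := α.degree)
        ((mem_homogeneousSubmodule _ _).mpr (isHomogeneous_monomial _ rfl)), if_pos rfl, eval_monomial]
    · rw [if_neg h]
      have h2 := homogeneousComponent_of_mem (m := a) (n := α.degree) (p := monomial α c)
        ((mem_homogeneousSubmodule _ _).mpr (isHomogeneous_monomial _ rfl))
      rw [h2, if_neg h, map_zero]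
  | add p q hp hq => rw [map_add, Polynomial.coeff_add, hp, hq, map_add, map_add]

/-- every polynomial is its restriction to the x-axis plus a combination of y and z -/
lemma axis_decomp (q : MvPolynomial (Fin 3) L) :
    ∃ A B, q = Polynomial.aeval (X 0 : MvPolynomial (Fin 3) L) (lineMap ![1, 0, 0] q) +
      X 2 * A + X 1 * B := by
  induction q using MvPolynomial.induction_on with
  | C a => exact ⟨0, 0, by simp [lineMap]⟩
  | add p q hp hq =>
    obtain ⟨A, B, h⟩ := hp
    obtain ⟨A', B', h'⟩ := hq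
    refine ⟨A + A', B + B', ?_⟩
    rw [map_add, map_add]
    linear_combination h + h'
  | mul_X p i hp =>
    obtain ⟨A, B, h⟩ := hp
    rw [map_mul, map_mul]
    fin_cases i
    · refine ⟨A * X 0, B * X 0, ?_⟩
      simp only [lineMap, aeval_X, Fin.zero_eta, Fin.isValue, Matrix.cons_val_zero, map_one,
        one_mul, Polynomial.aeval_X]
      rw [lineMap] at h
      linear_combination (X 0) * h
    · refine ⟨0, p, ?_⟩
      simp [lineMap]; ring
    · refine ⟨p, 0, ?_⟩
      simp [lineMap]; ring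

/-- change of coordinates -/
noncomputable def sub3 (c0 c1 c2 : L) : MvPolynomial (Fin 3) L →ₐ[L] MvPolynomial (Fin 3) L :=
  aeval ![C c0 * X 0, X 1 + C c1 * X 0, X 2 + C c2 * X 0]

@[simp] lemma sub3_X0 (c0 c1 c2 : L) : sub3 c0 c1 c2 (X 0) = C c0 * X 0 := by simp [sub3]
@[simp] lemma sub3_X1 (c0 c1 c2 : L) : sub3 c0 c1 c2 (X 1) = X 1 + C c1 * X 0 := by simp [sub3]
@[simp] lemma sub3_X2 (c0 c1 c2 : L) : sub3 c0 c1 c2 (X 2) = X 2 + C c2 * X 0 := by simp [sub3]
@[simp] lemma sub3_C (c0 c1 c2 c : L) : sub3 c0 c1 c2 (C c) = C c := by simp [sub3]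

lemma sub3_comp {c0 c1 c2 d0 d1 d2 : L} (h0 : c0 * d0 = 1) (h1 : c1 + d1 * c0 = 0)
    (h2 : c2 + d2 * c0 = 0) (q : MvPolynomial (Fin 3) L) :
    sub3 c0 c1 c2 (sub3 d0 d1 d2 q) = q := by
  have h0' : (C c0 : MvPolynomial (Fin 3) L) * C d0 = 1 := by rw [← C_mul, h0, C_1]
  have h1' : (C c1 : MvPolynomial (Fin 3) L) + C d1 * C c0 = 0 := by
    rw [← C_mul, ← C_add, h1, C_0]
  have h2' : (C c2 : MvPolynomial (Fin 3) L) + C d2 * C c0 = 0 := by
    rw [← C_mul, ← C_add, h2, C_0]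
  have : (sub3 c0 c1 c2).comp (sub3 d0 d1 d2) = AlgHom.id L (MvPolynomial (Fin 3) L) := by
    apply MvPolynomial.algHom_ext
    intro i
    fin_cases i
    · change sub3 c0 c1 c2 (sub3 d0 d1 d2 (X 0)) = X 0
      rw [sub3_X0, map_mul, sub3_C, sub3_X0]
      linear_combination (X 0) * h0'
    · change sub3 c0 c1 c2 (sub3 d0 d1 d2 (X 1)) = X 1
      rw [sub3_X1, map_add, map_mul, sub3_C, sub3_X0, sub3_X1]
      linear_combination (X 0) * h1'
    · change sub3 c0 c1 c2 (sub3 d0 d1 d2 (X 2)) = X 2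
      rw [sub3_X2, map_add, map_mul, sub3_C, sub3_X0, sub3_X2]
      linear_combination (X 0) * h2'
  exact AlgHom.congr_fun this q

lemma sub3_inv1 {c0 : L} (c1 c2 : L) (h : c0 ≠ 0) (q : MvPolynomial (Fin 3) L) :
    sub3 c0 c1 c2 (sub3 c0⁻¹ (-(c1 * c0⁻¹)) (-(c2 * c0⁻¹)) q) = q := by
  apply sub3_comp
  · exact mul_inv_cancel₀ h
  · rw [neg_mul, mul_assoc, inv_mul_cancel₀ h]; ring
  · rw [neg_mul, mul_assoc, inv_mul_cancel₀ h]; ring

lemma sub3_inv2 {c0 : L} (c1 c2 : L) (h : c0 ≠ 0) (q : MvPolynomial (Fin 3) L) :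
    sub3 c0⁻¹ (-(c1 * c0⁻¹)) (-(c2 * c0⁻¹)) (sub3 c0 c1 c2 q) = q := by
  apply sub3_comp
  · exact inv_mul_cancel₀ h
  · ring
  · ring

/-- the coordinate change as an algebra equivalence -/
noncomputable def chgEquiv (c0 c1 c2 : L) (h : c0 ≠ 0) :
    MvPolynomial (Fin 3) L ≃ₐ[L] MvPolynomial (Fin 3) L where
  toFun := sub3 c0 c1 c2
  invFun := sub3 c0⁻¹ (-(c1 * c0⁻¹)) (-(c2 * c0⁻¹))
  left_inv := sub3_inv2 c1 c2 h
  right_inv := sub3_inv1 c1 c2 h
  map_mul' := map_mul _
  map_add' := map_add _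
  commutes' := fun r => AlgHom.commutes _ r

lemma cD_sub3 (D : Derivation k L L) {c0 c1 c2 : L} (h0 : D c0 = 0) (h1 : D c1 = 0)
    (h2 : D c2 = 0) (q : MvPolynomial (Fin 3) L) :
    cD D (sub3 c0 c1 c2 q) = sub3 c0 c1 c2 (cD D q) := by
  have hX : ∀ i, cD D (sub3 c0 c1 c2 (X i : MvPolynomial (Fin 3) L)) = 0 := by
    intro i
    fin_cases i
    · change cD D (sub3 c0 c1 c2 (X 0)) = 0
      rw [sub3_X0, cD_mul, cD_C, h0, C_0, cD_X]; ring
    · change cD D (sub3 c0 c1 c2 (X 1)) = 0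
      rw [sub3_X1, cD_add, cD_mul, cD_C, h1, C_0, cD_X, cD_X]; ring
    · change cD D (sub3 c0 c1 c2 (X 2)) = 0
      rw [sub3_X2, cD_add, cD_mul, cD_C, h2, C_0, cD_X, cD_X]; ring
  induction q using MvPolynomial.induction_on with
  | C a => rw [cD_C, sub3_C, sub3_C, cD_C]
  | add p q hp hq => rw [map_add, cD_add, hp, hq, cD_add, map_add]
  | mul_X q i hq =>
    rw [map_mul, cD_mul, hX, mul_zero, add_zero, hq, cD_mul, cD_X, mul_zero, add_zero, map_mul]

lemma lineMap_sub3 (c0 c1 c2 : L) (g : MvPolynomial (Fin 3) L) :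
    lineMap ![1, 0, 0] (sub3 c0 c1 c2 g) = lineMap ![c0, c1, c2] g := by
  have : (lineMap ![1, 0, 0]).comp (sub3 c0 c1 c2) = lineMap ![c0, c1, c2] := by
    apply MvPolynomial.algHom_ext
    intro i
    fin_cases i <;> simp [lineMap, sub3]
  exact AlgHom.congr_fun this g

end Pool.Agent.W457.HC
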