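import Pool.Agent.W457.H6

namespace Pool.Agent.W457.HC

open MvPolynomial

variable {k L : Type*} [Field k] [Field L] [Algebra k L]

/-- after a coordinate change the x-axis detects the order -/
lemma Ex_of_line {I' : Ideal (MvPolynomial (Fin 3) L)} {q : MvPolynomial (Fin 3) L} {a : ℕ}
    (hq : q ∈ I') (h0 : ∀ d < a, (lineMap ![1, 0, 0] q).coeff d = 0)
    (h1 : (lineMap ![1, 0, 0] q).coeff a ≠ 0) : Ex I' 0 0 a := by
  obtain ⟨A, B, h⟩ := axis_decomp q
  set P := lineMap ![1, 0, 0] q with hP
  obtain ⟨P1, hP1⟩ := Polynomial.X_pow_dvd_iff.mpr h0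
  have hc : P1.coeff 0 = P.coeff a := by
    rw [hP1, Polynomial.coeff_X_pow_mul']; simp
  have hdec : P1 = Polynomial.C (P.coeff a) + Polynomial.X * P1.divX := by
    have := Polynomial.divX_mul_X_add P1
    rw [hc] at this
    rw [add_comm, mul_comm]; exact this.symm
  set u := P.coeff a with hu
  set W := Polynomial.aeval (X 0 : MvPolynomial (Fin 3) L) P1.divX with hW
  have e1 : Polynomial.aeval (X 0 : MvPolynomial (Fin 3) L) P =
      X 0 ^ a * (C u + X 0 * W) := by
    rw [hP1, map_mul, map_pow, Polynomial.aeval_X, hdec]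
    rw [map_add, map_mul, Polynomial.aeval_X, Polynomial.aeval_C]
    rfl
  refine ⟨C u⁻¹ * A, C u⁻¹ * B, C u⁻¹ * W, ?_⟩
  have e2 : (C u : MvPolynomial (Fin 3) L) * C u⁻¹ = 1 := by
    rw [← C_mul, mul_inv_cancel₀ h1, C_1]
  convert I'.mul_mem_left (C u⁻¹) hq using 1
  rw [h, e1]
  unfold low
  linear_combination (-(X 0 ^ a)) * e2

theorem boundB [Infinite k] {N r : ℕ} (I : Ideal (MvPolynomial (Fin 3) L))
    [Module.Finite L (MvPolynomial (Fin 3) L ⧸ I)]
    (hN : idealOfVars (Fin 3) L ^ N ≤ I)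
    (f : Fin 3 → MvPolynomial (Fin 3) L) (hf : ∀ i, f i ∈ I)
    (hgen : I ≤ Ideal.span (Set.range f) ⊔ idealOfVars (Fin 3) L * I)
    (τ : MvPolynomial (Fin 3) L →ₗ[L] L) (hτ0 : ∀ g ∈ I, τ g = 0)
    (hτ : ∀ p, (∀ h, τ (h * p) = 0) → p ∈ I)
    (hrig : ∀ D : Derivation k L L, (∀ g ∈ I, cD D g ∈ I) → D = 0)
    (D : Fin r → Derivation k L L) (hD : LinearIndependent L D) :
    ∃ a t ρ, a ≤ 3 * t ∧ r + 3 * t ^ 3 ≤ 3 * Module.finrank L (MvPolynomial (Fin 3) L ⧸ I) ∧
      r + ρ ≤ 3 * Module.finrank L (MvPolynomial (Fin 3) L ⧸ I) ∧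
      Module.finrank L (MvPolynomial (Fin 3) L ⧸ I) ≤ a * ρ := by
  classical
  have hex : ∃ s, ¬ I ≤ idealOfVars (Fin 3) L ^ (s + 1) := by
    refine ⟨N, fun h => ?_⟩
    have h1 : (X 0 : MvPolynomial (Fin 3) L) ^ N ∈ I :=
      hN (Ideal.pow_mem_pow (show X 0 ∈ idealOfVars (Fin 3) L from
        Ideal.subset_span ⟨0, rfl⟩) N)
    have h2 := h h1
    rw [X_pow_eq_monomial, monomial_mem_pow_idealOfVars_iff _ _ one_ne_zero] at h2
    simp at h2
  set a := Nat.find hex with ha
  have hna : ¬ I ≤ idealOfVars (Fin 3) L ^ (a + 1) := Nat.find_spec hex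
  have hIa : I ≤ idealOfVars (Fin 3) L ^ a := by
    rcases Nat.eq_zero_or_pos a with h | h
    · rw [h, pow_zero]; exact le_top.trans_eq Ideal.one_eq_top.symm
    · have := Nat.find_min hex (m := a - 1) (by omega)
      push Not at this
      rwa [Nat.sub_add_cancel h] at this
  obtain ⟨g, hgI, hg⟩ := SetLike.not_le_iff_exists.mp hna
  have hga := hIa hgI
  rw [mem_pow_idealOfVars_iff'] at hg hga
  push Not at hg
  obtain ⟨x0, hx0, hx0'⟩ := hg
  have hdeg : x0.degree = a := by
    by_contra hne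
    exact hx0' (hga x0 (by omega))
  have hhom : homogeneousComponent a g ≠ 0 := by
    intro h
    have := congrArg (coeff x0) h
    rw [coeff_homogeneousComponent, if_pos hdeg, coeff_zero] at this
    exact hx0' this
  have hprod : homogeneousComponent a g * X 0 ≠ 0 := mul_ne_zero hhom (X_ne_zero 0)
  have hpt : ∃ p : Fin 3 → k, eval (fun i => algebraMap k L (p i))
      (homogeneousComponent a g * X 0) ≠ 0 := by
    by_contra hcon
    push Not at hcon
    apply hprod
    apply funext_set (fun _ => Set.range (algebraMap k L))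
      (fun _ => Set.infinite_range_of_injective (algebraMap k L).injective)
    intro x hx
    choose p hp using fun i => hx i (Set.mem_univ i)
    rw [map_zero]
    rw [← hcon p]
    congr 2
    funext i
    exact (hp i).symm
  obtain ⟨p, hp⟩ := hpt
  rw [map_mul, eval_X] at hp
  have hp0 := right_ne_zero_of_mul hp
  have hpa := left_ne_zero_of_mul hp
  set c0 := algebraMap k L (p 0) with hc0
  set c1 := algebraMap k L (p 1) with hc1
  set c2 := algebraMap k L (p 2) with hc2
  set e := chgEquiv c0 c1 c2 hp0 with he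
  set I' : Ideal (MvPolynomial (Fin 3) L) := I.map (e : MvPolynomial (Fin 3) L →+* _) with hI'
  have hmem : ∀ q, q ∈ I' ↔ e.symm q ∈ I := by
    intro q
    constructor
    · intro h
      obtain ⟨y, hy, rfl⟩ := (Ideal.mem_map_iff_of_surjective _ e.surjective).mp h
      simpa using hy
    · intro h
      have := Ideal.mem_map_of_mem (e : MvPolynomial (Fin 3) L →+* MvPolynomial (Fin 3) L) h
      simpa using this
  let eq : (MvPolynomial (Fin 3) L ⧸ I) ≃ₐ[L] (MvPolynomial (Fin 3) L ⧸ I') :=
    Ideal.quotientEquivAlg I I' e rfl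
  have : Module.Finite L (MvPolynomial (Fin 3) L ⧸ I') := Module.Finite.equiv eq.toLinearEquiv
  have hrank : Module.finrank L (MvPolynomial (Fin 3) L ⧸ I') =
      Module.finrank L (MvPolynomial (Fin 3) L ⧸ I) := (eq.toLinearEquiv.finrank_eq).symm
  have hDc : ∀ (D' : Derivation k L L) (c : k), D' (algebraMap k L c) = 0 :=
    fun D' c => D'.map_algebraMap c
  obtain ⟨ρ, h1, h2⟩ := B2 (k := k) (a := a) (N := N) (r := r) I' (by
      intro i
      rw [hmem, map_pow]
      apply hN
      apply Ideal.pow_mem_pow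
      change sub3 c0⁻¹ (-(c1 * c0⁻¹)) (-(c2 * c0⁻¹)) (X i) ∈ _
      have hXm : ∀ j, (X j : MvPolynomial (Fin 3) L) ∈ idealOfVars (Fin 3) L :=
        fun j => Ideal.subset_span ⟨j, rfl⟩
      fin_cases i
      · change sub3 _ _ _ (X 0) ∈ _
        rw [sub3_X0]; exact Ideal.mul_mem_left _ _ (hXm 0)
      · change sub3 _ _ _ (X 1) ∈ _
        rw [sub3_X1]; exact add_mem (hXm 1) (Ideal.mul_mem_left _ _ (hXm 0))
      · change sub3 _ _ _ (X 2) ∈ _
        rw [sub3_X2]; exact add_mem (hXm 2) (Ideal.mul_mem_left _ _ (hXm 0)))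
    (by
      have hline : ∀ d, (lineMap ![1, 0, 0] (e g)).coeff d =
          eval (fun i => algebraMap k L (p i)) (homogeneousComponent d g) := by
        intro d
        change (lineMap ![1, 0, 0] (sub3 c0 c1 c2 g)).coeff d = _
        rw [lineMap_sub3, coeff_lineMap]
        congr 2
        funext i
        fin_cases i <;> rfl
      refine Ex_of_line (q := e g) ?_ ?_ ?_
      · rw [hmem]; simpa using hgI
      · intro d hd
        rw [hline]
        have : homogeneousComponent d g = 0 := by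
          apply homogeneousComponent_eq_zero'
          intro x hx hxd
          exact (mem_support_iff.mp hx) (hga x (by rw [hxd]; exact hd))
        rw [this, map_zero]
      · rw [hline]; exact hpa)
    (τ ∘ₗ e.symm.toLinearEquiv.toLinearMap)
    (by
      intro g' hg'
      exact hτ0 _ ((hmem g').mp hg'))
    (by
      intro p' hp'
      rw [hmem]
      apply hτ
      intro h
      have := hp' (e h)
      simpa using this)
    (by
      intro D' hD'
      apply hrig
      intro g' hg'
      have h3 := hD' (e g') (by rw [hmem]; simpa using hg')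
      rw [hmem] at h3
      have h4 : cD D' (e g') = e (cD D' g') :=
        cD_sub3 D' (hDc D' _) (hDc D' _) (hDc D' _) g'
      rw [h4] at h3
      simpa using h3) D hD
  rw [hrank] at h1 h2
  refine ⟨a, (a + 2) / 3, ρ, by omega, ?_, h1, h2⟩
  exact B1 I hN hIa f hf hgen hrig (by omega) D hD

end Pool.Agent.W457.HC
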