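import Mathlib

namespace Pool.Agent.W457.HC

open MvPolynomial

variable {k L : Type*} [Field k] [Field L] [Algebra k L]

open scoped IntermediateField.algebraAdjoinAdjoin TensorProduct in
theorem exists_der {s : Type*} {v : s → L} (hv : AlgebraicIndependent k v)
    [Algebra.IsSeparable (IntermediateField.adjoin k (Set.range v)) L] (t : s) :
    ∃ D : Derivation k L L, D (v t) = 1 ∧ ∀ j, j ≠ t → D (v j) = 0 := by
  classical
  let φ := hv.aevalEquiv
  let d : Derivation k (Algebra.adjoin k (Set.range v)) L :=
    Derivation.mk' ((Algebra.adjoin k (Set.range v)).val.toLinearMap ∘ₗ φ.toLinearMap ∘ₗ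
      (pderiv t).toLinearMap ∘ₗ φ.symm.toLinearMap) (by
        intro a b
        have h := (pderiv t).leibniz (φ.symm a) (φ.symm b)
        simp only [LinearMap.coe_comp, Function.comp_apply, AlgEquiv.toLinearMap_apply,
          AlgHom.toLinearMap_apply, map_mul]
        change ((φ ((pderiv t) (φ.symm a * φ.symm b)) : Algebra.adjoin k (Set.range v)) : L) = _
        rw [h, map_add, smul_eq_mul, smul_eq_mul, map_mul, map_mul, AlgEquiv.apply_symm_apply,
          AlgEquiv.apply_symm_apply]
        rfl)
  have h1 : Algebra.FormallyEtale (Algebra.adjoin k (Set.range v))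
      (IntermediateField.adjoin k (Set.range v)) := .of_isLocalization (nonZeroDivisors _)
  have h2 : Algebra.FormallyEtale (IntermediateField.adjoin k (Set.range v)) L :=
    .of_isSeparable _ _
  have h3 : Algebra.FormallyEtale (Algebra.adjoin k (Set.range v)) L :=
    .comp _ (IntermediateField.adjoin k (Set.range v)) _
  let e := KaehlerDifferential.tensorKaehlerEquivOfFormallyEtale k
    (Algebra.adjoin k (Set.range v)) L
  let l : (L ⊗[Algebra.adjoin k (Set.range v)] Ω[Algebra.adjoin k (Set.range v)⁄k]) →ₗ[L] L :=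
    (LinearMap.liftBaseChangeEquiv L) d.liftKaehlerDifferential
  have key : ∀ j, (l ∘ₗ e.symm.toLinearMap).compDer (KaehlerDifferential.D k L) (v j) =
      d ⟨v j, Algebra.subset_adjoin ⟨j, rfl⟩⟩ := by
    intro j
    change l (e.symm (KaehlerDifferential.D k L (v j))) = _
    have := KaehlerDifferential.tensorKaehlerEquivOfFormallyEtale_symm_D_algebraMap k
      (Algebra.adjoin k (Set.range v)) L ⟨v j, Algebra.subset_adjoin ⟨j, rfl⟩⟩
    change l (e.symm (KaehlerDifferential.D k L (algebraMap (Algebra.adjoin k (Set.range v)) L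
      ⟨v j, Algebra.subset_adjoin ⟨j, rfl⟩⟩))) = _
    rw [this]
    simp [l]
  have hd : ∀ j, d ⟨v j, Algebra.subset_adjoin ⟨j, rfl⟩⟩ =
      ((φ (pderiv t (X j)) : Algebra.adjoin k (Set.range v)) : L) := by
    intro j
    have : φ.symm ⟨v j, Algebra.subset_adjoin ⟨j, rfl⟩⟩ = X j := by
      rw [AlgEquiv.symm_apply_eq]
      apply Subtype.ext
      simp [φ]
    change ((φ (pderiv t (φ.symm _)) : Algebra.adjoin k (Set.range v)) : L) = _
    rw [this]
  refine ⟨(l ∘ₗ e.symm.toLinearMap).compDer (KaehlerDifferential.D k L), ?_, ?_⟩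
  · rw [key, hd, pderiv_X_self, map_one]; rfl
  · intro j hj
    rw [key, hd, pderiv_X_of_ne hj, map_zero]; rfl

theorem exists_ders [PerfectField k] [Algebra.EssFiniteType k L] {ι : Type*} [Fintype ι]
    {v : ι → L} (hv : AlgebraicIndependent k v) :
    ∃ (r : ℕ) (D : Fin r → Derivation k L L), LinearIndependent L D ∧ Fintype.card ι ≤ r := by
  classical
  obtain ⟨s, hs, hsep⟩ := exists_isTranscendenceBasis_and_isSeparable_of_perfectField k L
  have hsep' : Algebra.IsSeparable
      (IntermediateField.adjoin k (Set.range ((↑) : s → L))) L := by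
    convert hsep <;> simp
  choose D hD1 hD2 using fun t : s => exists_der hs.1 t
  have hli : LinearIndependent L D := by
    rw [Fintype.linearIndependent_iff]
    intro c hc t
    have h := congrArg (fun E : Derivation k L L => E (t : L)) hc
    simp only [Derivation.coe_zero, Pi.zero_apply] at h
    have h' : ∑ i, c i * D i (t : L) = 0 := by
      have h2 : (∑ i, c i • D i) (t : L) = ∑ i, c i * D i (t : L) := by
        have := map_sum (⟨⟨fun E : Derivation k L L => E (t : L), rfl⟩, fun _ _ => rfl⟩ :
          Derivation k L L →+ L) (fun i => c i • D i) Finset.univ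
        exact this
      rw [← h2]; exact h
    rw [Finset.sum_eq_single t] at h'
    · rwa [hD1, mul_one] at h'
    · intro b _ hb
      rw [hD2 b t (Ne.symm hb), mul_zero]
    · intro h; exact absurd (Finset.mem_univ _) h
  have hcard : Fintype.card ι ≤ Fintype.card s := by
    have h1 := hv.lift_cardinalMk_le_trdeg
    have h2 := hs.lift_cardinalMk_eq_trdeg
    rw [Cardinal.lift_id, Cardinal.lift_id] at h2
    rw [← h2] at h1
    simp only [Cardinal.mk_fintype, Cardinal.lift_natCast, Nat.cast_le] at h1
    exact h1
  refine ⟨Fintype.card s, D ∘ (Fintype.equivFin s).symm, hli.comp _ (Equiv.injective _), hcard⟩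

end Pool.Agent.W457.HC
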