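import Pool.Agent.W457.H7
import Pool.Agent.W457.H8

namespace Pool.Agent.W457.HC

open MvPolynomial

/-- coordinates of a punctual ideal in the chart b -/
structure ChartData {n : ℕ} (b : Fin n → Fin 3 →₀ ℕ) {A : Type*} [CommRing A]
    (c : (Fin 3 →₀ ℕ) → Fin n → A) : Prop where
  hb : ∀ i l, c (b i) l = if i = l then 1 else 0
  hmul : ∀ α j l, c (α + Finsupp.single j 1) l = ∑ i, c α i * c (b i + Finsupp.single j 1) l
  hdeg : ∀ α, n ≤ α.degree → ∀ l, c α l = 0

lemma ChartData.map {n : ℕ} {b : Fin n → Fin 3 →₀ ℕ} {A B : Type*} [CommRing A] [CommRing B]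
    {c : (Fin 3 →₀ ℕ) → Fin n → A} (h : ChartData b c) (φ : A →+* B) :
    ChartData b (fun α l => φ (c α l)) where
  hb i l := by
    rw [h.hb]; split_ifs <;> simp
  hmul α j l := by
    rw [h.hmul, map_sum]
    simp only [map_mul]
  hdeg α hα l := by
    rw [h.hdeg α hα, map_zero]

/-- coordinates defined over a subfield -/
lemma ChartData.of_injective {n : ℕ} {b : Fin n → Fin 3 →₀ ℕ} {A B : Type*} [CommRing A]
    [CommRing B] {c : (Fin 3 →₀ ℕ) → Fin n → A} (φ : A →+* B) (hφ : Function.Injective φ)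
    (h : ChartData b (fun α l => φ (c α l))) : ChartData b c where
  hb i l := by
    apply hφ
    rw [h.hb]; split_ifs <;> simp
  hmul α j l := by
    apply hφ
    rw [h.hmul, map_sum]
    simp only [map_mul]
  hdeg α hα l := by
    apply hφ
    rw [h.hdeg α hα, map_zero]

section field
variable {L : Type*} [Field L] {n : ℕ} {b : Fin n → Fin 3 →₀ ℕ}

/-- the class in coordinates -/
noncomputable def ev (c : (Fin 3 →₀ ℕ) → Fin n → L) :
    MvPolynomial (Fin 3) L →ₗ[L] (Fin n → L) :=
  (basisMonomials (Fin 3) L).constr L c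

@[simp] lemma ev_monomial (c : (Fin 3 →₀ ℕ) → Fin n → L) (α : Fin 3 →₀ ℕ) :
    ev c (monomial α 1) = c α := by
  have := (basisMonomials (Fin 3) L).constr_basis L c α
  simpa [ev] using this

lemma ev_apply (c : (Fin 3 →₀ ℕ) → Fin n → L) (g : MvPolynomial (Fin 3) L) :
    ev c g = ∑ α ∈ g.support, coeff α g • c α := by
  conv_lhs => rw [g.as_sum]
  rw [map_sum]
  refine Finset.sum_congr rfl fun α _ => ?_
  have : monomial α (coeff α g) = coeff α g • (monomial α (1 : L)) := by
    rw [smul_monomial, smul_eq_mul, mul_one]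
  rw [this, map_smul, ev_monomial]

lemma ev_X_mul {c : (Fin 3 →₀ ℕ) → Fin n → L} (h : ChartData b c) (j : Fin 3)
    (g : MvPolynomial (Fin 3) L) :
    ev c (X j * g) = fun l => ∑ i, ev c g i * c (b i + Finsupp.single j 1) l := by
  induction g using MvPolynomial.induction_on' with
  | monomial α u =>
    have e1 : (X j * monomial α u : MvPolynomial (Fin 3) L) =
        u • monomial (α + Finsupp.single j 1) 1 := by
      rw [X, monomial_mul, smul_monomial, smul_eq_mul, one_mul, mul_one, add_comm]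
    have e2 : (monomial α u : MvPolynomial (Fin 3) L) = u • monomial α 1 := by
      rw [smul_monomial, smul_eq_mul, mul_one]
    rw [e1, e2, map_smul, map_smul, ev_monomial, ev_monomial]
    funext l
    simp only [Pi.smul_apply, smul_eq_mul]
    rw [h.hmul, Finset.mul_sum]
    refine Finset.sum_congr rfl fun i _ => ?_
    ring
  | add p q hp hq =>
    rw [mul_add, map_add, map_add, hp, hq]
    funext l
    simp only [Pi.add_apply, add_mul, Finset.sum_add_distrib]

lemma ev_mul_zero {c : (Fin 3 →₀ ℕ) → Fin n → L} (h : ChartData b c)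
    (p g : MvPolynomial (Fin 3) L) (hg : ev c g = 0) : ev c (p * g) = 0 := by
  induction p using MvPolynomial.induction_on with
  | C a => rw [← smul_eq_C_mul, map_smul, hg, smul_zero]
  | add p q hp hq => rw [add_mul, map_add, hp, hq, add_zero]
  | mul_X p i hp =>
    rw [show p * X i * g = X i * (p * g) by ring, ev_X_mul h, hp]
    funext l
    simp

/-- the ideal with given coordinates -/
noncomputable def Ic {c : (Fin 3 →₀ ℕ) → Fin n → L} (h : ChartData b c) :
    Ideal (MvPolynomial (Fin 3) L) where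
  carrier := {g | ev c g = 0}
  add_mem' := by
    intro x y hx hy
    simp only [Set.mem_ofPred_eq] at hx hy ⊢
    rw [map_add, hx, hy, add_zero]
  zero_mem' := by simp
  smul_mem' := by
    intro p x hx
    exact ev_mul_zero h p x hx

lemma mem_Ic {c : (Fin 3 →₀ ℕ) → Fin n → L} (h : ChartData b c) (g : MvPolynomial (Fin 3) L) :
    g ∈ Ic h ↔ ev c g = 0 := Iff.rfl

lemma ev_basis {c : (Fin 3 →₀ ℕ) → Fin n → L} (h : ChartData b c) (v : Fin n → L) :
    ev c (∑ i, C (v i) * monomial (b i) 1) = v := by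
  rw [map_sum]
  funext l
  rw [Finset.sum_apply, Finset.sum_eq_single l]
  · rw [← smul_eq_C_mul, map_smul, ev_monomial, Pi.smul_apply, h.hb, if_pos rfl, smul_eq_mul,
      mul_one]
  · intro i _ hi
    rw [← smul_eq_C_mul, map_smul, ev_monomial, Pi.smul_apply, h.hb, if_neg hi, smul_zero]
  · intro h; exact absurd (Finset.mem_univ _) h

/-- the quotient is L^n -/
noncomputable def quotEquiv {c : (Fin 3 →₀ ℕ) → Fin n → L} (h : ChartData b c) :
    (MvPolynomial (Fin 3) L ⧸ Ic h) ≃ₗ[L] (Fin n → L) := by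
  have hk : (Ic h).restrictScalars L = LinearMap.ker (ev c) := by
    ext g; rfl
  have hs : Function.Surjective (ev c) := fun v => ⟨_, ev_basis h v⟩
  exact (Submodule.Quotient.restrictScalarsEquiv L (Ic h)).symm.trans
    ((Submodule.quotEquivOfEq _ _ hk).trans ((ev c).quotKerEquivOfSurjective hs))

lemma finite_quot {c : (Fin 3 →₀ ℕ) → Fin n → L} (h : ChartData b c) :
    Module.Finite L (MvPolynomial (Fin 3) L ⧸ Ic h) :=
  Module.Finite.equiv (quotEquiv h).symm

lemma finrank_quot {c : (Fin 3 →₀ ℕ) → Fin n → L} (h : ChartData b c) :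
    Module.finrank L (MvPolynomial (Fin 3) L ⧸ Ic h) = n := by
  rw [(quotEquiv h).finrank_eq, Module.finrank_fintype_fun_eq_card, Fintype.card_fin]

lemma pow_le_Ic {c : (Fin 3 →₀ ℕ) → Fin n → L} (h : ChartData b c) :
    idealOfVars (Fin 3) L ^ n ≤ Ic h := by
  intro g hg
  rw [mem_pow_idealOfVars_iff'] at hg
  rw [mem_Ic, ev_apply]
  refine Finset.sum_eq_zero fun α hα => ?_
  have : n ≤ α.degree := by
    by_contra hlt
    exact (mem_support_iff.mp hα) (hg α (by omega))
  have hz : c α = 0 := by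
    funext l; exact h.hdeg α this l
  rw [hz, smul_zero]

/-- the normal form relation -/
noncomputable def gg (b : Fin n → Fin 3 →₀ ℕ) (c : (Fin 3 →₀ ℕ) → Fin n → L)
    (α : Fin 3 →₀ ℕ) : MvPolynomial (Fin 3) L :=
  monomial α 1 - ∑ i, C (c α i) * monomial (b i) 1

lemma gg_mem {c : (Fin 3 →₀ ℕ) → Fin n → L} (h : ChartData b c) (α : Fin 3 →₀ ℕ) :
    gg b c α ∈ Ic h := by
  rw [mem_Ic, gg, map_sub, ev_basis h, ev_monomial, sub_self]

lemma rigid {k : Type*} [Field k] [Algebra k L] {c : (Fin 3 →₀ ℕ) → Fin n → L}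
    (h : ChartData b c)
    (hgen : IntermediateField.adjoin k (Set.range (fun p : (Fin 3 →₀ ℕ) × Fin n => c p.1 p.2)) = ⊤)
    (D : Derivation k L L) (hD : ∀ g ∈ Ic h, cD D g ∈ Ic h) : D = 0 := by
  have h1 : ∀ α l, D (c α l) = 0 := by
    intro α l
    have h2 := hD _ (gg_mem h α)
    have h3 : cD D (gg b c α) = - ∑ i, C (D (c α i)) * monomial (b i) 1 := by
      rw [gg, cD_sub, cD_monomial_one, zero_sub, cD_sum]
      congr 1
      refine Finset.sum_congr rfl fun i _ => ?_
      rw [cD_Cmul, cD_monomial_one, mul_zero, add_zero]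
    rw [h3, neg_mem_iff, mem_Ic, ev_basis h (fun i => D (c α i))] at h2
    exact congrFun h2 l
  ext x
  have hx : x ∈ IntermediateField.adjoin k
      (Set.range (fun p : (Fin 3 →₀ ℕ) × Fin n => c p.1 p.2)) := by
    rw [hgen]; trivial
  rw [Derivation.coe_zero, Pi.zero_apply]
  induction hx using IntermediateField.adjoin_induction with
  | mem x hx =>
    obtain ⟨p, rfl⟩ := hx
    exact h1 _ _
  | algebraMap x => exact D.map_algebraMap x
  | add x y _ _ hx hy => rw [map_add, hx, hy, add_zero]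
  | inv x _ hx => rw [Derivation.leibniz_inv, hx, smul_zero]
  | mul x y _ _ hx hy => rw [Derivation.leibniz, hx, hy, smul_zero, smul_zero, add_zero]

/-- the functional -/
noncomputable def tau (c : (Fin 3 →₀ ℕ) → Fin n → L) (t : Fin n → L) :
    MvPolynomial (Fin 3) L →ₗ[L] L :=
  (Fintype.linearCombination L t) ∘ₗ ev c

lemma tau_apply (c : (Fin 3 →₀ ℕ) → Fin n → L) (t : Fin n → L) (g : MvPolynomial (Fin 3) L) :
    tau c t g = ∑ l, ev c g l * t l := by
  simp [tau, Fintype.linearCombination_apply]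

lemma tau_zero {c : (Fin 3 →₀ ℕ) → Fin n → L} (h : ChartData b c) (t : Fin n → L) :
    ∀ g ∈ Ic h, tau c t g = 0 := by
  intro g hg
  rw [tau_apply, (mem_Ic h g).mp hg]
  simp

lemma tau_nondeg {c : (Fin 3 →₀ ℕ) → Fin n → L} (h : ChartData b c) (t : Fin n → L)
    (hdet : (Matrix.of fun i j : Fin n => ∑ l, c (b i + b j) l * t l).det ≠ 0)
    (p : MvPolynomial (Fin 3) L) (hp : ∀ q, tau c t (q * p) = 0) : p ∈ Ic h := by
  rw [mem_Ic]
  set v := ev c p with hv
  have h1 : p - ∑ i, C (v i) * monomial (b i) 1 ∈ Ic h := by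
    rw [mem_Ic, map_sub, ev_basis h, hv, sub_self]
  have h2 : ∀ i, tau c t (monomial (b i) 1 * ∑ j, C (v j) * monomial (b j) 1) = 0 := by
    intro i
    have h3 := tau_zero h t _ ((Ic h).mul_mem_left (monomial (b i) 1) h1)
    rw [mul_sub, map_sub, hp, zero_sub, neg_eq_zero] at h3
    exact h3
  have h4 : (Matrix.of fun i j : Fin n => ∑ l, c (b i + b j) l * t l).mulVec v = 0 := by
    funext i
    rw [Pi.zero_apply, ← h2 i, Finset.mul_sum, map_sum, Matrix.mulVec, dotProduct]
    refine Finset.sum_congr rfl fun j _ => ?_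
    rw [Matrix.of_apply, show monomial (b i) 1 * (C (v j) * monomial (b j) (1 : L)) =
      v j • (monomial (b i + b j) 1) by
        rw [smul_eq_C_mul, mul_left_comm, monomial_mul, mul_one], map_smul, tau_apply, ev_monomial,
        smul_eq_mul, mul_comm]
  exact Matrix.eq_zero_of_mulVec_eq_zero hdet h4

end field

end Pool.Agent.W457.HC
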