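import Mathlib

/-!
Frankl's union-closed sets conjecture for families of bounded length
(every chain of nonempty members has at most five sets).
-/

namespace Pool.Agent.W457.Len

open Finset

variable {α : Type*} [DecidableEq α]

/-- The largest member avoiding `S`. -/
def core (A : Finset (Finset α)) (S : Finset α) : Finset α :=
  (A.filter (fun X => Disjoint X S)).sup id

/-- The largest member inside `Y` avoiding `p` and `q`. -/
def rho (A : Finset (Finset α)) (p q : α) (Y : Finset α) : Finset α :=
  (A.filter (fun Z => Z ⊆ Y ∧ p ∉ Z ∧ q ∉ Z)).sup id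

section
variable {A : Finset (Finset α)}
  (hU : ∀ X ∈ A, ∀ Y ∈ A, X ∪ Y ∈ A) (h0 : ∅ ∈ A)

include hU h0 in
theorem core_mem (S : Finset α) : core A S ∈ A := by
  have := Finset.sup_mem (↑A : Set (Finset α)) (by simpa using h0)
    (fun x hx y hy => by simpa using hU x (by simpa using hx) y (by simpa using hy))
    (A.filter (fun X => Disjoint X S)) id (fun X hX => by
      simp only [mem_filter] at hX; simpa using hX.1)
  simpa [core] using this

theorem le_core {S X : Finset α} (hX : X ∈ A) (h : Disjoint X S) : X ⊆ core A S := by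
  have : id X ≤ (A.filter (fun X => Disjoint X S)).sup id :=
    Finset.le_sup (f := id) (mem_filter.2 ⟨hX, h⟩)
  simpa [core] using this

theorem core_disj (S : Finset α) : Disjoint (core A S) S := by
  rw [Finset.disjoint_left]
  intro a ha hS
  simp only [core, Finset.mem_sup, mem_filter, id] at ha
  obtain ⟨X, ⟨_, hd⟩, haX⟩ := ha
  exact (Finset.disjoint_left.1 hd) haX hS

theorem not_mem_core {S : Finset α} {a : α} (h : a ∈ S) : a ∉ core A S := fun h' =>
  Finset.disjoint_left.1 (core_disj (A := A) S) h' h

theorem core_anti {S T : Finset α} (h : S ⊆ T) : core A T ⊆ core A S := by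
  apply Finset.sup_mono
  intro X hX
  simp only [mem_filter] at hX ⊢
  exact ⟨hX.1, hX.2.mono_right h⟩

theorem sub_E {X : Finset α} (hX : X ∈ A) : X ⊆ core A ∅ := le_core hX (by simp)

theorem rho_core (p q : α) (S : Finset α) : rho A p q (core A S) = core A (S ∪ {p, q}) := by
  unfold rho
  conv_rhs => unfold core
  congr 1
  apply Finset.filter_congr
  intro Z hZ
  constructor
  · rintro ⟨h1, h2, h3⟩
    rw [Finset.disjoint_union_right]
    refine ⟨(core_disj (A := A) S).mono_left h1, ?_⟩
    rw [Finset.disjoint_right]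
    intro a ha
    simp only [mem_insert, mem_singleton] at ha
    rcases ha with rfl | rfl <;> assumption
  · intro h
    rw [Finset.disjoint_union_right] at h
    refine ⟨le_core hZ h.1, ?_, ?_⟩
    · exact fun hp => Finset.disjoint_left.1 h.2 hp (by simp)
    · exact fun hp => Finset.disjoint_left.1 h.2 hp (by simp)

/-- the four classes of members with respect to a pair of elements -/
theorem card_split (p q : α) :
    A.card + (A.filter (fun X => p ∈ X ∧ q ∈ X)).card
      = (A.filter (fun X => p ∉ X ∧ q ∉ X)).card + (A.filter (fun X => p ∈ X)).card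
        + (A.filter (fun X => q ∈ X)).card := by
  have h1 : (A.filter (fun X => p ∈ X ∨ q ∈ X)).card + (A.filter (fun X => p ∈ X ∧ q ∈ X)).card
      = (A.filter (fun X => p ∈ X)).card + (A.filter (fun X => q ∈ X)).card := by
    rw [Finset.filter_or, Finset.filter_and]
    exact Finset.card_union_add_card_inter _ _
  have h2 : (A.filter (fun X => p ∈ X ∨ q ∈ X)).card + (A.filter (fun X => ¬ (p ∈ X ∨ q ∈ X))).card
      = A.card := Finset.card_filter_add_card_filter_not _
  have h3 : (A.filter (fun X => ¬ (p ∈ X ∨ q ∈ X))) = A.filter (fun X => p ∉ X ∧ q ∉ X) := by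
    apply Finset.filter_congr; intro X _; tauto
  rw [h3] at h2
  omega

end

section
variable {A : Finset (Finset α)}

/-- `p` is not dominated by another element. -/
def Und (A : Finset (Finset α)) (p : α) : Prop :=
  ∀ i ∈ core A ∅, p ∉ core A {i} → i ∉ core A {p}

theorem surj_card {p q : α} {F : Finset (Finset α)} {U0 : Finset (Finset α)}
    (hF : F ⊆ A.filter (fun X => p ∈ X ∧ q ∈ X))
    (h : ∀ X ∈ U0, ∃ S, core A S ∈ F ∧ core A (S ∪ {p, q}) = X) :
    U0.card ≤ F.card := by
  apply Finset.card_le_card_of_surjOn (rho A p q)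
  intro X hX
  obtain ⟨S, hS, hSX⟩ := h X (by simpa using hX)
  exact ⟨core A S, by simpa using hS, by rw [rho_core]; exact hSX⟩

/-- In a counterexample the sets avoiding two elements outnumber those containing both. -/
theorem count_pair (hf : ∀ i ∈ core A ∅, 2 * (A.filter (fun X => i ∈ X)).card < A.card)
    {p q : α} (hp : p ∈ core A ∅) (hq : q ∈ core A ∅) :
    (A.filter (fun X => p ∈ X ∧ q ∈ X)).card + 1 ≤ (A.filter (fun X => p ∉ X ∧ q ∉ X)).card := by
  have h := card_split (A := A) p q
  have h1 := hf p hp
  have h2 := hf q hq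
  omega

variable (hU : ∀ X ∈ A, ∀ Y ∈ A, X ∪ Y ∈ A) (h0 : ∅ ∈ A)
  (hf : ∀ i ∈ core A ∅, 2 * (A.filter (fun X => i ∈ X)).card < A.card)

include hU h0

theorem E_mem : core A ∅ ∈ A := core_mem hU h0 ∅

theorem exists_und (i : α) (hi : i ∈ core A ∅) :
    ∃ p ∈ core A ∅, Und A p ∧ i ∉ core A {p} := by
  classical
  obtain ⟨p, hp, hmax⟩ := Finset.exists_max_image ((core A ∅).filter (fun p => i ∉ core A {p}))
    (fun p => (A.filter (fun X => p ∈ X)).card) ⟨i, by
      simp only [mem_filter]; exact ⟨hi, not_mem_core (by simp)⟩⟩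
  simp only [mem_filter] at hp hmax
  refine ⟨p, hp.1, ?_, hp.2⟩
  intro j hj hpj
  -- every member containing p contains j
  have hsub : A.filter (fun X => p ∈ X) ⊆ A.filter (fun X => j ∈ X) := by
    intro X hX
    simp only [mem_filter] at hX ⊢
    refine ⟨hX.1, ?_⟩
    by_contra hjX
    exact hpj (le_core hX.1 (by simpa using hjX) hX.2)
  have hij : i ∉ core A {j} := by
    intro hij
    have hm := core_mem hU h0 {j}
    have hpm : p ∈ core A {j} := by
      by_contra hpm
      exact hp.2 (le_core hm (by simpa using hpm) hij)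
    exact hpj hpm
  have heq := Finset.eq_of_subset_of_card_le hsub (hmax j ⟨hj, hij⟩)
  intro hjp
  have : core A {p} ∈ A.filter (fun X => p ∈ X) := by
    rw [heq]; simp only [mem_filter]; exact ⟨core_mem hU h0 _, hjp⟩
  exact not_mem_core (A := A) (S := {p}) (a := p) (by simp) (mem_filter.1 this).2

theorem not_mem_of_und {p i : α} (hp : Und A p) (hi : i ∈ core A ∅) (h : i ∈ core A {p}) :
    p ∈ core A {i} := by
  by_contra h'
  exact hp i hi h' h

include hf in
theorem core_ne_empty {p : α} (hp : p ∈ core A ∅) : core A {p} ≠ ∅ := by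
  intro he
  have h1 : A ⊆ insert ∅ (A.filter (fun X => p ∈ X)) := by
    intro X hX
    by_cases h : p ∈ X
    · simp [hX, h]
    · have := le_core (S := {p}) hX (by simpa using h)
      rw [he] at this
      simp [Finset.subset_empty.1 this]
  have h2 := Finset.card_le_card h1
  have h3 := Finset.card_insert_le (∅ : Finset α) (A.filter (fun X => p ∈ X))
  have h4 := hf p hp
  have h5 : 0 < (A.filter (fun X => p ∈ X)).card :=
    Finset.card_pos.2 ⟨core A ∅, by simp only [mem_filter]; exact ⟨E_mem hU h0, hp⟩⟩
  omega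

variable (hlen : ∀ X0 ∈ A, ∀ X1 ∈ A, ∀ X2 ∈ A, ∀ X3 ∈ A, ∀ X4 ∈ A, ∀ X5 ∈ A, ∀ X6 ∈ A,
  X1 ⊂ X0 → X2 ⊂ X1 → X3 ⊂ X2 → X4 ⊂ X3 → X5 ⊂ X4 → X6 ⊂ X5 → False)

include hf hlen

/-- Step A: for undominated `p, q` there are no two members strictly between the largest member
avoiding `p, q` and the top. -/
theorem stepA {p q : α} (hp : p ∈ core A ∅) (hq : q ∈ core A ∅) (up : Und A p) (uq : Und A q)
    {A1 A2 : Finset α} (h1 : A1 ∈ A) (h2 : A2 ∈ A)
    (hA1 : A1 ⊂ core A ∅) (hA2 : A2 ⊂ A1) (hP : core A {p, q} ⊂ A2) : False := by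
  have hPm := core_mem hU h0 ({p, q} : Finset α)
  -- the extra member
  have key : ∀ a b : α, a ∈ core A ∅ → b ∈ core A ∅ → Und A a → core A {a, b} ⊂ A2 → a ∉ A1 →
      ∃ U ∈ A, a ∈ U ∧ b ∈ U ∧ core A {a, b} ⊆ U ∧ U ≠ core A ∅ := by
    intro a b ha hb ua hab haA
    have hA1a : A1 ⊆ core A {a} := le_core h1 (by simpa using haA)
    have hs : A2 ⊂ core A {a} := lt_of_lt_of_le hA2 hA1a
    obtain ⟨r, hr, hr2⟩ := Finset.exists_of_ssubset hs
    have hrE : r ∈ core A ∅ := sub_E (core_mem hU h0 _) hr
    have h2r : A2 ⊆ core A {r} := le_core h2 (by simpa using hr2)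
    refine ⟨core A {r}, core_mem hU h0 _, not_mem_of_und hU h0 ua hrE hr, ?_,
      hab.subset.trans h2r, ?_⟩
    · apply h2r
      by_contra hb2
      have : A2 ⊆ core A {a, b} := le_core h2 (by
        rw [Finset.disjoint_right]
        intro c hc
        simp only [mem_insert, mem_singleton] at hc
        rcases hc with rfl | rfl
        · exact fun h => haA (hA2.subset h)
        · exact hb2)
      exact hab.2 this
    · intro h
      exact not_mem_core (A := A) (S := {r}) (a := r) (by simp) (h ▸ hrE)
  have hU' : ∃ U ∈ A, p ∈ U ∧ q ∈ U ∧ core A {p, q} ⊆ U ∧ U ≠ core A ∅ := by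
    by_cases ha : p ∈ A1
    · by_cases hb : q ∈ A1
      · exact ⟨A1, h1, ha, hb, hP.subset.trans hA2.subset, hA1.ne⟩
      · obtain ⟨U, hU1, hU2, hU3, hU4, hU5⟩ := key q p hq hp uq (by
          rw [Finset.pair_comm]; exact hP) hb
        exact ⟨U, hU1, hU3, hU2, by rw [Finset.pair_comm]; exact hU4, hU5⟩
    · exact key p q hp hq up hP ha
  obtain ⟨U, hU1, hU2, hU3, hU4, hU5⟩ := hU'
  have hcount := count_pair hf hp hq
  set F := A.filter (fun X => p ∈ X ∧ q ∈ X) with hF
  set G := A.filter (fun X => p ∉ X ∧ q ∉ X) with hG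
  have hUF : U ∈ F := by simp only [hF, mem_filter]; exact ⟨hU1, hU2, hU3⟩
  have h0G : ∅ ∈ G := by simp [hG, h0]
  have hle : (G.erase ∅).card ≤ (F.erase U).card := by
    apply surj_card (A := A) (p := p) (q := q) (Finset.erase_subset _ _)
    intro X hX
    simp only [hG, mem_erase, mem_filter] at hX
    obtain ⟨hXne, hXA, hpX, hqX⟩ := hX
    have hXP : X ⊆ core A {p, q} := le_core hXA (by
      rw [Finset.disjoint_right]
      intro c hc
      simp only [mem_insert, mem_singleton] at hc
      rcases hc with rfl | rfl <;> assumption)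
    by_cases hXe : X = core A {p, q}
    · refine ⟨∅, ?_, ?_⟩
      · simp only [hF, mem_erase, mem_filter]
        exact ⟨hU5.symm, E_mem hU h0, hp, hq⟩
      · simp [hXe]
    · have hss : X ⊂ core A {p, q} := lt_of_le_of_ne hXP hXe
      obtain ⟨k, hk, hkX⟩ := Finset.exists_of_ssubset hss
      have hkE : k ∈ core A ∅ := sub_E hPm hk
      have hkp : k ∈ core A {p} := core_anti (by simp) hk
      have hkq : k ∈ core A {q} := core_anti (by simp) hk
      refine ⟨{k}, ?_, ?_⟩
      · simp only [hF, mem_erase, mem_filter]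
        refine ⟨?_, core_mem hU h0 _, not_mem_of_und hU h0 up hkE hkp,
          not_mem_of_und hU h0 uq hkE hkq⟩
        intro h
        exact not_mem_core (A := A) (S := {k}) (a := k) (by simp) (h ▸ hU4 hk)
      · have hX2 : X ⊆ core A ({k} ∪ {p, q}) := le_core hXA (by
          rw [Finset.disjoint_right]
          intro c hc
          simp only [mem_union, mem_insert, mem_singleton] at hc
          rcases hc with rfl | rfl | rfl <;> assumption)
        by_contra hne
        have hX3 : X ⊂ core A ({k} ∪ {p, q}) := lt_of_le_of_ne hX2 (Ne.symm hne)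
        have hX4 : core A ({k} ∪ {p, q}) ⊂ core A {p, q} := by
          refine lt_of_le_of_ne (core_anti (by simp)) ?_
          intro h
          exact not_mem_core (A := A) (S := {k} ∪ {p, q}) (a := k) (by simp) (h ▸ hk)
        exact hlen _ (E_mem hU h0) A1 h1 A2 h2 _ hPm _ (core_mem hU h0 _) X hXA ∅ h0
          hA1 hA2 hP hX4 hX3 (Finset.empty_ssubset.2 (Finset.nonempty_iff_ne_empty.2 hXne))
  rw [Finset.card_erase_of_mem hUF, Finset.card_erase_of_mem h0G] at hle
  have : 0 < F.card := Finset.card_pos.2 ⟨U, hUF⟩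
  omega

/-- Step B: every `core A {i}` is a maximal proper member. -/
theorem stepB {i : α} (hi : i ∈ core A ∅) {A1 : Finset α} (h1 : A1 ∈ A)
    (hA1 : A1 ⊂ core A ∅) (h : core A {i} ⊂ A1) : False := by
  obtain ⟨p, hp, up, hip⟩ := exists_und hU h0 i hi
  have hne := core_ne_empty hU h0 hf hp
  obtain ⟨j, hj⟩ := Finset.nonempty_iff_ne_empty.2 hne
  have hjE : j ∈ core A ∅ := sub_E (core_mem hU h0 _) hj
  obtain ⟨q, hq, uq, hjq⟩ := exists_und hU h0 j hjE
  have hpm := core_mem hU h0 ({p} : Finset α)
  have hqp : q ∈ core A {p} := by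
    by_contra hqp
    exact hjq (le_core hpm (by simpa using hqp) hj)
  have hsub : core A {p} ⊆ core A {i} := le_core hpm (by simpa using hip)
  refine stepA hU h0 hf hlen hp hq up uq h1 hpm hA1 (lt_of_le_of_lt hsub h) ?_
  refine lt_of_le_of_ne (core_anti (by simp)) ?_
  intro he
  exact not_mem_core (A := A) (S := {p, q}) (a := q) (by simp) (he ▸ hqp)

theorem symm_mem {i j : α} (hi : i ∈ core A ∅) (hj : j ∈ core A ∅) (h : j ∈ core A {i}) :
    i ∈ core A {j} := by
  by_contra h'
  have hjm := core_mem hU h0 ({j} : Finset α)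
  have him := core_mem hU h0 ({i} : Finset α)
  have hsub : core A {j} ⊆ core A {i} := le_core hjm (by simpa using h')
  refine stepB hU h0 hf hlen hj him ?_ ?_
  · refine lt_of_le_of_ne (sub_E him) ?_
    intro he
    exact not_mem_core (A := A) (S := {i}) (a := i) (by simp) (he ▸ hi)
  · refine lt_of_le_of_ne hsub ?_
    intro he
    exact not_mem_core (A := A) (S := {j}) (a := j) (by simp) (he ▸ h)

theorem all_und {p : α} (hp : p ∈ core A ∅) : Und A p := by
  intro i hi h h'
  exact h (symm_mem hU h0 hf hlen hp hi h')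

theorem final (hne : (core A ∅).Nonempty) : False := by
  classical
  have hEm := E_mem hU h0
  -- a minimal set meeting every nonempty member
  have hcE : core A (core A ∅) = ∅ := by
    have h1 := sub_E (core_mem hU h0 (core A ∅))
    have h2 := core_disj (A := A) (core A ∅)
    exact Finset.disjoint_self_iff_empty _ |>.1 (h2.mono_right h1)
  obtain ⟨T, hT, hTmin⟩ := Finset.exists_min_image
    ((core A ∅).powerset.filter (fun T => core A T = ∅)) Finset.card
    ⟨core A ∅, by simp [hcE]⟩
  simp only [mem_filter, mem_powerset] at hT hTmin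
  obtain ⟨hTE, hT0⟩ := hT
  have hTe : ∀ a ∈ T, core A (T.erase a) ≠ ∅ := by
    intro a ha h
    have := hTmin (T.erase a) ⟨(Finset.erase_subset _ _).trans hTE, h⟩
    rw [Finset.card_erase_of_mem ha] at this
    have : 0 < T.card := Finset.card_pos.2 ⟨a, ha⟩
    omega
  have hTmem : ∀ a ∈ T, ∀ S ⊆ T.erase a, a ∈ core A S := by
    intro a ha S hS
    by_contra h
    apply hTe a ha
    have h1 : a ∉ core A (T.erase a) := fun h' => h (core_anti hS h')
    have h2 : core A (T.erase a) ⊆ core A T := le_core (core_mem hU h0 _) (by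
      rw [Finset.disjoint_right]
      intro c hc
      by_cases hca : c = a
      · rw [hca]; exact h1
      · exact not_mem_core (by simp [hca, hc]))
    rw [hT0] at h2
    exact Finset.subset_empty.1 h2
  have hTne : T.Nonempty := by
    rw [Finset.nonempty_iff_ne_empty]
    rintro rfl
    exact hne.ne_empty hT0
  obtain ⟨p, hpT⟩ := hTne
  have hpE := hTE hpT
  obtain ⟨q, hqT, hqp⟩ : ∃ q ∈ T, q ≠ p := by
    by_contra hcon
    push Not at hcon
    have : T = {p} := by
      ext c; simp only [mem_singleton]; exact ⟨fun h => hcon c h, fun h => h ▸ hpT⟩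
    rw [this] at hT0
    exact core_ne_empty hU h0 hf hpE hT0
  have hqE := hTE hqT
  have hqmp : q ∈ core A {p} := hTmem q hqT {p} (by
    intro c hc; simp only [mem_singleton] at hc; simp [hc, hpT, Ne.symm hqp])
  have hPm := core_mem hU h0 ({p, q} : Finset α)
  have hcount := count_pair hf hpE hqE
  have hle : (A.filter (fun X => p ∉ X ∧ q ∉ X)).card ≤
      (A.filter (fun X => p ∈ X ∧ q ∈ X)).card := by
    apply surj_card (A := A) (p := p) (q := q) (Finset.Subset.refl _)
    intro X hX
    simp only [mem_filter] at hX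
    obtain ⟨hXA, hpX, hqX⟩ := hX
    by_cases hXne : X = ∅
    · refine ⟨(T.erase p).erase q, ?_, ?_⟩
      · simp only [mem_filter]
        refine ⟨core_mem hU h0 _, hTmem p hpT _ (Finset.erase_subset _ _), hTmem q hqT _ ?_⟩
        intro c hc
        simp only [mem_erase] at hc ⊢
        exact ⟨hc.1, hc.2.2⟩
      · have : (T.erase p).erase q ∪ {p, q} = T := by
          ext c
          simp only [mem_union, mem_erase, mem_insert, mem_singleton]
          constructor
          · rintro (h | rfl | rfl)
            · exact h.2.2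
            · exact hpT
            · exact hqT
          · intro h
            by_cases h1 : c = p
            · simp [h1]
            · by_cases h2 : c = q
              · simp [h2]
              · exact Or.inl ⟨h2, h1, h⟩
        rw [this, hT0, hXne]
    have hXP : X ⊆ core A {p, q} := le_core hXA (by
      rw [Finset.disjoint_right]
      intro c hc
      simp only [mem_insert, mem_singleton] at hc
      rcases hc with rfl | rfl <;> assumption)
    by_cases hXe : X = core A {p, q}
    · refine ⟨∅, ?_, ?_⟩
      · simp only [mem_filter]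
        exact ⟨hEm, hpE, hqE⟩
      · simp [hXe]
    have hss : X ⊂ core A {p, q} := lt_of_le_of_ne hXP hXe
    obtain ⟨k, hk, hkX⟩ := Finset.exists_of_ssubset hss
    have hkE : k ∈ core A ∅ := sub_E hPm hk
    have hkp : k ∈ core A {p} := core_anti (by simp) hk
    have hkq : k ∈ core A {q} := core_anti (by simp) hk
    have hpk : p ∈ core A {k} := symm_mem hU h0 hf hlen hpE hkE hkp
    have hqk : q ∈ core A {k} := symm_mem hU h0 hf hlen hqE hkE hkq
    by_cases hX1 : core A ({k} ∪ {p, q}) = X
    · refine ⟨{k}, ?_, hX1⟩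
      simp only [mem_filter]
      exact ⟨core_mem hU h0 _, hpk, hqk⟩
    have hX2 : X ⊆ core A ({k} ∪ {p, q}) := le_core hXA (by
      rw [Finset.disjoint_right]
      intro c hc
      simp only [mem_union, mem_insert, mem_singleton] at hc
      rcases hc with rfl | rfl | rfl <;> assumption)
    have hX3 : X ⊂ core A ({k} ∪ {p, q}) := lt_of_le_of_ne hX2 (Ne.symm hX1)
    obtain ⟨l, hl, hlX⟩ := Finset.exists_of_ssubset hX3
    have hlE : l ∈ core A ∅ := sub_E (core_mem hU h0 _) hl
    have hlk : l ∈ core A {k} := core_anti (by simp) hl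
    -- both p and q lie in core {k, l}
    have thin : ∀ a ∈ core A ∅, a ∈ core A {k} → l ∈ core A {k, a} → a ∈ core A {k, l} := by
      intro a ha hak hla
      by_contra hcon
      have hm2 := core_mem hU h0 ({k, a} : Finset α)
      refine stepA hU h0 hf hlen hkE hlE (all_und hU h0 hf hlen hkE) (all_und hU h0 hf hlen hlE)
        (core_mem hU h0 {k}) hm2 ?_ ?_ ?_
      · refine lt_of_le_of_ne (sub_E (core_mem hU h0 _)) ?_
        intro he
        exact not_mem_core (A := A) (S := {k}) (a := k) (by simp) (he ▸ hkE)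
      · refine lt_of_le_of_ne (core_anti (by simp)) ?_
        intro he
        exact not_mem_core (A := A) (S := {k, a}) (a := a) (by simp) (he ▸ hak)
      · refine lt_of_le_of_ne (le_core (core_mem hU h0 _) ?_) ?_
        · rw [Finset.disjoint_right]
          intro c hc
          simp only [mem_insert, mem_singleton] at hc
          rcases hc with rfl | rfl
          · exact not_mem_core (by simp)
          · exact hcon
        · intro he
          exact not_mem_core (A := A) (S := {k, l}) (a := l) (by simp) (he ▸ hla)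
    have hpkl : p ∈ core A {k, l} := thin p hpE hpk (core_anti (by
      intro c hc; simp only [mem_insert, mem_singleton, mem_union] at hc ⊢; tauto) hl)
    have hqkl : q ∈ core A {k, l} := thin q hqE hqk (core_anti (by
      intro c hc; simp only [mem_insert, mem_singleton, mem_union] at hc ⊢; tauto) hl)
    refine ⟨{k, l}, ?_, ?_⟩
    · simp only [mem_filter]
      exact ⟨core_mem hU h0 _, hpkl, hqkl⟩
    · have hX4 : X ⊆ core A ({k, l} ∪ {p, q}) := le_core hXA (by
        rw [Finset.disjoint_right]
        intro c hc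
        simp only [mem_union, mem_insert, mem_singleton] at hc
        rcases hc with (rfl | rfl) | rfl | rfl <;> assumption)
      by_contra hne'
      have hX5 : X ⊂ core A ({k, l} ∪ {p, q}) := lt_of_le_of_ne hX4 (Ne.symm hne')
      have hX6 : core A ({k, l} ∪ {p, q}) ⊂ core A ({k} ∪ {p, q}) := by
        refine lt_of_le_of_ne (core_anti ?_) ?_
        · intro c hc; simp only [mem_insert, mem_singleton, mem_union] at hc ⊢; tauto
        · intro he
          exact not_mem_core (A := A) (S := {k, l} ∪ {p, q}) (a := l) (by simp) (he ▸ hl)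
      have hX7 : core A ({k} ∪ {p, q}) ⊂ core A {p, q} := by
        refine lt_of_le_of_ne (core_anti (by simp)) ?_
        intro he
        exact not_mem_core (A := A) (S := {k} ∪ {p, q}) (a := k) (by simp) (he ▸ hk)
      have hX8 : core A {p, q} ⊂ core A {p} := by
        refine lt_of_le_of_ne (core_anti (by simp)) ?_
        intro he
        exact not_mem_core (A := A) (S := {p, q}) (a := q) (by simp) (he ▸ hqmp)
      have hX9 : core A {p} ⊂ core A ∅ := by
        refine lt_of_le_of_ne (core_anti (by simp)) ?_
        intro he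
        exact not_mem_core (A := A) (S := {p}) (a := p) (by simp) (he ▸ hpE)
      exact hlen _ hEm _ (core_mem hU h0 _) _ hPm _ (core_mem hU h0 _) _ (core_mem hU h0 _) X hXA
        ∅ h0 hX9 hX8 hX7 hX6 hX5 (Finset.empty_ssubset.2 (Finset.nonempty_iff_ne_empty.2 hXne))
  omega

end

/-- Frankl's conjecture for families in which every chain of nonempty members has at most
five sets. -/
theorem main (A : Finset (Finset α)) (hU : ∀ X ∈ A, ∀ Y ∈ A, X ∪ Y ∈ A)
    (hne : ∃ X ∈ A, X.Nonempty)
    (hch : ∀ C ⊆ A, (∀ X ∈ C, X.Nonempty) → IsChain (· ⊆ ·) (C : Set (Finset α)) → C.card ≤ 5) :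
    ∃ i ∈ A.sup id, (insert ∅ A).card ≤ 2 * (A.filter (fun X => i ∈ X)).card := by
  classical
  by_contra hcon
  push Not at hcon
  set B := insert ∅ A with hB
  have hcore : core B ∅ = A.sup id := by
    simp [core, hB]
  have hfil : ∀ i, B.filter (fun X => i ∈ X) = A.filter (fun X => i ∈ X) := by
    intro i
    rw [hB, Finset.filter_insert]
    simp
  refine final (A := B) ?_ (by simp [hB]) ?_ ?_ ?_
  · intro X hX Y hY
    simp only [hB, mem_insert] at hX hY ⊢
    rcases hX with rfl | hX
    · simpa using hY
    · rcases hY with rfl | hY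
      · simpa using Or.inr hX
      · exact Or.inr (hU X hX Y hY)
  · intro i hi
    rw [hcore] at hi
    rw [hfil]
    exact hcon i hi
  · intro X0 hX0 X1 hX1 X2 hX2 X3 hX3 X4 hX4 X5 hX5 X6 _ h10 h21 h32 h43 h54 h65
    have hnon : ∀ {X Y : Finset α}, Y ⊂ X → X.Nonempty := fun h =>
      (Finset.empty_subset _).trans_ssubset h |> Finset.empty_ssubset.1
    have hmem : ∀ {X : Finset α}, X ∈ B → X.Nonempty → X ∈ A := by
      intro X hX hne
      simp only [hB, mem_insert] at hX
      rcases hX with rfl | hX
      · exact absurd rfl hne.ne_empty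
      · exact hX
    let f : Fin 6 → Finset α := ![X0, X1, X2, X3, X4, X5]
    have hf : StrictAnti f := by
      rw [Fin.strictAnti_iff_succ_lt]
      intro i
      fin_cases i
      · exact h10
      · exact h21
      · exact h32
      · exact h43
      · exact h54
    have := hch (Finset.univ.image f) ?_ ?_ ?_
    · rw [Finset.card_image_of_injective _ hf.injective] at this
      simp at this
    · intro X hX
      simp only [mem_image, mem_univ, true_and] at hX
      obtain ⟨i, rfl⟩ := hX
      fin_cases i
      · exact hmem hX0 (hnon h10)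
      · exact hmem hX1 (hnon h21)
      · exact hmem hX2 (hnon h32)
      · exact hmem hX3 (hnon h43)
      · exact hmem hX4 (hnon h54)
      · exact hmem hX5 (hnon h65)
    · intro X hX
      simp only [mem_image, mem_univ, true_and] at hX
      obtain ⟨i, rfl⟩ := hX
      fin_cases i
      · exact hnon h10
      · exact hnon h21
      · exact hnon h32
      · exact hnon h43
      · exact hnon h54
      · exact hnon h65
    · intro X hX Y hY _
      simp only [coe_image, Set.mem_image, coe_univ, Set.mem_univ, true_and] at hX hY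
      obtain ⟨i, rfl⟩ := hX
      obtain ⟨j, rfl⟩ := hY
      rcases le_total i j with h | h
      · exact Or.inr (hf.antitone h)
      · exact Or.inl (hf.antitone h)
  · obtain ⟨X, hX, x, hx⟩ := hne
    rw [hcore]
    exact ⟨x, by simp only [Finset.mem_sup, id]; exact ⟨X, hX, hx⟩⟩

end Pool.Agent.W457.Len
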