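import Pool.Agent.W457.LenStrict

namespace Pool.Agent.W457.Len

open Finset

variable {α : Type*} [DecidableEq α]

theorem core_empty (A : Finset (Finset α)) : core A ∅ = A.sup id := by
  simp [core]

/-- A family without a chain of six nonempty members has no chain of seven members. -/
theorem no_chain (A : Finset (Finset α))
    (hch : ∀ C ⊆ A, (∀ X ∈ C, X.Nonempty) → IsChain (· ⊆ ·) (C : Set (Finset α)) → C.card ≤ 5) :
    ∀ X0 ∈ A, ∀ X1 ∈ A, ∀ X2 ∈ A, ∀ X3 ∈ A, ∀ X4 ∈ A, ∀ X5 ∈ A, ∀ X6 ∈ A,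
      X1 ⊂ X0 → X2 ⊂ X1 → X3 ⊂ X2 → X4 ⊂ X3 → X5 ⊂ X4 → X6 ⊂ X5 → False := by
  intro X0 hX0 X1 hX1 X2 hX2 X3 hX3 X4 hX4 X5 hX5 X6 _ h10 h21 h32 h43 h54 h65
  have hnon : ∀ {X Y : Finset α}, Y ⊂ X → X.Nonempty := fun h =>
    (Finset.empty_subset _).trans_ssubset h |> Finset.empty_ssubset.1
  let f : Fin 6 → Finset α := ![X0, X1, X2, X3, X4, X5]
  have hf : StrictAnti f := by
    rw [Fin.strictAnti_iff_succ_lt]
    intro i
    fin_cases i
    · exact h10
    · exact h21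
    · exact h32
    · exact h43
    · exact h54
  have := hch (Finset.univ.image f) ?_ ?_ ?_
  · rw [Finset.card_image_of_injective _ hf.injective] at this
    simp at this
  · intro X hX
    simp only [mem_image, mem_univ, true_and] at hX
    obtain ⟨i, rfl⟩ := hX
    fin_cases i
    · exact hX0
    · exact hX1
    · exact hX2
    · exact hX3
    · exact hX4
    · exact hX5
  · intro X hX
    simp only [mem_image, mem_univ, true_and] at hX
    obtain ⟨i, rfl⟩ := hX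
    fin_cases i
    · exact hnon h10
    · exact hnon h21
    · exact hnon h32
    · exact hnon h43
    · exact hnon h54
    · exact hnon h65
  · intro X hX Y hY _
    simp only [coe_image, Set.mem_image, coe_univ, Set.mem_univ, true_and] at hX hY
    obtain ⟨i, rfl⟩ := hX
    obtain ⟨j, rfl⟩ := hY
    rcases le_total i j with h | h
    · exact Or.inr (hf.antitone h)
    · exact Or.inl (hf.antitone h)

/-- If no element is in more than half of the members, the family is a power set up to twins. -/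
theorem extremal (A : Finset (Finset α)) (hne : A.Nonempty)
    (hU : ∀ X ∈ A, ∀ Y ∈ A, X ∪ Y ∈ A)
    (hf : ∀ i ∈ A.sup id, 2 * (A.filter (fun X => i ∈ X)).card ≤ A.card)
    (hch : ∀ C ⊆ A, (∀ X ∈ C, X.Nonempty) → IsChain (· ⊆ ·) (C : Set (Finset α)) → C.card ≤ 5) :
    ∃ T ⊆ A.sup id, (∀ k ∈ A.sup id, ∃ a ∈ T, ∀ X ∈ A, (k ∈ X ↔ a ∈ X)) ∧
      ∀ S ⊆ T, ∃ X ∈ A, X ∩ T = S := by
  by_cases h0 : ∅ ∈ A
  · have := structure_thm (A := A) hU h0 (by rw [core_empty]; exact hf) (no_chain A hch)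
    rwa [core_empty] at this
  · exfalso
    obtain ⟨X, hX⟩ := hne
    have hXne : X.Nonempty := by
      rw [Finset.nonempty_iff_ne_empty]; rintro rfl; exact h0 hX
    obtain ⟨i, hi, h⟩ := main A hU ⟨X, hX, hXne⟩ hch
    have := hf i hi
    rw [Finset.card_insert_of_notMem h0] at h
    omega

theorem card_extremal (A : Finset (Finset α)) {T : Finset α}
    (h1 : ∀ k ∈ A.sup id, ∃ a ∈ T, ∀ X ∈ A, (k ∈ X ↔ a ∈ X))
    (h2 : ∀ S ⊆ T, ∃ X ∈ A, X ∩ T = S) : A.card = 2 ^ T.card := by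
  rw [← Finset.card_powerset]
  apply Finset.card_bij (fun X _ => X ∩ T)
  · intro X _; simp
  · intro X hX Y hY h
    have hsub : ∀ {Z : Finset α}, Z ∈ A → ∀ k ∈ Z, k ∈ A.sup id := fun hZ k hk => by
      simp only [Finset.mem_sup, id]; exact ⟨_, hZ, hk⟩
    have key : ∀ {Z W : Finset α}, Z ∈ A → W ∈ A → Z ∩ T = W ∩ T → Z ⊆ W := by
      intro Z W hZ hW h k hk
      obtain ⟨a, ha, haX⟩ := h1 k (hsub hZ k hk)
      rw [haX W hW]
      have : a ∈ Z ∩ T := mem_inter.2 ⟨(haX Z hZ).1 hk, ha⟩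
      rw [h] at this
      exact (mem_inter.1 this).1
    exact Finset.Subset.antisymm (key hX hY h) (key hY hX h.symm)
  · intro S hS
    obtain ⟨X, hX, h⟩ := h2 S (by simpa using hS)
    exact ⟨X, hX, h⟩

theorem strict (A : Finset (Finset α)) (hne : A.Nonempty)
    (hU : ∀ X ∈ A, ∀ Y ∈ A, X ∪ Y ∈ A)
    (hsep : ∀ x ∈ A.sup id, ∀ y ∈ A.sup id, x ≠ y → ∃ X ∈ A, ¬ (x ∈ X ↔ y ∈ X))
    (hpow : A ≠ (A.sup id).powerset)
    (hch : ∀ C ⊆ A, (∀ X ∈ C, X.Nonempty) → IsChain (· ⊆ ·) (C : Set (Finset α)) → C.card ≤ 5) :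
    ∃ i ∈ A.sup id, A.card < 2 * (A.filter (fun X => i ∈ X)).card := by
  by_contra hcon
  push Not at hcon
  obtain ⟨T, hT, h1, h2⟩ := extremal A hne hU hcon hch
  have hTE : ∀ k ∈ A.sup id, k ∈ T := by
    intro k hk
    obtain ⟨a, ha, h⟩ := h1 k hk
    by_cases hka : k = a
    · rwa [hka]
    · obtain ⟨X, hX, hX'⟩ := hsep k hk a (hT ha) hka
      exact absurd (h X hX) hX'
  apply hpow
  ext S
  rw [Finset.mem_powerset]
  constructor
  · intro hS k hk
    simp only [Finset.mem_sup, id]; exact ⟨S, hS, hk⟩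
  · intro hS
    obtain ⟨X, hX, h⟩ := h2 S (fun k hk => hTE k (hS hk))
    have : X ∩ T = X := by
      apply Finset.inter_eq_left.2
      intro k hk
      exact hTE k (by simp only [Finset.mem_sup, id]; exact ⟨X, hX, hk⟩)
    rw [← h, this]
    exact hX

end Pool.Agent.W457.Len
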