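import Pool.Agent.W457.Len

/-!
The equality case of Frankl's conjecture for families in which every chain of nonempty members
has at most five sets.
-/

namespace Pool.Agent.W457.Len

open Finset

variable {α : Type*} [DecidableEq α] {A : Finset (Finset α)}

theorem le_count_pair (hf : ∀ i ∈ core A ∅, 2 * (A.filter (fun X => i ∈ X)).card ≤ A.card)
    {p q : α} (hp : p ∈ core A ∅) (hq : q ∈ core A ∅) :
    (A.filter (fun X => p ∈ X ∧ q ∈ X)).card ≤ (A.filter (fun X => p ∉ X ∧ q ∉ X)).card := by
  have h := card_split (A := A) p q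
  have h1 := hf p hp
  have h2 := hf q hq
  omega

variable (hU : ∀ X ∈ A, ∀ Y ∈ A, X ∪ Y ∈ A) (h0 : ∅ ∈ A)
  (hf : ∀ i ∈ core A ∅, 2 * (A.filter (fun X => i ∈ X)).card ≤ A.card)
  (hlen : ∀ X0 ∈ A, ∀ X1 ∈ A, ∀ X2 ∈ A, ∀ X3 ∈ A, ∀ X4 ∈ A, ∀ X5 ∈ A, ∀ X6 ∈ A,
  X1 ⊂ X0 → X2 ⊂ X1 → X3 ⊂ X2 → X4 ⊂ X3 → X5 ⊂ X4 → X6 ⊂ X5 → False)

theorem avoid {S X : Finset α} (h : ∀ a ∈ S, a ∉ X) : Disjoint X S := by
  rw [Finset.disjoint_right]; exact h

include hU h0

theorem core_sub_of {S T : Finset α} (h : ∀ a ∈ T, a ∉ core A S) : core A S ⊆ core A T :=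
  le_core (core_mem hU h0 S) (avoid h)

include hf hlen

/-- Two undominated elements with two members strictly between the top and the largest member
avoiding them: then the empty set is not of the form `rho (core A S)`. -/
theorem stepA' {p q : α} (hp : p ∈ core A ∅) (hq : q ∈ core A ∅) (up : Und A p) (uq : Und A q)
    {A1 A2 : Finset α} (h1 : A1 ∈ A) (h2 : A2 ∈ A)
    (hA1 : A1 ⊂ core A ∅) (hA2 : A2 ⊂ A1) (hP : core A {p, q} ⊂ A2)
    {S : Finset α} (hpS : p ∈ core A S) (hqS : q ∈ core A S)
    (hS : core A (S ∪ {p, q}) = ∅) : False := by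
  have hPm := core_mem hU h0 ({p, q} : Finset α)
  have key : ∀ a b : α, a ∈ core A ∅ → b ∈ core A ∅ → Und A a → core A {a, b} ⊂ A2 → a ∉ A1 →
      ∃ U ∈ A, a ∈ U ∧ b ∈ U ∧ core A {a, b} ⊆ U ∧ U ≠ core A ∅ := by
    intro a b ha hb ua hab haA
    have hA1a : A1 ⊆ core A {a} := le_core h1 (by simpa using haA)
    have hs : A2 ⊂ core A {a} := lt_of_lt_of_le hA2 hA1a
    obtain ⟨r, hr, hr2⟩ := Finset.exists_of_ssubset hs
    have hrE : r ∈ core A ∅ := sub_E (core_mem hU h0 _) hr
    have h2r : A2 ⊆ core A {r} := le_core h2 (by simpa using hr2)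
    refine ⟨core A {r}, core_mem hU h0 _, not_mem_of_und hU h0 ua hrE hr, ?_,
      hab.subset.trans h2r, ?_⟩
    · apply h2r
      by_contra hb2
      have : A2 ⊆ core A {a, b} := le_core h2 (by
        rw [Finset.disjoint_right]
        intro c hc
        simp only [mem_insert, mem_singleton] at hc
        rcases hc with rfl | rfl
        · exact fun h => haA (hA2.subset h)
        · exact hb2)
      exact hab.2 this
    · intro h
      exact not_mem_core (A := A) (S := {r}) (a := r) (by simp) (h ▸ hrE)
  have hU' : ∃ U ∈ A, p ∈ U ∧ q ∈ U ∧ core A {p, q} ⊆ U ∧ U ≠ core A ∅ := by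
    by_cases ha : p ∈ A1
    · by_cases hb : q ∈ A1
      · exact ⟨A1, h1, ha, hb, hP.subset.trans hA2.subset, hA1.ne⟩
      · obtain ⟨U, hU1, hU2, hU3, hU4, hU5⟩ := key q p hq hp uq (by
          rw [Finset.pair_comm]; exact hP) hb
        exact ⟨U, hU1, hU3, hU2, by rw [Finset.pair_comm]; exact hU4, hU5⟩
    · exact key p q hp hq up hP ha
  obtain ⟨U, hU1, hU2, hU3, hU4, hU5⟩ := hU'
  have hcount := le_count_pair hf hp hq
  have hUF : U ∈ A.filter (fun X => p ∈ X ∧ q ∈ X) := by
    simp only [mem_filter]; exact ⟨hU1, hU2, hU3⟩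
  -- a preimage of the empty set different from `U`
  obtain ⟨S0, hS01, hS02, hS03, hS04⟩ : ∃ S0, p ∈ core A S0 ∧ q ∈ core A S0 ∧
      core A (S0 ∪ {p, q}) = ∅ ∧ core A S0 ≠ U := by
    by_cases hPe : core A {p, q} = ∅
    · exact ⟨∅, hp, hq, by simpa using hPe, hU5.symm⟩
    · refine ⟨S, hpS, hqS, hS, ?_⟩
      intro h
      apply hPe
      rw [← Finset.subset_empty, ← hS, ← rho_core, h]
      unfold rho
      have : id (core A {p, q}) ≤ (A.filter (fun Z => Z ⊆ U ∧ p ∉ Z ∧ q ∉ Z)).sup id :=
        Finset.le_sup (f := id) (mem_filter.2 ⟨hPm, hU4, not_mem_core (by simp),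
          not_mem_core (by simp)⟩)
      simpa using this
  have hle : (A.filter (fun X => p ∉ X ∧ q ∉ X)).card ≤
      ((A.filter (fun X => p ∈ X ∧ q ∈ X)).erase U).card := by
    apply surj_card (A := A) (p := p) (q := q) (Finset.erase_subset _ _)
    intro X hX
    simp only [mem_filter] at hX
    obtain ⟨hXA, hpX, hqX⟩ := hX
    by_cases hXne : X = ∅
    · refine ⟨S0, ?_, by rw [hS03, hXne]⟩
      simp only [mem_erase, mem_filter]
      exact ⟨hS04, core_mem hU h0 _, hS01, hS02⟩
    have hXP : X ⊆ core A {p, q} := le_core hXA (by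
      rw [Finset.disjoint_right]
      intro c hc
      simp only [mem_insert, mem_singleton] at hc
      rcases hc with rfl | rfl <;> assumption)
    by_cases hXe : X = core A {p, q}
    · refine ⟨∅, ?_, ?_⟩
      · simp only [mem_erase, mem_filter]
        exact ⟨hU5.symm, E_mem hU h0, hp, hq⟩
      · simp [hXe]
    · have hss : X ⊂ core A {p, q} := lt_of_le_of_ne hXP hXe
      obtain ⟨k, hk, hkX⟩ := Finset.exists_of_ssubset hss
      have hkE : k ∈ core A ∅ := sub_E hPm hk
      have hkp : k ∈ core A {p} := core_anti (by simp) hk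
      have hkq : k ∈ core A {q} := core_anti (by simp) hk
      refine ⟨{k}, ?_, ?_⟩
      · simp only [mem_erase, mem_filter]
        refine ⟨?_, core_mem hU h0 _, not_mem_of_und hU h0 up hkE hkp,
          not_mem_of_und hU h0 uq hkE hkq⟩
        intro h
        exact not_mem_core (A := A) (S := {k}) (a := k) (by simp) (h ▸ hU4 hk)
      · have hX2 : X ⊆ core A ({k} ∪ {p, q}) := le_core hXA (by
          rw [Finset.disjoint_right]
          intro c hc
          simp only [mem_union, mem_insert, mem_singleton] at hc
          rcases hc with rfl | rfl | rfl <;> assumption)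
        by_contra hne
        have hX3 : X ⊂ core A ({k} ∪ {p, q}) := lt_of_le_of_ne hX2 (Ne.symm hne)
        have hX4 : core A ({k} ∪ {p, q}) ⊂ core A {p, q} := by
          refine lt_of_le_of_ne (core_anti (by simp)) ?_
          intro h
          exact not_mem_core (A := A) (S := {k} ∪ {p, q}) (a := k) (by simp) (h ▸ hk)
        exact hlen _ (E_mem hU h0) A1 h1 A2 h2 _ hPm _ (core_mem hU h0 _) X hXA ∅ h0
          hA1 hA2 hP hX4 hX3 (Finset.empty_ssubset.2 (Finset.nonempty_iff_ne_empty.2 hXne))
  rw [Finset.card_erase_of_mem hUF] at hle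
  have : 0 < (A.filter (fun X => p ∈ X ∧ q ∈ X)).card := Finset.card_pos.2 ⟨U, hUF⟩
  omega

omit hlen hf in
theorem dom_mem {i p : α} {X : Finset α} (hX : X ∈ A) (hi : i ∈ X) (h : i ∉ core A {p}) :
    p ∈ X := by
  by_contra hp
  exact h (le_core hX (by simpa using hp) hi)

/-- A smallest set meeting every nonempty member, made of undominated elements. -/
structure Tr (A : Finset (Finset α)) (T : Finset α) : Prop where
  sub : T ⊆ core A ∅
  zero : core A T = ∅
  min : ∀ T' ⊆ core A ∅, core A T' = ∅ → T.card ≤ T'.card
  und : ∀ a ∈ T, Und A a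

omit hlen hf in
theorem exists_tr : ∃ T, Tr A T := by
  classical
  have hcE : core A (core A ∅) = ∅ := by
    have h1 := sub_E (core_mem hU h0 (core A ∅))
    have h2 := core_disj (A := A) (core A ∅)
    exact Finset.disjoint_self_iff_empty _ |>.1 (h2.mono_right h1)
  obtain ⟨T, hT, hTmin⟩ := Finset.exists_min_image
    ((core A ∅).powerset.filter (fun T => core A T = ∅)) Finset.card
    ⟨core A ∅, by simp [hcE]⟩
  simp only [mem_filter, mem_powerset] at hT hTmin
  choose! g hg1 hg2 hg3 using exists_und hU h0
  have h1 : T.image g ⊆ core A ∅ := by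
    intro a ha
    obtain ⟨b, hb, rfl⟩ := mem_image.1 ha
    exact hg1 b (hT.1 hb)
  have h2 : core A (T.image g) = ∅ := by
    rw [← Finset.subset_empty, ← hT.2]
    apply core_sub_of hU h0
    intro a ha ha'
    exact not_mem_core (A := A) (S := T.image g) (a := g a) (mem_image_of_mem g ha)
      (dom_mem hU h0 (core_mem hU h0 _) ha' (hg3 a (hT.1 ha)))
  refine ⟨T.image g, h1, h2, ?_, ?_⟩
  · intro T' hT' hc
    exact Finset.card_image_le.trans (hTmin T' ⟨hT', hc⟩)
  · intro a ha
    obtain ⟨b, hb, rfl⟩ := mem_image.1 ha
    exact hg2 b (hT.1 hb)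

variable {T : Finset α} (hT : Tr A T)

omit hlen hf in
include hT in
theorem tr_mem {a : α} (ha : a ∈ T) {S : Finset α} (hS : S ⊆ T.erase a) : a ∈ core A S := by
  by_contra h
  have h1 : a ∉ core A (T.erase a) := fun h' => h (core_anti hS h')
  have h2 : core A (T.erase a) ⊆ core A T := core_sub_of hU h0 (by
    intro c hc
    by_cases hca : c = a
    · rw [hca]; exact h1
    · exact not_mem_core (by simp [hca, hc]))
  rw [hT.zero] at h2
  have h3 := hT.min (T.erase a) ((Finset.erase_subset _ _).trans hT.sub) (Finset.subset_empty.1 h2)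
  rw [Finset.card_erase_of_mem ha] at h3
  have : 0 < T.card := Finset.card_pos.2 ⟨a, ha⟩
  omega

omit hU h0 hf hlen in
theorem pair_union {p q : α} {T : Finset α} (hp : p ∈ T) (hq : q ∈ T) :
    (T.erase p).erase q ∪ {p, q} = T := by
  ext c
  simp only [mem_union, mem_erase, mem_insert, mem_singleton]
  constructor
  · rintro (h | rfl | rfl)
    · exact h.2.2
    · exact hp
    · exact hq
  · intro h
    by_cases h1 : c = p
    · simp [h1]
    · by_cases h2 : c = q
      · simp [h2]
      · exact Or.inl ⟨h2, h1, h⟩

include hT in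
theorem thinT {p q : α} (hp : p ∈ T) (hq : q ∈ T) {A1 A2 : Finset α} (h1 : A1 ∈ A) (h2 : A2 ∈ A)
    (hA1 : A1 ⊂ core A ∅) (hA2 : A2 ⊂ A1) (hP : core A {p, q} ⊂ A2) : False := by
  refine stepA' hU h0 hf hlen (hT.sub hp) (hT.sub hq) (hT.und p hp) (hT.und q hq) h1 h2 hA1 hA2 hP
    (S := (T.erase p).erase q) (tr_mem hU h0 hT hp (Finset.erase_subset _ _))
    (tr_mem hU h0 hT hq ?_) ?_
  · intro c hc
    simp only [mem_erase] at hc ⊢
    exact ⟨hc.1, hc.2.2⟩
  · rw [pair_union hp hq]; exact hT.zero

omit hf hlen hU h0 in
theorem core_ssub {S S' : Finset α} (h : S ⊆ S') {a : α} (ha : a ∈ S') (ha' : a ∈ core A S) :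
    core A S' ⊂ core A S := by
  refine lt_of_le_of_ne (core_anti h) ?_
  intro he
  exact not_mem_core (A := A) (S := S') ha (he ▸ ha')

set_option maxHeartbeats 2000000 in
include hT in
theorem surjT {p q : α} (hp : p ∈ T) (hq : q ∈ T) (hpq : p ≠ q) {X : Finset α} (hXA : X ∈ A)
    (hpX : p ∉ X) (hqX : q ∉ X) :
    ∃ S, p ∈ core A S ∧ q ∈ core A S ∧ core A (S ∪ {p, q}) = X := by
  have hEm := E_mem hU h0
  have hpE := hT.sub hp
  have hqE := hT.sub hq
  have up := hT.und p hp
  have uq := hT.und q hq
  have hPm := core_mem hU h0 ({p, q} : Finset α)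
  have hqmp : q ∈ core A {p} := tr_mem hU h0 hT hq (by
    intro c hc; simp only [mem_singleton] at hc; simp [hc, hp, hpq])
  by_cases hXne : X = ∅
  · refine ⟨(T.erase p).erase q, tr_mem hU h0 hT hp (Finset.erase_subset _ _),
      tr_mem hU h0 hT hq ?_, ?_⟩
    · intro c hc
      simp only [mem_erase] at hc ⊢
      exact ⟨hc.1, hc.2.2⟩
    · rw [pair_union hp hq, hT.zero, hXne]
  have hXP : X ⊆ core A {p, q} := le_core hXA (by
    rw [Finset.disjoint_right]
    intro c hc
    simp only [mem_insert, mem_singleton] at hc
    rcases hc with rfl | rfl <;> assumption)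
  by_cases hXe : X = core A {p, q}
  · exact ⟨∅, hpE, hqE, by simp [hXe]⟩
  have hss : X ⊂ core A {p, q} := lt_of_le_of_ne hXP hXe
  obtain ⟨k, hk, hkX⟩ := Finset.exists_of_ssubset hss
  have hkE : k ∈ core A ∅ := sub_E hPm hk
  have hkp : k ∈ core A {p} := core_anti (by simp) hk
  have hkq : k ∈ core A {q} := core_anti (by simp) hk
  have hpk : p ∈ core A {k} := not_mem_of_und hU h0 up hkE hkp
  have hqk : q ∈ core A {k} := not_mem_of_und hU h0 uq hkE hkq
  by_cases hX1 : core A ({k} ∪ {p, q}) = X
  · exact ⟨{k}, hpk, hqk, hX1⟩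
  have hX2 : X ⊆ core A ({k} ∪ {p, q}) := le_core hXA (by
    rw [Finset.disjoint_right]
    intro c hc
    simp only [mem_union, mem_insert, mem_singleton] at hc
    rcases hc with rfl | rfl | rfl <;> assumption)
  have hX3 : X ⊂ core A ({k} ∪ {p, q}) := lt_of_le_of_ne hX2 (Ne.symm hX1)
  obtain ⟨l, hl, hlX⟩ := Finset.exists_of_ssubset hX3
  have hlE : l ∈ core A ∅ := sub_E (core_mem hU h0 _) hl
  -- the chain
  have c9 : core A {p} ⊂ core A ∅ := core_ssub (by simp) (by simp) hpE
  have c8 : core A {p, q} ⊂ core A {p} := core_ssub (by simp) (a := q) (by simp) hqmp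
  have c7 : core A ({k} ∪ {p, q}) ⊂ core A {p, q} := core_ssub (by simp) (a := k) (by simp) hk
  have tight : ∀ X' ∈ A, X' ⊂ X → X' = ∅ := by
    intro X' hX' hlt
    by_contra hne
    exact hlen _ hEm _ (core_mem hU h0 _) _ hPm _ (core_mem hU h0 _) X hXA X' hX'
      ∅ h0 c9 c8 c7 hX3 hlt (Finset.empty_ssubset.2 (Finset.nonempty_iff_ne_empty.2 hne))
  have c6 : core A ({k, l} ∪ {p, q}) ⊂ core A ({k} ∪ {p, q}) := core_ssub (by
    intro c hc; simp only [mem_insert, mem_singleton, mem_union] at hc ⊢; tauto) (a := l)
    (by simp) hl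
  have hXkl : core A ({k, l} ∪ {p, q}) = X := by
    have hX4 : X ⊆ core A ({k, l} ∪ {p, q}) := le_core hXA (by
      rw [Finset.disjoint_right]
      intro c hc
      simp only [mem_union, mem_insert, mem_singleton] at hc
      rcases hc with (rfl | rfl) | rfl | rfl <;> assumption)
    by_contra hne'
    have hX5 : X ⊂ core A ({k, l} ∪ {p, q}) := lt_of_le_of_ne hX4 (Ne.symm hne')
    exact hlen _ hEm _ (core_mem hU h0 _) _ hPm _ (core_mem hU h0 _) _ (core_mem hU h0 _) X hXA
      ∅ h0 c9 c8 c7 c6 hX5 (Finset.empty_ssubset.2 (Finset.nonempty_iff_ne_empty.2 hXne))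
  -- an element of `T` in `X`
  obtain ⟨x, hxX, hxT⟩ : ∃ x ∈ X, x ∈ T := by
    by_contra hcon
    push Not at hcon
    have := le_core (S := T) hXA (by rw [Finset.disjoint_left]; exact hcon)
    rw [hT.zero] at this
    exact hXne (Finset.subset_empty.1 this)
  obtain ⟨k', hk'E, uk', hkk'⟩ := exists_und hU h0 k hkE
  obtain ⟨l', hl'E, ul', hll'⟩ := exists_und hU h0 l hlE
  have hlp : l ∈ core A {p} := core_anti (by simp) hl
  have hlq : l ∈ core A {q} := core_anti (by simp) hl
  have main : ∀ a b : α, a ∈ T → b ∈ T → a ≠ b → a ∈ core A {k} → k ∈ core A {a} →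
      k ∈ core A {b} → l ∈ core A {b} → l ∈ core A {k, a} →
      a ∉ X → b ∉ X → core A ({k, l} ∪ {a, b}) = X → a ∈ core A {k, l} := by
    intro a b ha hb hab hak hka hkb hlb hlka haX hbX hXab
    by_contra hcon
    have hbx : b ≠ x := fun h => hbX (h ▸ hxX)
    -- `x` and `b` form a thin pair
    have hfar : ∀ c : α, c ∈ core A {b} → c ∉ core A {b, x} → c ∉ X → False := by
      intro c hcb hcbx hcX
      by_cases he : core A {b, x} = core A {b, c}
      · have h3 : X ⊆ core A {b, c} := le_core hXA (by
          rw [Finset.disjoint_right]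
          intro d hd
          simp only [mem_insert, mem_singleton] at hd
          rcases hd with rfl | rfl <;> assumption)
        rw [← he] at h3
        exact not_mem_core (A := A) (S := {b, x}) (a := x) (by simp) (h3 hxX)
      · have h3 : core A {b, x} ⊂ core A {b, c} := by
          refine lt_of_le_of_ne ?_ he
          apply core_sub_of hU h0
          intro d hd
          simp only [mem_insert, mem_singleton] at hd
          rcases hd with rfl | rfl
          · exact not_mem_core (by simp)
          · exact hcbx
        exact thinT hU h0 hf hlen hT hb hxT (core_mem hU h0 {b}) (core_mem hU h0 {b, c})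
          (core_ssub (by simp) (a := b) (by simp) (hT.sub hb))
          (core_ssub (by simp) (a := c) (by simp) hcb) h3
    have hsub' : core A {k', l'} ⊆ core A {k, l} := by
      apply core_sub_of hU h0
      intro d hd
      simp only [mem_insert, mem_singleton] at hd
      rcases hd with rfl | rfl
      · intro hd'
        exact not_mem_core (A := A) (S := {k', l'}) (a := k') (by simp)
          (dom_mem hU h0 (core_mem hU h0 _) hd' hkk')
      · intro hd'
        exact not_mem_core (A := A) (S := {k', l'}) (a := l') (by simp)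
          (dom_mem hU h0 (core_mem hU h0 _) hd' hll')
    refine stepA' hU h0 hf hlen hk'E hl'E uk' ul' (core_mem hU h0 {k}) (core_mem hU h0 {k, a})
      (core_ssub (by simp) (a := k) (by simp) hkE) (core_ssub (by simp) (a := a) (by simp) hak)
      ?_ (S := {b, x}) ?_ ?_ ?_
    · refine lt_of_le_of_lt hsub' ?_
      refine lt_of_le_of_ne ?_ ?_
      · apply core_sub_of hU h0
        intro d hd
        simp only [mem_insert, mem_singleton] at hd
        rcases hd with rfl | rfl
        · exact not_mem_core (by simp)
        · exact hcon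
      · intro he
        exact not_mem_core (A := A) (S := {k, l}) (a := l) (by simp) (he ▸ hlka)
    · by_contra hk2
      exact hfar k hkb (fun h => hk2 (dom_mem hU h0 (core_mem hU h0 _) h hkk')) hkX
    · by_contra hl2
      exact hfar l hlb (fun h => hl2 (dom_mem hU h0 (core_mem hU h0 _) h hll')) hlX
    · -- core ({b, x} ∪ {k', l'}) = ∅
      apply tight _ (core_mem hU h0 _)
      have hall : ∀ d ∈ ({k, l} ∪ {a, b} : Finset α), d ∉ core A ({b, x} ∪ {k', l'}) := by
        intro d hd
        simp only [mem_union, mem_insert, mem_singleton] at hd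
        rcases hd with (rfl | rfl) | rfl | rfl
        · intro hd'
          exact not_mem_core (A := A) (S := {b, x} ∪ {k', l'}) (a := k') (by simp)
            (dom_mem hU h0 (core_mem hU h0 _) hd' hkk')
        · intro hd'
          exact not_mem_core (A := A) (S := {b, x} ∪ {k', l'}) (a := l') (by simp)
            (dom_mem hU h0 (core_mem hU h0 _) hd' hll')
        · intro hd'
          exact hcon (hsub' (core_anti (by
            intro c hc; simp only [mem_insert, mem_singleton, mem_union] at hc ⊢; tauto) hd'))
        · exact not_mem_core (by simp)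
      have h5 : core A ({b, x} ∪ {k', l'}) ⊆ X := by
        rw [← hXab]; exact core_sub_of hU h0 hall
      refine lt_of_le_of_ne h5 ?_
      intro he
      exact not_mem_core (A := A) (S := {b, x} ∪ {k', l'}) (a := x) (by simp) (he ▸ hxX)
  refine ⟨{k, l}, ?_, ?_, hXkl⟩
  · exact main p q hp hq hpq hpk hkp hkq hlq (core_anti (by
      intro c hc; simp only [mem_insert, mem_singleton, mem_union] at hc ⊢; tauto) hl) hpX hqX hXkl
  · exact main q p hq hp (Ne.symm hpq) hqk hkq hkp hlp (core_anti (by
      intro c hc; simp only [mem_insert, mem_singleton, mem_union] at hc ⊢; tauto) hl) hqX hpX (by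
      rw [Finset.pair_comm q p]; exact hXkl)

include hT in
theorem injT {p q : α} (hp : p ∈ T) (hq : q ∈ T) (hpq : p ≠ q) {S S' : Finset α}
    (h1 : p ∈ core A S) (h2 : q ∈ core A S) (h3 : p ∈ core A S') (h4 : q ∈ core A S')
    (h : core A (S ∪ {p, q}) = core A (S' ∪ {p, q})) : core A S = core A S' := by
  have hsurj : Set.SurjOn (rho A p q) ↑(A.filter (fun X => p ∈ X ∧ q ∈ X))
      ↑(A.filter (fun X => p ∉ X ∧ q ∉ X)) := by
    intro X hX
    simp only [coe_filter, Set.mem_setOf_eq] at hX
    obtain ⟨S, a1, a2, a3⟩ := surjT hU h0 hf hlen hT hp hq hpq hX.1 hX.2.1 hX.2.2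
    refine ⟨core A S, ?_, by rw [rho_core]; exact a3⟩
    simp only [coe_filter, Set.mem_setOf_eq]
    exact ⟨core_mem hU h0 _, a1, a2⟩
  have hmaps : Set.MapsTo (rho A p q) ↑(A.filter (fun X => p ∈ X ∧ q ∈ X))
      ↑(A.filter (fun X => p ∉ X ∧ q ∉ X)) := by
    intro Y _
    simp only [coe_filter, Set.mem_setOf_eq]
    refine ⟨?_, ?_, ?_⟩
    · have := Finset.sup_mem (↑A : Set (Finset α)) (by simpa using h0)
        (fun x hx y hy => by simpa using hU x (by simpa using hx) y (by simpa using hy))
        (A.filter (fun Z => Z ⊆ Y ∧ p ∉ Z ∧ q ∉ Z)) id (fun X hX => by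
          simp only [mem_filter] at hX; simpa using hX.1)
      simpa [rho] using this
    · simp only [rho, Finset.mem_sup, mem_filter, id, not_exists, not_and]
      rintro Z ⟨_, _, hZ, _⟩
      exact hZ
    · simp only [rho, Finset.mem_sup, mem_filter, id, not_exists, not_and]
      rintro Z ⟨_, _, _, hZ⟩
      exact hZ
  have hinj := Finset.injOn_of_surjOn_of_card_le (rho A p q) hmaps hsurj
    (le_count_pair hf (hT.sub hp) (hT.sub hq))
  apply hinj
  · simp only [coe_filter, Set.mem_setOf_eq]; exact ⟨core_mem hU h0 _, h1, h2⟩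
  · simp only [coe_filter, Set.mem_setOf_eq]; exact ⟨core_mem hU h0 _, h3, h4⟩
  · rw [rho_core, rho_core, h]

/-- `k` is not equivalent to an element of `T`. -/
def New (A : Finset (Finset α)) (T : Finset α) (k : α) : Prop :=
  k ∈ core A ∅ ∧ ∀ a ∈ T, a ∈ core A {k}

include hT in
theorem new_mem_pair {k : α} (hk : New A T k) {a p : α} (ha : a ∈ T) (hp : p ∈ T) (hap : a ≠ p) :
    k ∈ core A {a, p} := by
  by_contra hcon
  have h := injT hU h0 hf hlen hT ha hp hap (S := {k}) (S' := ∅) (hk.2 a ha) (hk.2 p hp)
    (hT.sub ha) (hT.sub hp) (by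
      apply le_antisymm
      · exact core_anti (by simp)
      · apply core_sub_of hU h0
        intro c hc
        simp only [mem_union, mem_insert, mem_singleton] at hc
        rcases hc with rfl | hc
        · simpa using hcon
        · exact not_mem_core (by simpa using hc))
  exact not_mem_core (A := A) (S := {k}) (a := k) (by simp) (h ▸ hk.1)

include hT in
theorem claim {k : α} (hk : New A T k) : ∀ m : ℕ, ∀ R ⊆ T, R.card = m → ∀ p ∈ T, p ∉ R →
    p ∈ core A (insert k R) := by
  intro m
  induction m using Nat.strong_induction_on with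
  | _ m ih =>
    intro R hR hm p hp hpR
    rcases Nat.lt_or_ge m 2 with hm2 | hm2
    · rcases Nat.lt_or_ge m 1 with hm1 | hm1
      · have : R = ∅ := Finset.card_eq_zero.1 (by omega)
        subst this
        simpa using hk.2 p hp
      · obtain ⟨a, rfl⟩ := Finset.card_eq_one.1 (show R.card = 1 by omega)
        have ha : a ∈ T := hR (by simp)
        have hap : a ≠ p := fun h => hpR (by simp [h])
        by_contra hcon
        have hkap := new_mem_pair hU h0 hf hlen hT hk ha hp hap
        obtain ⟨k', hk'E, uk', hkk'⟩ := exists_und hU h0 k hk.1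
        have hpma : p ∈ core A {a} := tr_mem hU h0 hT hp (by
          intro c hc; simp only [mem_singleton] at hc; simp [hc, ha, hap])
        have hle1 : core A {a, k'} ⊆ core A {k, a} := by
          apply core_sub_of hU h0
          intro d hd
          simp only [mem_insert, mem_singleton] at hd
          rcases hd with rfl | rfl
          · intro hd'
            exact not_mem_core (A := A) (S := {a, k'}) (a := k') (by simp)
              (dom_mem hU h0 (core_mem hU h0 _) hd' hkk')
          · exact not_mem_core (by simp)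
        have hpk' : p ∉ core A {a, k'} := fun h => hcon (hle1 h)
        have hss : core A {a, k'} ⊂ core A {a, p} := by
          refine lt_of_le_of_ne ?_ ?_
          · apply core_sub_of hU h0
            intro d hd
            simp only [mem_insert, mem_singleton] at hd
            rcases hd with rfl | rfl
            · exact not_mem_core (by simp)
            · exact hpk'
          · intro he
            exact not_mem_core (A := A) (S := {k, a}) (a := k) (by simp) (hle1 (he ▸ hkap))
        have hzero : core A ((T.erase p).erase a ∪ {a, k'}) = ∅ := by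
          rw [← Finset.subset_empty, ← hT.zero]
          apply core_sub_of hU h0
          intro c hc
          by_cases hcp : c = p
          · rw [hcp]
            intro h
            exact hpk' (core_anti (by simp) h)
          · by_cases hca : c = a
            · exact not_mem_core (by simp [hca])
            · exact not_mem_core (by simp [hca, hcp, hc])
        have hsubE : (T.erase p).erase a ∪ {a} ⊆ core A ∅ := by
          intro c hc
          simp only [mem_union, mem_erase, mem_singleton] at hc
          rcases hc with hc | rfl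
          · exact hT.sub hc.2.2
          · exact hT.sub ha
        have hcardlt : ((T.erase p).erase a ∪ {a}).card < T.card := by
          have : (T.erase p).erase a ∪ {a} = T.erase p := by
            ext c
            simp only [mem_union, mem_erase, mem_singleton]
            constructor
            · rintro (h | rfl)
              · exact ⟨h.2.1, h.2.2⟩
              · exact ⟨hap, ha⟩
            · intro h
              by_cases hc : c = a
              · exact Or.inr hc
              · exact Or.inl ⟨hc, h.1, h.2⟩
          rw [this, Finset.card_erase_of_mem hp]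
          have : 0 < T.card := Finset.card_pos.2 ⟨p, hp⟩
          omega
        have hk'S : k' ∈ core A ((T.erase p).erase a) := by
          by_contra hnot
          have h1 : core A ((T.erase p).erase a ∪ {a}) = ∅ := by
            rw [← Finset.subset_empty, ← hzero]
            apply core_sub_of hU h0
            intro c hc
            simp only [mem_union, mem_insert, mem_singleton] at hc
            rcases hc with hc | rfl | rfl
            · exact not_mem_core (by simp only [mem_union]; exact Or.inl hc)
            · exact not_mem_core (by simp)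
            · exact fun h => hnot (core_anti (by simp) h)
          have h2 := hT.min _ hsubE h1
          omega
        exact stepA' hU h0 hf hlen (hT.sub ha) hk'E (hT.und a ha) uk' (core_mem hU h0 {a})
          (core_mem hU h0 {a, p}) (core_ssub (by simp) (a := a) (by simp) (hT.sub ha))
          (core_ssub (by simp) (a := p) (by simp) hpma) hss
          (S := (T.erase p).erase a) (tr_mem hU h0 hT ha (by
            intro c hc; simp only [mem_erase] at hc ⊢; exact ⟨hc.1, hc.2.2⟩)) hk'S hzero
    · -- at least two elements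
      obtain ⟨a, ha, b, hb, hab⟩ := Finset.one_lt_card.1 (show 1 < R.card by omega)
      by_contra hcon
      have haT := hR ha
      have hbT := hR hb
      set R' := (R.erase a).erase b with hR'
      have hR'c : R'.card = m - 2 := by
        rw [hR', Finset.card_erase_of_mem (by simp [hab.symm, hb]), Finset.card_erase_of_mem ha]
        omega
      have hR'T : R' ⊆ T := fun c hc => by
        simp only [hR', mem_erase] at hc; exact hR hc.2.2
      have haR' : a ∉ R' := by simp [hR']
      have hbR' : b ∉ R' := by simp [hR']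
      have hpR' : p ∉ R' := fun h => by
        simp only [hR', mem_erase] at h; exact hpR h.2.2
      have hap : a ≠ p := fun h => hpR (h ▸ ha)
      have hbp : b ≠ p := fun h => hpR (h ▸ hb)
      have hcard' : (insert p R').card = m - 1 := by
        rw [Finset.card_insert_of_notMem hpR', hR'c]; omega
      have hsubT : insert p R' ⊆ T := Finset.insert_subset hp hR'T
      have a1 : a ∈ core A (insert k (insert p R')) := ih (m - 1) (by omega) _ hsubT hcard' a haT (by
        simp [haR', hap])
      have b1 : b ∈ core A (insert k (insert p R')) := ih (m - 1) (by omega) _ hsubT hcard' b hbT (by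
        simp [hbR', hbp])
      have p1 : p ∈ core A (insert k R') := ih (m - 2) (by omega) _ hR'T hR'c p hp hpR'
      have hsub2 : insert k R' ⊆ insert k (insert p R') := by
        intro c hc; simp only [mem_insert] at hc ⊢; tauto
      have huni : insert k R' ∪ {a, b} = insert k R := by
        rw [Finset.insert_union, hR', pair_union ha hb]
      have h := injT hU h0 hf hlen hT haT hbT hab (S := insert k R') (S' := insert k (insert p R'))
        (core_anti hsub2 a1) (core_anti hsub2 b1) a1 b1 (by
          rw [huni]
          have : insert k (insert p R') ∪ {a, b} = insert p (insert k R) := by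
            rw [← huni]; ext c
            simp only [mem_union, mem_insert, mem_singleton]; tauto
          rw [this]
          apply le_antisymm
          · apply core_sub_of hU h0
            intro c hc
            rcases Finset.mem_insert.1 hc with rfl | hc
            · exact hcon
            · exact not_mem_core hc
          · exact core_anti (Finset.subset_insert _ _))
      exact not_mem_core (A := A) (S := insert k (insert p R')) (a := p) (by simp) (h ▸ p1)

include hT in
theorem no_new (ht : 2 ≤ T.card) {k : α} (hk : New A T k) : False := by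
  classical
  obtain ⟨R, hR, hRmin⟩ := Finset.exists_min_image (T.powerset.filter (fun R => k ∉ core A R))
    Finset.card ⟨T, by simp [hT.zero]⟩
  simp only [mem_filter, mem_powerset] at hR hRmin
  have hkerase : ∀ R' ⊆ R, R' ≠ R → k ∈ core A R' := by
    intro R' hR' hne
    by_contra hcon
    have h1 := hRmin R' ⟨hR'.trans hR.1, hcon⟩
    have h2 := Finset.card_lt_card (lt_of_le_of_ne hR' hne)
    omega
  have hR2 : 1 < R.card := by
    by_contra hlt
    rcases Nat.eq_zero_or_pos R.card with h | h
    · have : R = ∅ := Finset.card_eq_zero.1 h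
      exact hR.2 (this ▸ hk.1)
    · obtain ⟨a, rfl⟩ := Finset.card_eq_one.1 (show R.card = 1 by omega)
      have ha : a ∈ T := hR.1 (by simp)
      obtain ⟨b, hb, hba⟩ : ∃ b ∈ T, b ≠ a := by
        obtain ⟨x, hx, y, hy, hxy⟩ := Finset.one_lt_card.1 (show 1 < T.card by omega)
        by_cases h : x = a
        · exact ⟨y, hy, fun h' => hxy (h.trans h'.symm)⟩
        · exact ⟨x, hx, h⟩
      exact hR.2 (core_anti (by simp) (new_mem_pair hU h0 hf hlen hT hk ha hb hba.symm))
  obtain ⟨p, hp, q, hq, hpq⟩ := Finset.one_lt_card.1 hR2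
  set R' := (R.erase p).erase q with hR'
  have hsub : R' ⊆ R := fun c hc => by simp only [hR', mem_erase] at hc; exact hc.2.2
  have hkR' : k ∈ core A R' := hkerase R' hsub (by
    intro he; rw [← he] at hp; simp [hR'] at hp)
  have hpc := claim hU h0 hf hlen hT hk _ R' (hsub.trans hR.1) rfl p (hR.1 hp) (by simp [hR'])
  have hqc := claim hU h0 hf hlen hT hk _ R' (hsub.trans hR.1) rfl q (hR.1 hq) (by simp [hR'])
  have h := injT hU h0 hf hlen hT (hR.1 hp) (hR.1 hq) hpq (S := insert k R') (S' := R') hpc hqc
    (core_anti (Finset.subset_insert _ _) hpc) (core_anti (Finset.subset_insert _ _) hqc) (by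
      rw [Finset.insert_union, hR', pair_union hp hq]
      apply le_antisymm
      · exact core_anti (Finset.subset_insert _ _)
      · apply core_sub_of hU h0
        intro c hc
        rcases Finset.mem_insert.1 hc with rfl | hc
        · exact hR.2
        · exact not_mem_core hc)
  exact not_mem_core (A := A) (S := insert k R') (a := k) (by simp) (h ▸ hkR')

/-- The structure of the extremal families. -/
theorem structure_thm : ∃ T ⊆ core A ∅, (∀ k ∈ core A ∅, ∃ a ∈ T, ∀ X ∈ A, (k ∈ X ↔ a ∈ X)) ∧
    ∀ S ⊆ T, ∃ X ∈ A, X ∩ T = S := by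
  obtain ⟨T, hT⟩ := exists_tr (A := A) hU h0
  refine ⟨T, hT.sub, ?_, ?_⟩
  · intro k hk
    by_contra hcon
    push Not at hcon
    have hnew : New A T k := by
      refine ⟨hk, ?_⟩
      intro a ha
      by_contra hak
      have hka := hT.und a ha k hk hak
      obtain ⟨X, hX, hX'⟩ := hcon a ha
      rcases hX' with ⟨h1, h2⟩ | ⟨h1, h2⟩
      · exact h2 (dom_mem hU h0 hX h1 hka)
      · exact h1 (dom_mem hU h0 hX h2 hak)
    rcases Nat.lt_or_ge T.card 2 with h2 | h2
    · rcases Nat.lt_or_ge T.card 1 with h1 | h1
      · have : T = ∅ := Finset.card_eq_zero.1 (by omega)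
        rw [this] at hT
        have := hT.zero
        rw [this] at hk
        simp at hk
      · obtain ⟨p, rfl⟩ := Finset.card_eq_one.1 (show T.card = 1 by omega)
        have hpE := hT.sub (Finset.mem_singleton_self p)
        have hpk := hnew.2 p (by simp)
        have h3 : A ⊆ insert ∅ (A.filter (fun X => p ∈ X)) := by
          intro X hX
          by_cases h : p ∈ X
          · simp [hX, h]
          · have := le_core (S := {p}) hX (by simpa using h)
            rw [hT.zero] at this
            simp [Finset.subset_empty.1 this]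
        have h4 := Finset.card_le_card h3
        have h5 := Finset.card_insert_le (∅ : Finset α) (A.filter (fun X => p ∈ X))
        have h6 := hf p hpE
        have h7 : 1 < (A.filter (fun X => p ∈ X)).card := by
          refine Finset.one_lt_card.2 ⟨core A ∅, ?_, core A {k}, ?_, ?_⟩
          · simp only [mem_filter]; exact ⟨E_mem hU h0, hpE⟩
          · simp only [mem_filter]; exact ⟨core_mem hU h0 _, hpk⟩
          · intro he
            exact not_mem_core (A := A) (S := {k}) (a := k) (by simp) (he ▸ hk)
        omega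
    · exact no_new hU h0 hf hlen hT h2 hnew
  · intro S hS
    refine ⟨core A (T \ S), core_mem hU h0 _, ?_⟩
    ext c
    simp only [mem_inter]
    constructor
    · rintro ⟨h1, h2⟩
      by_contra hcS
      exact not_mem_core (A := A) (S := T \ S) (a := c) (by simp [h2, hcS]) h1
    · intro h
      refine ⟨tr_mem hU h0 hT (hS h) ?_, hS h⟩
      intro d hd
      simp only [mem_sdiff, mem_erase] at hd ⊢
      exact ⟨fun he => hd.2 (he ▸ h), hd.1⟩

end Pool.Agent.W457.Len
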