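import Mathlib

set_option autoImplicit false

open scoped TensorProduct DualNumber

namespace Pool.Agent.W457

noncomputable section

universe u

/-- A right comodule structure on the `R`-module `M` over the `R`-coalgebra `A`. -/
structure Coaction (R : Type u) [CommRing R] (A : Type u) [AddCommGroup A] [Module R A]
    [Coalgebra R A] (M : Type u) [AddCommGroup M] [Module R M] where
  /-- the coaction map -/
  map : M →ₗ[R] M ⊗[R] A
  coassoc : (TensorProduct.assoc R M A A).toLinearMap ∘ₗ map.rTensor A ∘ₗ map =
    (Coalgebra.comul (R := R) (A := A)).lTensor M ∘ₗ map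
  counit : (TensorProduct.rid R M).toLinearMap ∘ₗ
    (Coalgebra.counit (R := R) (A := A)).lTensor M ∘ₗ map = LinearMap.id

section

variable {R : Type u} [CommRing R] {A : Type u} [AddCommGroup A] [Module R A] [Coalgebra R A]
  {M : Type u} [AddCommGroup M] [Module R M] {N : Type u} [AddCommGroup N] [Module R N]

/-- convolution of functionals -/
def conv (l m : A →ₗ[R] R) : A →ₗ[R] R :=
  ((TensorProduct.lid R R).toLinearMap ∘ₗ TensorProduct.map l m) ∘ₗ
    Coalgebra.comul (R := R) (A := A)

/-- The endomorphism of a comodule given by a functional. -/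
def Coaction.act (ρ : Coaction R A M) (l : A →ₗ[R] R) : M →ₗ[R] M :=
  (TensorProduct.rid R M).toLinearMap ∘ₗ l.lTensor M ∘ₗ ρ.map

lemma Coaction.act_counit (ρ : Coaction R A M) :
    ρ.act (Coalgebra.counit (R := R) (A := A)) = LinearMap.id := ρ.counit

lemma Coaction.act_add (ρ : Coaction R A M) (l m : A →ₗ[R] R) :
    ρ.act (l + m) = ρ.act l + ρ.act m := by
  simp [Coaction.act, LinearMap.lTensor_add, LinearMap.add_comp, LinearMap.comp_add]

lemma Coaction.act_sub (ρ : Coaction R A M) (l m : A →ₗ[R] R) :
    ρ.act (l - m) = ρ.act l - ρ.act m := by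
  simp [Coaction.act, LinearMap.lTensor_sub, LinearMap.sub_comp, LinearMap.comp_sub]

lemma Coaction.act_smul (ρ : Coaction R A M) (r : R) (l : A →ₗ[R] R) :
    ρ.act (r • l) = r • ρ.act l := by
  simp [Coaction.act, LinearMap.lTensor_smul, LinearMap.smul_comp, LinearMap.comp_smul]

/-- Composition of the endomorphisms given by functionals is convolution. -/
lemma Coaction.act_comp (ρ : Coaction R A M) (l m : A →ₗ[R] R) :
    ρ.act l ∘ₗ ρ.act m = ρ.act (conv l m) := by
  have key : ∀ x : (M ⊗[R] A) ⊗[R] A,
      (TensorProduct.rid R M) ((l.lTensor M) ((TensorProduct.rid R (M ⊗[R] A))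
        ((m.lTensor (M ⊗[R] A)) x))) =
      (TensorProduct.rid R M) ((((TensorProduct.lid R R).toLinearMap ∘ₗ
        TensorProduct.map l m).lTensor M) ((TensorProduct.assoc R M A A) x)) := by
    intro x
    induction x using TensorProduct.induction_on with
    | zero => simp
    | add x y hx hy => simp only [map_add, hx, hy]
    | tmul x b =>
      induction x using TensorProduct.induction_on with
      | zero => simp
      | add x y hx hy => simp only [map_add, hx, hy, TensorProduct.add_tmul]
      | tmul v a => simp [smul_smul, mul_comm]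
  have nat : ∀ y : M ⊗[R] A, ρ.map ((TensorProduct.rid R M) ((m.lTensor M) y)) =
      (TensorProduct.rid R (M ⊗[R] A)) ((m.lTensor (M ⊗[R] A)) (ρ.map.rTensor A y)) := by
    intro y
    induction y using TensorProduct.induction_on with
    | zero => simp
    | add x y hx hy => simp only [map_add, hx, hy]
    | tmul v a => simp
  ext v
  have h := LinearMap.congr_fun ρ.coassoc v
  simp only [LinearMap.coe_comp, Function.comp_apply, LinearEquiv.coe_coe] at h
  simp only [Coaction.act, conv, LinearMap.coe_comp, Function.comp_apply, LinearEquiv.coe_coe]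
  rw [nat, key, h, ← LinearMap.lTensor_comp_apply]

/-- comodule maps commute with the endomorphisms given by functionals -/
lemma Coaction.act_hom (ρ : Coaction R A M) (σ : Coaction R A N) (f : M →ₗ[R] N)
    (hf : σ.map ∘ₗ f = f.rTensor A ∘ₗ ρ.map) (l : A →ₗ[R] R) :
    σ.act l ∘ₗ f = f ∘ₗ ρ.act l := by
  have nat : ∀ y : M ⊗[R] A, (TensorProduct.rid R N) ((l.lTensor N) (f.rTensor A y)) =
      f ((TensorProduct.rid R M) ((l.lTensor M) y)) := by
    intro y
    induction y using TensorProduct.induction_on with
    | zero => simp
    | add x y hx hy => simp only [map_add, hx, hy]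
    | tmul v a => simp
  ext v
  have h := LinearMap.congr_fun hf v
  simp only [LinearMap.coe_comp, Function.comp_apply] at h
  simp only [Coaction.act, LinearMap.coe_comp, Function.comp_apply, LinearEquiv.coe_coe]
  rw [h, nat]

end

end

end Pool.Agent.W457
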