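import Mathlib

set_option autoImplicit false

open scoped TensorProduct
open MvPolynomial

namespace Pool.Agent.W457

noncomputable section

universe u

/-- a commutative ring with a chosen element of square zero -/
class Eps (R : Type u) [CommRing R] where
  /-- the element -/
  e : R
  sq : e * e = 0

variable (R : Type u) [CommRing R] [Eps R]

/-- The coordinate ring `R[x, y, t, t⁻¹]`. -/
def GA (R : Type u) [CommRing R] : Type u := Localization.Away (X 2 : MvPolynomial (Fin 3) R)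

instance : CommRing (GA R) :=
  inferInstanceAs (CommRing (Localization.Away (X 2 : MvPolynomial (Fin 3) R)))

instance instAlgMv : Algebra (MvPolynomial (Fin 3) R) (GA R) :=
  inferInstanceAs (Algebra (MvPolynomial (Fin 3) R)
    (Localization.Away (X 2 : MvPolynomial (Fin 3) R)))

instance instAlgR : Algebra R (GA R) :=
  inferInstanceAs (Algebra R (Localization.Away (X 2 : MvPolynomial (Fin 3) R)))

instance instTower : IsScalarTower R (MvPolynomial (Fin 3) R) (GA R) :=
  inferInstanceAs (IsScalarTower R (MvPolynomial (Fin 3) R)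
    (Localization.Away (X 2 : MvPolynomial (Fin 3) R)))

instance instLoc : IsLocalization.Away (X 2 : MvPolynomial (Fin 3) R) (GA R) :=
  inferInstanceAs (IsLocalization.Away (X 2 : MvPolynomial (Fin 3) R)
    (Localization.Away (X 2 : MvPolynomial (Fin 3) R)))

instance instSmooth : Algebra.Smooth R (GA R) := by
  have : Algebra.Smooth (MvPolynomial (Fin 3) R) (GA R) :=
    Algebra.Smooth.of_isLocalization_Away (X 2 : MvPolynomial (Fin 3) R)
  have : Algebra.Smooth R (MvPolynomial (Fin 3) R) := ⟨inferInstance, inferInstance⟩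
  exact Algebra.Smooth.comp R (MvPolynomial (Fin 3) R) (GA R)

namespace GA

/-- the coordinates -/
def gen (i : Fin 3) : GA R := algebraMap (MvPolynomial (Fin 3) R) (GA R) (X i)

lemma isUnit_t : IsUnit (gen R 2) := IsLocalization.Away.algebraMap_isUnit _

variable {R}

/-- algebra maps out of `GA R` -/
def lift {S : Type u} [CommRing S] [Algebra R S] (v : Fin 3 → S)
    (h : IsUnit (v 2)) : GA R →ₐ[R] S :=
  IsLocalization.liftAlgHom (M := Submonoid.powers (X 2 : MvPolynomial (Fin 3) R))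
    (f := (MvPolynomial.aeval v : MvPolynomial (Fin 3) R →ₐ[R] S))
    (by
      rintro ⟨_, n, rfl⟩
      simpa using h.pow n)

omit [Eps R] in
@[simp] lemma lift_gen {S : Type u} [CommRing S] [Algebra R S] (v : Fin 3 → S)
    (h : IsUnit (v 2)) (i : Fin 3) : lift v h (gen R i) = v i := by
  simp [lift, gen]

omit [Eps R] in
lemma algHom_ext {S : Type u} [Semiring S] [Algebra R S]
    {f g : GA R →ₐ[R] S} (h : ∀ i, f (gen R i) = g (gen R i)) : f = g := by
  apply IsLocalization.algHom_ext (Submonoid.powers (X 2 : MvPolynomial (Fin 3) R))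
  apply MvPolynomial.algHom_ext
  intro i
  exact h i

variable (R) in
/-- `ε` in an algebra over the dual numbers -/
def ee (S : Type u) [CommRing S] [Algebra R S] : S := algebraMap R S Eps.e

lemma ee_mul (S : Type u) [CommRing S] [Algebra R S] : ee R S * ee R S = 0 := by
  rw [ee, ← map_mul, Eps.sq, map_zero]

lemma isUnit_one_add (S : Type u) [CommRing S] [Algebra R S] (z : S) :
    IsUnit (1 + ee R S * z) := by
  refine IsUnit.of_mul_eq_one (1 - ee R S * z) ?_
  have := ee_mul (R := R) S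
  linear_combination (-z * z) * this

variable (R) in
/-- the comultiplication on generators -/
def comulV : Fin 3 → GA R ⊗[R] GA R :=
  ![gen R 0 ⊗ₜ 1 + 1 ⊗ₜ gen R 0, gen R 1 ⊗ₜ 1 + 1 ⊗ₜ gen R 1,
    (gen R 2 ⊗ₜ gen R 2) * (1 + ee R _ * (gen R 0 ⊗ₜ gen R 1))]

omit [Eps R] in
lemma isUnit_tmul {S T : Type u} [CommRing S] [Algebra R S] [CommRing T]
    [Algebra R T] {s : S} {t : T} (hs : IsUnit s) (ht : IsUnit t) :
    IsUnit (s ⊗ₜ[R] t) := by
  obtain ⟨s', hs'⟩ := hs.exists_right_inv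
  obtain ⟨t', ht'⟩ := ht.exists_right_inv
  refine IsUnit.of_mul_eq_one (s' ⊗ₜ t') ?_
  rw [Algebra.TensorProduct.tmul_mul_tmul, hs', ht', Algebra.TensorProduct.one_def]

lemma comulV_unit : IsUnit (comulV R 2) := by
  simp only [comulV, Matrix.cons_val]
  exact (isUnit_tmul (isUnit_t R) (isUnit_t R)).mul (isUnit_one_add _ _)

variable (R) in
/-- the comultiplication -/
def comulA : GA R →ₐ[R] GA R ⊗[R] GA R := lift (comulV R) comulV_unit

omit [Eps R] in
variable (R) in
/-- the counit -/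
def counitA : GA R →ₐ[R] R := lift ![0, 0, 1] (by simp)

/-- the antipode on generators -/
def antiV : Fin 3 → GA R :=
  ![- gen R 0, - gen R 1, ((isUnit_t R).unit⁻¹ : (GA R)ˣ) * (1 + ee R _ * (gen R 0 * gen R 1))]

lemma antiV_unit : IsUnit (antiV (R := R) 2) := by
  simp only [antiV, Matrix.cons_val]
  exact (Units.isUnit _).mul (isUnit_one_add _ _)

variable (R) in
/-- the antipode -/
def antiA : GA R →ₐ[R] GA R := lift antiV antiV_unit

@[simp] lemma comulA_0 : comulA R (gen R 0) = gen R 0 ⊗ₜ 1 + 1 ⊗ₜ gen R 0 := by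
  simp [comulA, comulV]
@[simp] lemma comulA_1 : comulA R (gen R 1) = gen R 1 ⊗ₜ 1 + 1 ⊗ₜ gen R 1 := by
  simp [comulA, comulV]
@[simp] lemma comulA_2 : comulA R (gen R 2) =
    (gen R 2 ⊗ₜ gen R 2) * (1 + ee R _ * (gen R 0 ⊗ₜ gen R 1)) := by
  simp [comulA, comulV]
omit [Eps R] in
@[simp] lemma counitA_0 : counitA R (gen R 0) = 0 := lift_gen _ _ _
omit [Eps R] in
@[simp] lemma counitA_1 : counitA R (gen R 1) = 0 := lift_gen _ _ _
omit [Eps R] in
@[simp] lemma counitA_2 : counitA R (gen R 2) = 1 := lift_gen _ _ _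
@[simp] lemma antiA_0 : antiA R (gen R 0) = - gen R 0 := by simp [antiA, antiV]
@[simp] lemma antiA_1 : antiA R (gen R 1) = - gen R 1 := by simp [antiA, antiV]
lemma antiA_2 : gen R 2 * antiA R (gen R 2) = 1 + ee R _ * (gen R 0 * gen R 1) := by
  have h : gen R 2 * ((isUnit_t R).unit⁻¹ : (GA R)ˣ) = 1 := by simp
  simp only [antiA, antiV, lift_gen, Matrix.cons_val]
  rw [← mul_assoc, h, one_mul]

@[simp] lemma map_ee {S T : Type u} [CommRing S] [Algebra R S] [CommRing T]
    [Algebra R T] (f : S →ₐ[R] T) : f (ee R S) = ee R T := by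
  simp [ee]

lemma tmul_ee {S T : Type u} [CommRing S] [Algebra R S] [CommRing T]
    [Algebra R T] (s : S) (t : T) : s ⊗ₜ[R] (ee R T * t) = ee R (S ⊗[R] T) * (s ⊗ₜ t) := by
  rw [ee, ee, ← Algebra.smul_def, ← Algebra.smul_def, TensorProduct.tmul_smul]

lemma ee_tmul {S T : Type u} [CommRing S] [Algebra R S] [CommRing T]
    [Algebra R T] (s : S) (t : T) : (ee R S * s) ⊗ₜ[R] t = ee R (S ⊗[R] T) * (s ⊗ₜ t) := by
  rw [ee, ee, ← Algebra.smul_def, ← Algebra.smul_def, TensorProduct.smul_tmul']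


lemma coassoc2 : (Algebra.TensorProduct.assoc R R R (GA R) (GA R) (GA R))
      ((Algebra.TensorProduct.map (comulA R) (.id R (GA R))) (comulA R (gen R 2)))
      = (Algebra.TensorProduct.map (.id R (GA R)) (comulA R)) (comulA R (gen R 2)) := by
  have h1 : (gen R 2 ⊗ₜ[R] gen R 2 * (1 + ee R (GA R ⊗[R] GA R) * gen R 0 ⊗ₜ[R] gen R 1)) ⊗ₜ[R]
      gen R 2 = ((gen R 2 ⊗ₜ[R] gen R 2) ⊗ₜ[R] gen R 2) *
        (1 + ee R _ * ((gen R 0 ⊗ₜ[R] gen R 1) ⊗ₜ[R] 1)) := by
    rw [mul_add, mul_one, mul_left_comm, TensorProduct.add_tmul, ee_tmul, mul_add, mul_one,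
      mul_left_comm ((gen R 2 ⊗ₜ[R] gen R 2) ⊗ₜ[R] gen R 2)]
    simp only [Algebra.TensorProduct.tmul_mul_tmul, mul_one]
  have h2 : gen R 2 ⊗ₜ[R] (gen R 2 ⊗ₜ[R] gen R 2 *
      (1 + ee R (GA R ⊗[R] GA R) * gen R 0 ⊗ₜ[R] gen R 1)) =
      (gen R 2 ⊗ₜ[R] (gen R 2 ⊗ₜ[R] gen R 2)) *
        (1 + ee R _ * (1 ⊗ₜ[R] (gen R 0 ⊗ₜ[R] gen R 1))) := by
    rw [mul_add, mul_one, mul_left_comm, TensorProduct.tmul_add, tmul_ee, mul_add, mul_one,
      mul_left_comm (gen R 2 ⊗ₜ[R] (gen R 2 ⊗ₜ[R] gen R 2))]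
    simp only [Algebra.TensorProduct.tmul_mul_tmul, mul_one]
  have h3 : (Algebra.TensorProduct.assoc R R R (GA R) (GA R) (GA R))
      (ee R (GA R ⊗[R] GA R ⊗[R] GA R)) = ee R _ :=
    map_ee (Algebra.TensorProduct.assoc R R R (GA R) (GA R) (GA R)).toAlgHom
  have e1 : (Algebra.TensorProduct.map (comulA R) (.id R (GA R))) (comulA R (gen R 2)) =
      (((gen R 2 ⊗ₜ[R] gen R 2) ⊗ₜ[R] gen R 2) *
        (1 + ee R _ * ((gen R 0 ⊗ₜ[R] gen R 1) ⊗ₜ[R] 1))) * (1 + ee R _ *
        ((gen R 0 ⊗ₜ 1 + 1 ⊗ₜ gen R 0) ⊗ₜ gen R 1)) := by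
    rw [comulA_2, map_mul, map_add, map_one, map_mul, map_ee, Algebra.TensorProduct.map_tmul,
      Algebra.TensorProduct.map_tmul, comulA_2, comulA_0, AlgHom.id_apply, AlgHom.id_apply, h1]
  have e2 : (Algebra.TensorProduct.map (.id R (GA R)) (comulA R)) (comulA R (gen R 2)) =
      ((gen R 2 ⊗ₜ[R] (gen R 2 ⊗ₜ[R] gen R 2)) *
        (1 + ee R _ * (1 ⊗ₜ[R] (gen R 0 ⊗ₜ[R] gen R 1)))) * (1 + ee R _ *
        (gen R 0 ⊗ₜ (gen R 1 ⊗ₜ 1 + 1 ⊗ₜ gen R 1))) := by
    rw [comulA_2, map_mul, map_add, map_one, map_mul, map_ee, Algebra.TensorProduct.map_tmul,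
      Algebra.TensorProduct.map_tmul, comulA_2, comulA_1, AlgHom.id_apply, AlgHom.id_apply, h2]
  rw [e1, e2]
  simp only [map_mul, map_add, map_one, h3, TensorProduct.add_tmul, TensorProduct.tmul_add, 
    Algebra.TensorProduct.assoc_tmul, Algebra.TensorProduct.one_def]
  simp only [← Algebra.TensorProduct.one_def]
  generalize gen R 2 ⊗ₜ[R] (gen R 2 ⊗ₜ[R] gen R 2) = T
  generalize gen R 0 ⊗ₜ[R] (gen R 1 ⊗ₜ[R] (1 : GA R)) = a
  generalize gen R 0 ⊗ₜ[R] ((1 : GA R) ⊗ₜ[R] gen R 1) = b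
  generalize (1 : GA R) ⊗ₜ[R] (gen R 0 ⊗ₜ[R] gen R 1) = c
  have := ee_mul (R := R) (GA R ⊗[R] (GA R ⊗[R] GA R))
  linear_combination (T * (a * b - c * b)) * this


lemma coassocA : (Algebra.TensorProduct.assoc R R R (GA R) (GA R) (GA R)).toAlgHom.comp
      ((Algebra.TensorProduct.map (comulA R) (.id R (GA R))).comp (comulA R))
      = (Algebra.TensorProduct.map (.id R (GA R)) (comulA R)).comp (comulA R) := by
  apply algHom_ext
  intro i
  fin_cases i
  · simp [TensorProduct.tmul_add, TensorProduct.add_tmul, Algebra.TensorProduct.one_def,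
      add_assoc]
  · simp [TensorProduct.tmul_add, TensorProduct.add_tmul, Algebra.TensorProduct.one_def,
      add_assoc]
  · exact coassoc2

lemma lA : (Algebra.TensorProduct.map (counitA R) (.id R (GA R))).comp (comulA R)
      = (Algebra.TensorProduct.lid R (GA R)).symm := by
  apply algHom_ext
  intro i
  fin_cases i
  · simp
  · simp
  · simp

lemma rA : (Algebra.TensorProduct.map (.id R (GA R)) (counitA R)).comp (comulA R)
      = (Algebra.TensorProduct.rid R R (GA R)).symm := by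
  apply algHom_ext
  intro i
  fin_cases i
  · simp
  · simp
  · simp

instance : Bialgebra R (GA R) :=
  Bialgebra.ofAlgHom (comulA R) (counitA R) coassocA lA rA

lemma comulAlgHom_eq : Bialgebra.comulAlgHom R (GA R) = comulA R := rfl
lemma counitAlgHom_eq : Bialgebra.counitAlgHom R (GA R) = counitA R := rfl

set_option backward.isDefEq.respectTransparency false in
lemma antiL : (Algebra.TensorProduct.lift (antiA R) (.id R (GA R)) fun _ ↦ Commute.all _).comp
        (comulA R) = (Algebra.ofId R (GA R)).comp (counitA R) := by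
  apply algHom_ext
  intro i
  fin_cases i
  · simp [Algebra.TensorProduct.lift_tmul]
  · simp [Algebra.TensorProduct.lift_tmul]
  · have h := ee_mul (R := R) (GA R)
    have h2 := antiA_2 (R := R)
    simp [Algebra.TensorProduct.lift_tmul]
    linear_combination (1 - ee R (GA R) * (gen R 0 * gen R 1)) * h2 -
      (gen R 0 * gen R 1) ^ 2 * h

set_option backward.isDefEq.respectTransparency false in
lemma antiR : (Algebra.TensorProduct.lift (.id R (GA R)) (antiA R) fun _ _ ↦ Commute.all _ _).comp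
        (comulA R) = (Algebra.ofId R (GA R)).comp (counitA R) := by
  apply algHom_ext
  intro i
  fin_cases i
  · simp [Algebra.TensorProduct.lift_tmul]
  · simp [Algebra.TensorProduct.lift_tmul]
  · have h := ee_mul (R := R) (GA R)
    have h2 := antiA_2 (R := R)
    simp [Algebra.TensorProduct.lift_tmul]
    linear_combination (1 - ee R (GA R) * (gen R 0 * gen R 1)) * h2 -
      (gen R 0 * gen R 1) ^ 2 * h

instance : HopfAlgebra R (GA R) :=
  HopfAlgebra.ofAlgHom (antiA R) antiL antiR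

end GA

end

end Pool.Agent.W457
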