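import Pool.Agent.W457.T1
import Pool.Agent.W457.T2

set_option autoImplicit false

open scoped TensorProduct

namespace Pool.Agent.W457

noncomputable section

universe u

/-- dual numbers -/
def DN (R : Type u) [CommRing R] : Type u := DualNumber R

namespace DN

variable {R : Type u} [CommRing R]

instance : CommRing (DN R) := inferInstanceAs (CommRing (DualNumber R))
instance : Algebra R (DN R) := inferInstanceAs (Algebra R (DualNumber R))

variable (R) in
/-- the square zero element of the dual numbers -/
def dl : DN R := (DualNumber.eps : DualNumber R)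

lemma dl_sq : dl R * dl R = 0 := DualNumber.eps_mul_eps

variable (R) in
/-- constant term -/
def fst : DN R →ₐ[R] R where
  toFun a := TrivSqZeroExt.fst (R := R) (M := R) a
  map_one' := rfl
  map_mul' _ _ := rfl
  map_zero' := rfl
  map_add' _ _ := rfl
  commutes' _ := rfl

variable (R) in
/-- coefficient of `δ` -/
def snd : DN R →ₗ[R] R where
  toFun a := TrivSqZeroExt.snd (R := R) (M := R) a
  map_add' _ _ := rfl
  map_smul' _ _ := rfl

@[simp] lemma fst_dl : fst R (dl R) = 0 := rfl
@[simp] lemma snd_dl : snd R (dl R) = 1 := rfl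
@[simp] lemma snd_one : snd R 1 = 0 := rfl

lemma snd_mul (a b : DN R) : snd R (a * b) = fst R a * snd R b + snd R a * fst R b := by
  change TrivSqZeroExt.snd ((show DualNumber R from a) * (show DualNumber R from b)) = _
  rw [TrivSqZeroExt.snd_mul]
  simp only [smul_eq_mul, MulOpposite.smul_eq_mul_unop, MulOpposite.unop_op]
  rfl

lemma mul_dl (a : DN R) : a * dl R = fst R a • dl R := by
  apply TrivSqZeroExt.ext
  · change fst R (a * dl R) = fst R (fst R a • dl R)
    simp
  · change snd R (a * dl R) = snd R (fst R a • dl R)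
    simp [snd_mul]

end DN

variable {R : Type u} [CommRing R] [Eps R]

namespace GA

open DN

/-- tangent vector in direction `(a, b, c)` at the identity -/
def tan (a b c : R) : GA R →ₐ[R] DN R :=
  lift ![a • dl R, b • dl R, 1 + c • dl R] (by
    simp only [Matrix.cons_val]
    refine IsUnit.of_mul_eq_one (1 - c • dl R) ?_
    have := dl_sq (R := R)
    have h2 : (c • dl R) * (c • dl R) = 0 := by
      rw [smul_mul_smul_comm, this, smul_zero]
    linear_combination -h2)

omit [Eps R] in
@[simp] lemma tan_0 (a b c : R) : tan a b c (gen R 0) = a • dl R := by simp [tan]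
omit [Eps R] in
@[simp] lemma tan_1 (a b c : R) : tan a b c (gen R 1) = b • dl R := by simp [tan]
omit [Eps R] in
@[simp] lemma tan_2 (a b c : R) : tan a b c (gen R 2) = 1 + c • dl R := by simp [tan]

/-- the functional given by a tangent vector -/
def fn (a b c : R) : GA R →ₗ[R] R := DN.snd R ∘ₗ (tan a b c).toLinearMap

variable (R) in
/-- the functional picking the coefficient of `δ ⊗ δ`. -/
def c12 : DN R ⊗[R] DN R →ₗ[R] R :=
  (TensorProduct.lid R R).toLinearMap ∘ₗ TensorProduct.map (DN.snd R) (DN.snd R)

lemma conv_fn (a b c a' b' c' : R) : conv (fn a b c) (fn a' b' c') =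
    c12 R ∘ₗ ((Algebra.TensorProduct.map (tan a b c) (tan a' b' c')).comp
      (comulA R)).toLinearMap := by
  rw [conv, fn, fn, c12, TensorProduct.map_comp]
  rfl

omit [Eps R] in
lemma c12_comm (b : DN R ⊗[R] DN R) :
    c12 R (Algebra.TensorProduct.comm R (DN R) (DN R) b) = c12 R b := by
  induction b using TensorProduct.induction_on with
  | zero => simp
  | add x y hx hy => simp only [map_add, hx, hy]
  | tmul x y => simp [c12, mul_comm]

variable (R) in
/-- augmentation -/
def aug : DN R ⊗[R] DN R →ₐ[R] R :=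
  (Algebra.TensorProduct.lmul' R (S := R)).comp
    (Algebra.TensorProduct.map (DN.fst R) (DN.fst R))

variable (R) in
/-- `δ ⊗ δ` -/
def DD : DN R ⊗[R] DN R := dl R ⊗ₜ dl R

omit [Eps R] in
lemma mul_DD (b : DN R ⊗[R] DN R) : b * DD R = aug R b • DD R := by
  induction b using TensorProduct.induction_on with
  | zero => simp
  | add x y hx hy => rw [add_mul, hx, hy, map_add, add_smul]
  | tmul x y =>
    rw [DD, Algebra.TensorProduct.tmul_mul_tmul, mul_dl, mul_dl]
    simp [aug, TensorProduct.smul_tmul', smul_smul, TensorProduct.tmul_smul, mul_comm]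

omit [Eps R] in
lemma c12_DD : c12 R (DD R) = 1 := by simp [c12, DD]

omit [Eps R] in
lemma fst_tan (a b c : R) (f : GA R) : DN.fst R (tan a b c f) = counitA R f := by
  have : (DN.fst R).comp (tan a b c) = counitA R := by
    apply algHom_ext
    intro i
    fin_cases i <;> simp [tan]
  exact DFunLike.congr_fun this f

omit [Eps R] in
lemma fn_mul (a b c : R) (f g : GA R) :
    fn a b c (f * g) = counitA R f * fn a b c g + fn a b c f * counitA R g := by
  simp only [fn, LinearMap.coe_comp, Function.comp_apply, AlgHom.toLinearMap_apply, map_mul,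
    DN.snd_mul, fst_tan]

omit [Eps R] in
lemma fn_one (a b c : R) : fn a b c (1 : GA R) = 0 := by
  simp [fn]

variable (R) in
/-- first product -/
def G1 : GA R →ₐ[R] DN R ⊗[R] DN R :=
  (Algebra.TensorProduct.map (tan 1 0 0) (tan 0 1 0)).comp (comulA R)

variable (R) in
/-- second product -/
def G2 : GA R →ₐ[R] DN R ⊗[R] DN R :=
  (Algebra.TensorProduct.map (tan 0 1 0) (tan 1 0 0)).comp (comulA R)

variable (R) in
/-- second product, swapped -/
def G2' : GA R →ₐ[R] DN R ⊗[R] DN R :=
  (Algebra.TensorProduct.comm R (DN R) (DN R)).toAlgHom.comp (G2 R)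

lemma aug_G2' (f : GA R) : aug R (G2' R f) = counitA R f := by
  have : (aug R).comp (G2' R) = counitA R := by
    apply algHom_ext
    intro i
    fin_cases i
    · simp [G2', G2, tan, aug]
    · simp [G2', G2, tan, aug]
    · simp [G2', G2, tan, aug]
  exact DFunLike.congr_fun this f


/-- the perturbed second product is an algebra map -/
def H : GA R →ₐ[R] DN R ⊗[R] DN R :=
  AlgHom.ofLinearMap ((G2' R).toLinearMap +
    (LinearMap.toSpanSingleton R _ (DD R)) ∘ₗ ((Eps.e : R) • fn 0 0 1))
    (by simp [fn_one])
    (by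
      intro f g
      have h1 := mul_DD (G2' R f)
      have h2 := mul_DD (G2' R g)
      rw [aug_G2'] at h1 h2
      have h3 : DD R * DD R = 0 := by
        rw [DD, Algebra.TensorProduct.tmul_mul_tmul, dl_sq, TensorProduct.zero_tmul]
      simp only [LinearMap.add_apply, AlgHom.toLinearMap_apply, map_mul, LinearMap.coe_comp,
        Function.comp_apply, LinearMap.smul_apply, fn_mul, LinearMap.toSpanSingleton_apply,
        add_mul, mul_add, smul_mul_assoc, mul_smul_comm, h3, smul_zero, add_zero]
      rw [h1, mul_comm (DD R), h2]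
      simp only [smul_smul, smul_eq_mul, mul_add, add_smul]
      rw [add_assoc]
      congr 1
      rw [mul_comm (Eps.e * fn 0 0 1 g), mul_left_comm, mul_assoc, add_comm])

lemma H_eq : (H : GA R →ₐ[R] DN R ⊗[R] DN R) = G1 R := by
  apply algHom_ext
  intro i
  fin_cases i
  · simp [H, G1, G2', G2, tan, fn]
  · simp [H, G1, G2', G2, tan, fn]
  · have h1 : (H : GA R →ₐ[R] DN R ⊗[R] DN R) (gen R 2) =
        G2' R (gen R 2) + (Eps.e * fn 0 0 1 (gen R 2)) • DD R := by
      simp [H]
    have h2 : G2' R (gen R 2) = 1 := by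
      simp [G2', G2, Algebra.TensorProduct.one_def]
    have h3 : fn 0 0 1 (gen R 2) = 1 := by
      simp [fn]
    have h4 : G1 R (gen R 2) = 1 + ee R _ * DD R := by
      simp [G1, DD, ← Algebra.TensorProduct.one_def]
    change (H : GA R →ₐ[R] DN R ⊗[R] DN R) (gen R 2) = G1 R (gen R 2)
    rw [h1, h2, h3, h4, mul_one, ee, Algebra.smul_def]

/-- commutator of the two tangent directions -/
lemma conv_comm_xy : conv (fn (R := R) 1 0 0) (fn 0 1 0) - conv (fn 0 1 0) (fn 1 0 0) =
    (Eps.e : R) • fn 0 0 1 := by
  ext f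
  have h := DFunLike.congr_fun (H_eq (R := R)) f
  have h1 : (H : GA R →ₐ[R] DN R ⊗[R] DN R) f = G2' R f + (Eps.e * fn 0 0 1 f) • DD R := by
    simp [H]
  rw [conv_fn, conv_fn]
  change c12 R (G1 R f) - c12 R (G2 R f) = Eps.e * fn 0 0 1 f
  rw [← h, h1, map_add, map_smul, c12_DD]
  have : c12 R (G2' R f) = c12 R (G2 R f) := c12_comm _
  rw [this]
  simp

/-- the third tangent direction is central -/
lemma conv_comm_tx (a b : R) : conv (fn (R := R) 0 0 1) (fn a b 0) =
    conv (fn a b 0) (fn 0 0 1) := by
  rw [conv_fn, conv_fn]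
  have : (Algebra.TensorProduct.comm R (DN R) (DN R)).toAlgHom.comp
    ((Algebra.TensorProduct.map (tan a b 0) (tan 0 0 1)).comp (comulA R)) =
    ((Algebra.TensorProduct.map (tan 0 0 1) (tan a b 0)).comp (comulA R)) := by
    apply algHom_ext
    intro i
    fin_cases i
    · simp
    · simp
    · simp
  rw [← this]
  ext f
  exact c12_comm _

end GA

end

end Pool.Agent.W457
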