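import Mathlib

set_option autoImplicit false

namespace Pool.Agent.W457

open Polynomial

/-- An endomorphism of a finite-dimensional space over a field of characteristic zero all of whose
positive powers have trace zero is nilpotent. -/
lemma isNilpotent_of_trace_pow {k V : Type*} [Field k] [CharZero k] [AddCommGroup V] [Module k V]
    [FiniteDimensional k V] (T : V →ₗ[k] V)
    (h : ∀ j : ℕ, LinearMap.trace k V (T ^ (j + 1)) = 0) : IsNilpotent T := by
  have hp0 : minpoly k T ≠ 0 := minpoly.ne_zero (Algebra.IsIntegral.isIntegral T)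
  obtain ⟨g, hg, hgd⟩ := Polynomial.exists_eq_pow_rootMultiplicity_mul_and_not_dvd
    (minpoly k T) hp0 0
  rw [C_0, sub_zero] at hg hgd
  set a := rootMultiplicity 0 (minpoly k T)
  have hcop : IsCoprime (X ^ (a + 1)) g := by
    apply IsCoprime.pow_left
    exact (Polynomial.prime_X.irreducible.coprime_iff_not_dvd).2 hgd
  obtain ⟨u, v, huv⟩ := hcop
  -- the idempotent
  have htr : ∀ q : k[X], LinearMap.trace k V (aeval T (q * X)) = 0 := by
    intro q
    induction q using Polynomial.induction_on' with
    | add p q hp hq => rw [add_mul, map_add, map_add, hp, hq, add_zero]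
    | monomial n c =>
      rw [monomial_mul_X, aeval_monomial, ← Algebra.smul_def, map_smul, h n, smul_zero]
  have hmin : aeval T (X ^ a * g) = 0 := by rw [← hg]; exact minpoly.aeval k T
  have hE : IsIdempotentElem (aeval T (u * X ^ (a + 1))) := by
    have h1 : aeval T (u * X ^ (a + 1)) * aeval T (u * X ^ (a + 1)) =
        aeval T (u * X ^ (a + 1)) - aeval T (v * u * X * (X ^ a * g)) := by
      rw [← map_mul, ← map_sub]
      congr 1
      linear_combination (u * X ^ (a + 1)) * huv
    rw [IsIdempotentElem, h1, map_mul (aeval T) (v * u * X), hmin, mul_zero, sub_zero]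
  have hE0 : aeval T (u * X ^ (a + 1)) = 0 := by
    apply LinearMap.IsIdempotentElem.eq_zero_of_trace_eq_zero hE
    have := htr (u * X ^ a)
    rwa [mul_assoc, ← pow_succ] at this
  refine ⟨a, ?_⟩
  have h2 : aeval T (X ^ a : k[X]) = aeval T (X ^ a * (u * X ^ (a + 1))) +
      aeval T (v * (X ^ a * g)) := by
    rw [← map_add]
    congr 1
    linear_combination (-X ^ a) * huv
  rw [map_mul, hE0, mul_zero, map_mul, hmin, mul_zero, add_zero] at h2
  simpa using h2

end Pool.Agent.W457
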