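import Pool.Agent.W457.T3
import Pool.Agent.W457.T4

set_option autoImplicit false

open scoped TensorProduct
open IsLocalRing

namespace Pool.Agent.W457

noncomputable section

universe u

/-- Linear algebra core: over a local ring `R` with residue field of characteristic zero and a
nonzero element `e`, if `X * Y - Y * X = e • T` and `T * X = X * T` on a finitely generated
projective module `V`, then some power of `T` is killed by all linear maps to the residue field. -/
lemma power_zero {R : Type u} [CommRing R] [IsLocalRing R] [CharZero (ResidueField R)]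
    (e : R) (he : e ≠ 0)
    {V : Type u} [AddCommGroup V] [Module R V] [Module.Finite R V] [Module.Projective R V]
    (X Y T : Module.End R V) (hXY : X * Y - Y * X = e • T) (hTX : T * X = X * T) :
    ∃ N : ℕ, ∀ f : V →ₗ[R] ResidueField R, f ∘ₗ T ^ N = 0 := by
  have : Module.Free R V := Module.free_of_flat_of_isLocalRing
  classical
  let φ : R →+* ResidueField R := residue R
  have h1 : ∀ r, e * r = 0 → φ r = 0 := by
    intro r hr
    by_contra hne
    have hu : IsUnit r := by
      by_contra hnu
      exact hne ((residue_eq_zero_iff r).2 ((mem_maximalIdeal r).2 hnu))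
    exact he (hu.mul_left_eq_zero.1 hr)
  let b := Module.Free.chooseBasis R V
  have htr : ∀ j : ℕ, φ (LinearMap.trace R V (T ^ (j + 1))) = 0 := by
    intro j
    apply h1
    have hc : T ^ j * X = X * T ^ j := (Commute.pow_left hTX j).eq
    have : e • T ^ (j + 1) = X * (T ^ j * Y) - (T ^ j * Y) * X := by
      rw [pow_succ, ← mul_smul_comm, ← hXY, mul_sub, ← mul_assoc, ← mul_assoc, ← mul_assoc, hc]
    have h3 : LinearMap.trace R V (e • T ^ (j + 1)) = 0 := by
      rw [this, map_sub, LinearMap.trace_mul_comm, sub_self]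
    rwa [map_smul, smul_eq_mul] at h3
  let A := LinearMap.toMatrix b b T
  let B : Matrix _ _ (ResidueField R) := φ.mapMatrix A
  have hB : IsNilpotent (Matrix.toLin' B) := by
    apply isNilpotent_of_trace_pow
    intro j
    have e1 : Matrix.toLin' B ^ (j + 1) = Matrix.toLin' (B ^ (j + 1)) := by
      exact (map_pow (Matrix.toLinAlgEquiv' : Matrix _ _ (ResidueField R) ≃ₐ[_] _) B (j + 1)).symm
    rw [e1, Matrix.trace_toLin'_eq]
    have e2 : B ^ (j + 1) = φ.mapMatrix (LinearMap.toMatrix b b (T ^ (j + 1))) := by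
      rw [← LinearMap.toMatrix_pow, map_pow]
    rw [e2]
    have e3 : (φ.mapMatrix (LinearMap.toMatrix b b (T ^ (j + 1)))).trace =
        φ (LinearMap.toMatrix b b (T ^ (j + 1))).trace := by
      simp [Matrix.trace]
    rw [e3, ← LinearMap.trace_eq_matrix_trace]
    exact htr j
  obtain ⟨N, hN⟩ := hB
  have hN' : B ^ N = 0 := by
    have : Matrix.toLinAlgEquiv' (B ^ N) = 0 := by
      rw [map_pow]; exact hN
    exact (map_eq_zero_iff _
      (Matrix.toLinAlgEquiv' : Matrix _ _ (ResidueField R) ≃ₐ[_] _).injective).1 this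
  refine ⟨N, fun f => ?_⟩
  have hA : ∀ i j, φ ((LinearMap.toMatrix b b (T ^ N)) i j) = 0 := by
    intro i j
    have : φ.mapMatrix (LinearMap.toMatrix b b (T ^ N)) = 0 := by
      rw [← LinearMap.toMatrix_pow, map_pow]; exact hN'
    have := congrFun (congrFun this i) j
    simpa using this
  apply b.ext
  intro j
  rw [LinearMap.comp_apply, LinearMap.zero_apply, ← b.sum_repr ((T ^ N) (b j)), map_sum]
  refine Finset.sum_eq_zero fun i _ => ?_
  rw [map_smul, Algebra.smul_def]
  have := hA i j
  rw [LinearMap.toMatrix_apply] at this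
  change φ _ * _ = 0
  rw [this, zero_mul]

variable {R : Type u} [CommRing R] [IsLocalRing R] [Eps R]

/-- the comodule `R / m` on which the group acts through the last coordinate -/
def char (he : (Eps.e : R) ∈ maximalIdeal R) : Coaction R (GA R) (ResidueField R) where
  map := (TensorProduct.mk R (ResidueField R) (GA R)).flip (GA.gen R 2)
  coassoc := by
    apply LinearMap.ext
    intro m
    have h0 : (Eps.e : R) • m = 0 := by
      rw [Algebra.smul_def]
      change residue R _ * m = 0
      rw [(residue_eq_zero_iff _).2 he, zero_mul]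
    have h : Coalgebra.comul (R := R) (GA.gen R 2) =
        (GA.gen R 2 ⊗ₜ[R] GA.gen R 2) * (1 + GA.ee R _ * (GA.gen R 0 ⊗ₜ GA.gen R 1)) :=
      GA.comulA_2
    have h2 : (GA.gen R 2 ⊗ₜ[R] GA.gen R 2) * (1 + GA.ee R _ * (GA.gen R 0 ⊗ₜ GA.gen R 1)) =
      (GA.gen R 2 ⊗ₜ[R] GA.gen R 2) + (Eps.e : R) • ((GA.gen R 2 ⊗ₜ[R] GA.gen R 2) *
        (GA.gen R 0 ⊗ₜ GA.gen R 1)) := by
      rw [mul_add, mul_one, mul_left_comm, GA.ee, Algebra.smul_def]
    simp only [LinearMap.coe_comp, Function.comp_apply, LinearEquiv.coe_coe, LinearMap.flip_apply,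
      TensorProduct.mk_apply, LinearMap.rTensor_tmul, TensorProduct.assoc_tmul,
      LinearMap.lTensor_tmul]
    rw [h, h2, TensorProduct.tmul_add, TensorProduct.tmul_smul, TensorProduct.smul_tmul',
      h0, TensorProduct.zero_tmul, add_zero]
  counit := by
    apply LinearMap.ext
    intro m
    have h : Coalgebra.counit (R := R) (GA.gen R 2) = 1 := GA.counitA_2
    simp [h]

lemma char_act (he : (Eps.e : R) ∈ maximalIdeal R) :
    (char he).act (GA.fn 0 0 1) = LinearMap.id := by
  apply LinearMap.ext
  intro m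
  have h3 : GA.fn 0 0 1 (GA.gen R 2) = 1 := by simp [GA.fn]
  simp [char, Coaction.act, h3]

/-- No finitely generated projective comodule surjects onto `char`. -/
lemma no_surjection [CharZero (ResidueField R)] (he : (Eps.e : R) ∈ maximalIdeal R)
    (he0 : (Eps.e : R) ≠ 0)
    {V : Type u} [AddCommGroup V] [Module R V] [Module.Finite R V] [Module.Projective R V]
    (σ : Coaction R (GA R) V) (f : V →ₗ[R] ResidueField R)
    (hf : (char he).map ∘ₗ f = f.rTensor (GA R) ∘ₗ σ.map) : ¬ Function.Surjective f := by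
  intro hs
  obtain ⟨N, hN⟩ := power_zero (Eps.e : R) he0 (σ.act (GA.fn 1 0 0)) (σ.act (GA.fn 0 1 0))
    (σ.act (GA.fn 0 0 1))
    (by
      change σ.act _ ∘ₗ σ.act _ - σ.act _ ∘ₗ σ.act _ = _
      rw [σ.act_comp, σ.act_comp, ← σ.act_sub, GA.conv_comm_xy, σ.act_smul])
    (by
      change σ.act _ ∘ₗ σ.act _ = σ.act _ ∘ₗ σ.act _
      rw [σ.act_comp, σ.act_comp, GA.conv_comm_tx])
  have hT : f ∘ₗ σ.act (GA.fn 0 0 1) = f := by
    rw [← σ.act_hom (char he) f hf, char_act, LinearMap.id_comp]
  have hTN : ∀ n : ℕ, ∀ v : V, f ((σ.act (GA.fn 0 0 1) ^ n) v) = f v := by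
    intro n
    induction n with
    | zero => intro v; simp
    | succ n ih =>
      intro v
      rw [pow_succ, Module.End.mul_apply, ih]
      exact LinearMap.congr_fun hT v
  obtain ⟨v, hv⟩ := hs 1
  have h0 : (1 : ResidueField R) = 0 := by
    rw [← hv, ← hTN N v]
    exact LinearMap.congr_fun (hN f) v
  exact one_ne_zero h0

end

end Pool.Agent.W457
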