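import Mathlib

set_option autoImplicit false

/-!
Union-closed families in which every deletable element is covered by a small member:
degree-weighted averaging over the members of size three.
-/

namespace Pool.Agent.W457.UC

open Finset

/-- Boolean bookkeeping: the contribution of a fibre. -/
def bi (b : Bool) : ℤ := if b then 1 else 0

/-- contribution of the fibre with traces `t0, ta, ..., tbc` (the full trace is always present). -/
def cc (t0 ta tb tc tab tac tbc : Bool) : ℤ :=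
  3 + (bi tab + bi tac + bi tbc) - (bi ta + bi tb + bi tc) - 3 * bi t0

/-- `a` is essential -/
def es (t0 tb tc tbc : Bool) : Bool := !t0 && !tb && !tc && !tbc

/-- `a` is private -/
def pv (ta tab tac : Bool) : Bool := !ta && !tab && !tac

theorem bool_ineq : ∀ t0 ta tb tc tab tac tbc : Bool,
    (ta = true → tb = true → tab = true) → (ta = true → tc = true → tac = true) →
    (tb = true → tc = true → tbc = true) →
    bi (es t0 tb tc tbc) + bi (es t0 ta tc tac) + bi (es t0 ta tb tab) -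
      (if cc t0 ta tb tc tab tac tbc < 0 then 1 else 0) ≤ cc t0 ta tb tc tab tac tbc := by
  decide

theorem bool_neg : ∀ t0 ta tb tc tab tac tbc : Bool,
    (ta = true → tb = true → tab = true) → (ta = true → tc = true → tac = true) →
    (tb = true → tc = true → tbc = true) →
    cc t0 ta tb tc tab tac tbc < 0 →
    t0 = true ∧ ((ta = true ∧ pv tb tab tbc = true) ∨ (ta = true ∧ pv tc tac tbc = true) ∨
      (tb = true ∧ pv ta tab tac = true) ∨ (tb = true ∧ pv tc tac tbc = true) ∨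
      (tc = true ∧ pv ta tab tac = true) ∨ (tc = true ∧ pv tb tab tbc = true)) := by
  decide

/-- the traces on `e` of the members of `A` with `X ∪ e = Z` -/
def fib (A : Finset (Finset ℕ)) (Z e : Finset ℕ) : Finset (Finset ℕ) :=
  e.powerset.filter (fun S => (Z \ e) ∪ S ∈ A)

/-- the contribution of the fibre of `Z` in direction `e` -/
def cz (A : Finset (Finset ℕ)) (Z e : Finset ℕ) : ℤ :=
  ∑ S ∈ fib A Z e, (2 * (S.card : ℤ) - 3)

/-- `v` is essential for `f` in `Z` -/
def Ess (A : Finset (Finset ℕ)) (Z f : Finset ℕ) (v : ℕ) : Prop :=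
  ∀ S ⊆ f, (Z \ f) ∪ S ∈ A → v ∈ S

theorem sum_fib {A : Finset (Finset ℕ)} (hU : ∀ X ∈ A, ∀ Y ∈ A, X ∪ Y ∈ A) {e : Finset ℕ}
    (he : e ∈ A) :
    ∑ X ∈ A, (2 * ((X ∩ e).card : ℤ) - 3) = ∑ Z ∈ A.filter (fun Z => e ⊆ Z), cz A Z e := by
  rw [← Finset.sum_fiberwise_of_maps_to (g := fun X => X ∪ e) (t := A.filter (fun Z => e ⊆ Z))]
  · apply Finset.sum_congr rfl
    intro Z hZ
    rw [mem_filter] at hZ
    unfold cz
    apply Finset.sum_nbij' (fun X => X ∩ e) (fun S => (Z \ e) ∪ S)
    · intro X hX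
      rw [mem_filter] at hX
      unfold fib
      rw [mem_filter, mem_powerset]
      refine ⟨inter_subset_right, ?_⟩
      have : (Z \ e) ∪ (X ∩ e) = X := by
        rw [← hX.2]
        ext i
        simp only [mem_union, mem_sdiff, mem_inter]
        tauto
      rw [this]
      exact hX.1
    · intro S hS
      unfold fib at hS
      rw [mem_filter, mem_powerset] at hS
      rw [mem_filter]
      refine ⟨hS.2, ?_⟩
      ext i
      have h1 : i ∈ S → i ∈ e := fun h => hS.1 h
      have h2 : i ∈ e → i ∈ Z := fun h => hZ.2 h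
      simp only [mem_union, mem_sdiff]
      tauto
    · intro X hX
      rw [mem_filter] at hX
      rw [← hX.2]
      ext i
      simp only [mem_union, mem_sdiff, mem_inter]
      tauto
    · intro S hS
      unfold fib at hS
      rw [mem_filter, mem_powerset] at hS
      ext i
      have h1 : i ∈ S → i ∈ e := fun h => hS.1 h
      simp only [mem_union, mem_sdiff, mem_inter]
      tauto
    · intro X hX
      rfl
  · intro X hX
    rw [mem_filter]
    exact ⟨hU X hX e he, subset_union_right⟩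

section three

variable {A : Finset (Finset ℕ)} {Z : Finset ℕ} {a b c : ℕ}

/-- trace indicator -/
noncomputable def tr (A : Finset (Finset ℕ)) (Z e S : Finset ℕ) : Bool := by
  classical exact decide ((Z \ e) ∪ S ∈ A)

theorem tr_iff (e S : Finset ℕ) : tr A Z e S = true ↔ (Z \ e) ∪ S ∈ A := by
  unfold tr
  simp

theorem tr_union (hU : ∀ X ∈ A, ∀ Y ∈ A, X ∪ Y ∈ A) (e S T : Finset ℕ)
    (h1 : tr A Z e S = true) (h2 : tr A Z e T = true) : tr A Z e (S ∪ T) = true := by
  rw [tr_iff] at *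
  have := hU _ h1 _ h2
  rwa [← Finset.union_union_distrib_left] at this

theorem cz_eq (hab : a ≠ b) (hac : a ≠ c) (hbc : b ≠ c)
    (hZ : tr A Z {a, b, c} {a, b, c} = true) :
    cz A Z {a, b, c} = cc (tr A Z {a, b, c} ∅) (tr A Z {a, b, c} {a}) (tr A Z {a, b, c} {b})
      (tr A Z {a, b, c} {c}) (tr A Z {a, b, c} {a, b}) (tr A Z {a, b, c} {a, c})
      (tr A Z {a, b, c} {b, c}) := by
  have key : cz A Z {a, b, c} =
      ∑ S ∈ ({a, b, c} : Finset ℕ).powerset,
        (if tr A Z {a, b, c} S = true then (2 * (S.card : ℤ) - 3) else 0) := by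
    unfold cz fib
    rw [Finset.sum_filter]
    apply Finset.sum_congr rfl
    intro S _
    simp only [tr_iff]
  rw [key]
  have ha : a ∉ ({b, c} : Finset ℕ) := by simp [hab, hac]
  have hb : b ∉ ({c} : Finset ℕ) := by simp [hbc]
  have hc : c ∉ (∅ : Finset ℕ) := by simp
  have e1 : ({a, b, c} : Finset ℕ) = insert a {b, c} := rfl
  rw [show ({a, b, c} : Finset ℕ).powerset = (insert a ({b, c} : Finset ℕ)).powerset from rfl,
    Finset.sum_powerset_insert ha,
    show ({b, c} : Finset ℕ).powerset = (insert b ({c} : Finset ℕ)).powerset from rfl,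
    Finset.sum_powerset_insert hb, Finset.sum_powerset_insert hb,
    show ({c} : Finset ℕ).powerset = (insert c (∅ : Finset ℕ)).powerset from rfl,
    Finset.sum_powerset_insert hc, Finset.sum_powerset_insert hc, Finset.sum_powerset_insert hc,
    Finset.sum_powerset_insert hc]
  simp only [Finset.powerset_empty, Finset.sum_singleton]
  have c1 : (insert c (∅ : Finset ℕ)) = {c} := rfl
  have c2 : (insert b (∅ : Finset ℕ)) = {b} := rfl
  have c3 : (insert a (∅ : Finset ℕ)) = {a} := rfl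
  rw [c1, c2, c3]
  have k1 : (({c} : Finset ℕ).card : ℤ) = 1 := by simp
  have k2 : (({b} : Finset ℕ).card : ℤ) = 1 := by simp
  have k3 : (({a} : Finset ℕ).card : ℤ) = 1 := by simp
  have k4 : (({b, c} : Finset ℕ).card : ℤ) = 2 := by simp [Finset.card_pair hbc]
  have k5 : (({a, c} : Finset ℕ).card : ℤ) = 2 := by simp [Finset.card_pair hac]
  have k6 : (({a, b} : Finset ℕ).card : ℤ) = 2 := by simp [Finset.card_pair hab]
  have k7 : (({a, b, c} : Finset ℕ).card : ℤ) = 3 := by
    rw [Finset.card_eq_three.mpr ⟨a, b, c, hab, hac, hbc, rfl⟩]; rfl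
  rw [k1, k2, k3, k4, k5, k6, k7, hZ]
  unfold cc bi
  simp only [Finset.card_empty, if_true]
  generalize tr A Z {a, b, c} ∅ = t0
  generalize tr A Z {a, b, c} {a} = ta
  generalize tr A Z {a, b, c} {b} = tb
  generalize tr A Z {a, b, c} {c} = tc
  generalize tr A Z {a, b, c} {a, b} = tab
  generalize tr A Z {a, b, c} {a, c} = tac
  generalize tr A Z {a, b, c} {b, c} = tbc
  revert t0 ta tb tc tab tac tbc
  decide

theorem tr_full {e : Finset ℕ} (hZ : Z ∈ A) (he : e ⊆ Z) : tr A Z e e = true := by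
  rw [tr_iff, Finset.sdiff_union_of_subset he]
  exact hZ

theorem sum_three {a b c : ℕ} (hab : a ≠ b) (hac : a ≠ c) (hbc : b ≠ c) (f : ℕ → ℤ) :
    ∑ x ∈ ({a, b, c} : Finset ℕ), f x = f a + f b + f c := by
  have ha : a ∉ ({b, c} : Finset ℕ) := by simp [hab, hac]
  have hb : b ∉ ({c} : Finset ℕ) := by simp [hbc]
  rw [Finset.sum_insert ha, Finset.sum_insert hb, Finset.sum_singleton]
  ring

/-- the number of essential vertices is at most the contribution, plus one if it is negative -/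
theorem ess_le (hU : ∀ X ∈ A, ∀ Y ∈ A, X ∪ Y ∈ A) (hZ : Z ∈ A) {e : Finset ℕ} (he : e ⊆ Z)
    (h3 : e.card = 3) [DecidablePred (Ess A Z e)] :
    ((e.filter (fun v => Ess A Z e v)).card : ℤ) - (if cz A Z e < 0 then 1 else 0) ≤ cz A Z e := by
  obtain ⟨a, b, c, hab, hac, hbc, rfl⟩ := Finset.card_eq_three.mp h3
  have hfull := tr_full (A := A) hZ he
  rw [cz_eq hab hac hbc hfull]
  have u1 := tr_union (Z := Z) hU {a, b, c} {a} {b}
  have u2 := tr_union (Z := Z) hU {a, b, c} {a} {c}
  have u3 := tr_union (Z := Z) hU {a, b, c} {b} {c}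
  have hq := bool_ineq (tr A Z {a, b, c} ∅) (tr A Z {a, b, c} {a}) (tr A Z {a, b, c} {b})
      (tr A Z {a, b, c} {c}) (tr A Z {a, b, c} {a, b}) (tr A Z {a, b, c} {a, c})
      (tr A Z {a, b, c} {b, c}) u1 u2 u3
  refine le_trans (sub_le_sub_right ?_ _) hq
  have hes : ∀ v S1 S2 S3 : Finset ℕ, ∀ x : ℕ, Ess A Z {a, b, c} x →
      S1 ⊆ {a, b, c} → S2 ⊆ {a, b, c} → S3 ⊆ {a, b, c} → x ∉ S1 → x ∉ S2 → x ∉ S3 →
      es (tr A Z {a, b, c} ∅) (tr A Z {a, b, c} S1) (tr A Z {a, b, c} S2)
        (tr A Z {a, b, c} S3) = true := by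
    intro _ S1 S2 S3 x hx h1 h2 h3 n1 n2 n3
    have g : ∀ S : Finset ℕ, S ⊆ {a, b, c} → x ∉ S → tr A Z {a, b, c} S = false := by
      intro S hS hn
      by_contra hcon
      rw [Bool.not_eq_false, tr_iff] at hcon
      exact hn (hx S hS hcon)
    unfold es
    rw [g ∅ (Finset.empty_subset _) (by simp), g S1 h1 n1, g S2 h2 n2, g S3 h3 n3]
    rfl
  have hsum : ((({a, b, c} : Finset ℕ).filter (fun v => Ess A Z {a, b, c} v)).card : ℤ) =
      (if Ess A Z {a, b, c} a then 1 else 0) + (if Ess A Z {a, b, c} b then 1 else 0) +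
      (if Ess A Z {a, b, c} c then 1 else 0) := by
    rw [Finset.card_filter]
    push_cast
    exact sum_three hab hac hbc _
  rw [hsum]
  have s1 : (if Ess A Z {a, b, c} a then (1 : ℤ) else 0) ≤
      bi (es (tr A Z {a, b, c} ∅) (tr A Z {a, b, c} {b}) (tr A Z {a, b, c} {c})
        (tr A Z {a, b, c} {b, c})) := by
    split_ifs with h
    · rw [hes ∅ {b} {c} {b, c} a h (by simp) (by simp) (by simp)
        (by simp [hab]) (by simp [hac]) (by simp [hab, hac])]
      simp [bi]
    · unfold bi; split_ifs <;> simp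
  have s2 : (if Ess A Z {a, b, c} b then (1 : ℤ) else 0) ≤
      bi (es (tr A Z {a, b, c} ∅) (tr A Z {a, b, c} {a}) (tr A Z {a, b, c} {c})
        (tr A Z {a, b, c} {a, c})) := by
    split_ifs with h
    · rw [hes ∅ {a} {c} {a, c} b h (by simp) (by simp) (by simp [Finset.insert_subset_iff])
        (by simp [hab.symm]) (by simp [hbc]) (by simp [hab.symm, hbc])]
      simp [bi]
    · unfold bi; split_ifs <;> simp
  have s3 : (if Ess A Z {a, b, c} c then (1 : ℤ) else 0) ≤
      bi (es (tr A Z {a, b, c} ∅) (tr A Z {a, b, c} {a}) (tr A Z {a, b, c} {b})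
        (tr A Z {a, b, c} {a, b})) := by
    split_ifs with h
    · rw [hes ∅ {a} {b} {a, b} c h (by simp) (by simp) (by simp [Finset.insert_subset_iff])
        (by simp [hac.symm]) (by simp [hbc.symm]) (by simp [hac.symm, hbc.symm])]
      simp [bi]
    · unfold bi; split_ifs <;> simp
  linarith

/-- enumeration of the traces containing a private vertex -/
theorem priv_of {e : Finset ℕ} {x y z : ℕ} (heq : e = {x, y, z})
    (f1 : tr A Z e {x} = false) (f2 : tr A Z e {x, y} = false)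
    (f3 : tr A Z e {x, z} = false) :
    ∀ S ⊆ e, x ∈ S → (Z \ e) ∪ S ∈ A → S = e := by
  intro S hS hxS hSA
  rw [← tr_iff] at hSA
  have hsub : ∀ i ∈ S, i = x ∨ i = y ∨ i = z := by
    intro i hi
    have := hS hi
    rw [heq] at this
    simpa only [mem_insert, mem_singleton] using this
  by_cases hy : y ∈ S
  · by_cases hz : z ∈ S
    · apply Finset.Subset.antisymm hS
      rw [heq]
      intro i hi
      simp only [mem_insert, mem_singleton] at hi
      rcases hi with rfl | rfl | rfl <;> assumption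
    · have : S = {x, y} := by
        ext i
        simp only [mem_insert, mem_singleton]
        constructor
        · intro hi
          rcases hsub i hi with h | h | h
          · exact Or.inl h
          · exact Or.inr h
          · rw [h] at hi; exact absurd hi hz
        · rintro (rfl | rfl) <;> assumption
      rw [this, f2] at hSA
      exact absurd hSA Bool.false_ne_true
  · by_cases hz : z ∈ S
    · have : S = {x, z} := by
        ext i
        simp only [mem_insert, mem_singleton]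
        constructor
        · intro hi
          rcases hsub i hi with h | h | h
          · exact Or.inl h
          · rw [h] at hi; exact absurd hi hy
          · exact Or.inr h
        · rintro (rfl | rfl) <;> assumption
      rw [this, f3] at hSA
      exact absurd hSA Bool.false_ne_true
    · have : S = {x} := by
        ext i
        simp only [mem_singleton]
        constructor
        · intro hi
          rcases hsub i hi with h | h | h
          · exact h
          · rw [h] at hi; exact absurd hi hy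
          · rw [h] at hi; exact absurd hi hz
        · rintro rfl; exact hxS
      rw [this, f1] at hSA
      exact absurd hSA Bool.false_ne_true

theorem perm1 (a b c : ℕ) : ({a, b, c} : Finset ℕ) = {b, a, c} := Finset.insert_comm a b {c}

theorem perm2 (a b c : ℕ) : ({a, b, c} : Finset ℕ) = {c, a, b} := by
  rw [Finset.insert_comm c a, Finset.pair_comm c b]

/-- structure of the directions with negative contribution: `x` can be kept alone, `y` never
without the whole of `e`. -/
theorem neg_struct (hU : ∀ X ∈ A, ∀ Y ∈ A, X ∪ Y ∈ A) (hZ : Z ∈ A) {e : Finset ℕ} (he : e ⊆ Z)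
    (h3 : e.card = 3) (hneg : cz A Z e < 0) :
    Z \ e ∈ A ∧ ∃ x ∈ e, ∃ y ∈ e, (Z \ e) ∪ {x} ∈ A ∧
      ∀ S ⊆ e, y ∈ S → (Z \ e) ∪ S ∈ A → S = e := by
  obtain ⟨a, b, c, hab, hac, hbc, rfl⟩ := Finset.card_eq_three.mp h3
  have hfull := tr_full (A := A) hZ he
  rw [cz_eq hab hac hbc hfull] at hneg
  have u1 := tr_union (Z := Z) hU {a, b, c} {a} {b}
  have u2 := tr_union (Z := Z) hU {a, b, c} {a} {c}
  have u3 := tr_union (Z := Z) hU {a, b, c} {b} {c}
  have hq := bool_neg (tr A Z {a, b, c} ∅) (tr A Z {a, b, c} {a}) (tr A Z {a, b, c} {b})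
      (tr A Z {a, b, c} {c}) (tr A Z {a, b, c} {a, b}) (tr A Z {a, b, c} {a, c})
      (tr A Z {a, b, c} {b, c}) u1 u2 u3 hneg
  obtain ⟨h0, hcase⟩ := hq
  have h0' : Z \ {a, b, c} ∈ A := by
    rw [tr_iff, Finset.union_empty] at h0
    exact h0
  refine ⟨h0', ?_⟩
  have pvs : ∀ p q r : Bool, pv p q r = true → p = false ∧ q = false ∧ r = false := by decide
  have eba : ({a, b} : Finset ℕ) = {b, a} := Finset.pair_comm a b
  have eca : ({a, c} : Finset ℕ) = {c, a} := Finset.pair_comm a c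
  have ecb : ({b, c} : Finset ℕ) = {c, b} := Finset.pair_comm b c
  have E1 := perm1 a b c
  have E2 := perm2 a b c
  have PA : pv (tr A Z {a, b, c} {a}) (tr A Z {a, b, c} {a, b}) (tr A Z {a, b, c} {a, c}) = true →
      ∀ S ⊆ ({a, b, c} : Finset ℕ), a ∈ S → (Z \ {a, b, c}) ∪ S ∈ A → S = {a, b, c} := by
    intro h
    obtain ⟨f1, f2, f3⟩ := pvs _ _ _ h
    exact priv_of rfl f1 f2 f3
  have PB : pv (tr A Z {a, b, c} {b}) (tr A Z {a, b, c} {a, b}) (tr A Z {a, b, c} {b, c}) = true →
      ∀ S ⊆ ({a, b, c} : Finset ℕ), b ∈ S → (Z \ {a, b, c}) ∪ S ∈ A → S = {a, b, c} := by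
    intro h
    obtain ⟨f1, f2, f3⟩ := pvs _ _ _ h
    rw [eba] at f2
    exact priv_of E1 f1 f2 f3
  have PC : pv (tr A Z {a, b, c} {c}) (tr A Z {a, b, c} {a, c}) (tr A Z {a, b, c} {b, c}) = true →
      ∀ S ⊆ ({a, b, c} : Finset ℕ), c ∈ S → (Z \ {a, b, c}) ∪ S ∈ A → S = {a, b, c} := by
    intro h
    obtain ⟨f1, f2, f3⟩ := pvs _ _ _ h
    have f2' : tr A Z {a, b, c} {c, a} = false := by rw [← eca]; exact f2
    have f3' : tr A Z {a, b, c} {c, b} = false := by rw [← ecb]; exact f3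
    exact priv_of E2 f1 f2' f3'
  have ma : a ∈ ({a, b, c} : Finset ℕ) := by simp
  have mb : b ∈ ({a, b, c} : Finset ℕ) := by simp
  have mc : c ∈ ({a, b, c} : Finset ℕ) := by simp
  rcases hcase with ⟨h1, h2⟩ | ⟨h1, h2⟩ | ⟨h1, h2⟩ | ⟨h1, h2⟩ | ⟨h1, h2⟩ | ⟨h1, h2⟩
  · exact ⟨a, ma, b, mb, (tr_iff _ _).mp h1, PB h2⟩
  · exact ⟨a, ma, c, mc, (tr_iff _ _).mp h1, PC h2⟩
  · exact ⟨b, mb, a, ma, (tr_iff _ _).mp h1, PA h2⟩
  · exact ⟨b, mb, c, mc, (tr_iff _ _).mp h1, PC h2⟩
  · exact ⟨c, mc, a, ma, (tr_iff _ _).mp h1, PA h2⟩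
  · exact ⟨c, mc, b, mb, (tr_iff _ _).mp h1, PB h2⟩

end three

/-- the small-cover condition for the members of size three: a deletable element of a member,
lying in some member of size three, lies in a member of size three contained in it -/
def Cov (A : Finset (Finset ℕ)) : Prop :=
  ∀ X ∈ A, ∀ a ∈ X, (∃ e ∈ A, e.card = 3 ∧ a ∈ e) → X.erase a ∈ A →
    ∃ f ∈ A, f.card = 3 ∧ a ∈ f ∧ f ⊆ X

theorem trace_union {A : Finset (Finset ℕ)} (hU : ∀ X ∈ A, ∀ Y ∈ A, X ∪ Y ∈ A)
    {Z f W : Finset ℕ} (h1 : Z \ f ∈ A) (hW : W ∈ A) (hWZ : W ⊆ Z) :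
    (Z \ f) ∪ (f ∩ W) ∈ A := by
  have := hU _ h1 _ hW
  have heq : (Z \ f) ∪ W = (Z \ f) ∪ (f ∩ W) := by
    ext i
    have h2 : i ∈ W → i ∈ Z := fun h => hWZ h
    simp only [mem_union, mem_sdiff, mem_inter]
    tauto
  rwa [heq] at this

/-- attach vertex and compensating member of a negative direction -/
theorem attach {A : Finset (Finset ℕ)} (hU : ∀ X ∈ A, ∀ Y ∈ A, X ∪ Y ∈ A) (hcov : Cov A)
    {Z : Finset ℕ} (hZ : Z ∈ A) {e : Finset ℕ} (heA : e ∈ A) (he : e ⊆ Z)
    (h3 : e.card = 3) (hneg : cz A Z e < 0) :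
    ∃ f x, (f ∈ A ∧ f.card = 3 ∧ f ⊆ Z) ∧ x ∈ f ∧ Ess A Z f x ∧ x ∈ e ∧
      (∀ g ∈ A, g ⊆ Z → g.card = 3 → x ∈ g → Z \ g ∈ A → g = e) := by
  obtain ⟨h0, x, hx, y, hy, hxA, hpriv⟩ := neg_struct hU hZ he h3 hneg
  have hxn : x ∉ Z \ e := by simp [hx]
  have hyn : y ∉ Z \ e := by simp [hy]
  -- `x ≠ y`
  have hxy : y ≠ x := by
    rintro rfl
    have := hpriv {y} (by simpa using hy) (by simp) hxA
    rw [← this] at h3
    simp at h3
  have hyX : y ∉ (Z \ e) ∪ {x} := by
    rw [mem_union, mem_singleton]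
    rintro (h | h)
    · exact hyn h
    · exact hxy h
  have her : ((Z \ e) ∪ {x}).erase x = Z \ e := by
    ext i
    simp only [mem_erase, mem_union, mem_singleton]
    constructor
    · rintro ⟨h1, h2 | h2⟩
      · exact h2
      · exact absurd h2 h1
    · intro h
      exact ⟨fun h' => hxn (h' ▸ h), Or.inl h⟩
  obtain ⟨f, hfA, hf3, hxf, hfX⟩ := hcov _ hxA x (by simp) ⟨e, heA, h3, hx⟩ (by rw [her]; exact h0)
  have hXZ : (Z \ e) ∪ {x} ⊆ Z := by
    intro i hi
    rw [mem_union, mem_singleton] at hi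
    rcases hi with h | h
    · exact (mem_sdiff.mp h).1
    · rw [h]; exact he hx
  have hfZ : f ⊆ Z := hfX.trans hXZ
  have hyf : y ∉ f := fun h => hyX (hfX h)
  -- a member inside `Z` that contains `y` contains `x`
  have hdep : ∀ W ∈ A, W ⊆ Z → y ∈ W → x ∈ W := by
    intro W hW hWZ hyW
    have h1 := trace_union hU h0 hW hWZ
    have h2 := hpriv (e ∩ W) inter_subset_left (mem_inter.mpr ⟨hy, hyW⟩) h1
    have : x ∈ e ∩ W := by rw [h2]; exact hx
    exact (mem_inter.mp this).2
  refine ⟨f, x, ⟨hfA, hf3, hfZ⟩, hxf, ?_, hx, ?_⟩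
  · intro S hS hSA
    by_contra hxS
    have hWZ : (Z \ f) ∪ S ⊆ Z := by
      intro i hi
      rw [mem_union] at hi
      rcases hi with h | h
      · exact (mem_sdiff.mp h).1
      · exact hfZ (hS h)
    have hyW : y ∈ (Z \ f) ∪ S := by
      rw [mem_union, mem_sdiff]
      exact Or.inl ⟨he hy, hyf⟩
    have hxW := hdep _ hSA hWZ hyW
    rw [mem_union, mem_sdiff] at hxW
    rcases hxW with h | h
    · exact h.2 hxf
    · exact hxS h
  · intro g hgA hgZ hg3 hxg hZg
    -- `y ∈ g`, otherwise `y` survives in `Z \ g` without `x`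
    have hyg : y ∈ g := by
      by_contra hyg
      have := hdep _ hZg sdiff_subset (mem_sdiff.mpr ⟨he hy, hyg⟩)
      exact (mem_sdiff.mp this).2 hxg
    have h1 := trace_union hU h0 hgA hgZ
    have h2 := hpriv (e ∩ g) inter_subset_left (mem_inter.mpr ⟨hy, hyg⟩) h1
    have h4 : e ⊆ g := by rw [← h2]; exact inter_subset_right
    exact (Finset.eq_of_subset_of_card_le h4 (by rw [hg3, h3])).symm

/-- the local inequality -/
theorem local_ineq {A : Finset (Finset ℕ)} (hU : ∀ X ∈ A, ∀ Y ∈ A, X ∪ Y ∈ A) (hcov : Cov A)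
    {Z : Finset ℕ} (hZ : Z ∈ A) :
    0 ≤ ∑ e ∈ A.filter (fun e => e.card = 3 ∧ e ⊆ Z), cz A Z e := by
  classical
  set E := A.filter (fun e => e.card = 3 ∧ e ⊆ Z) with hE
  have hmem : ∀ e, e ∈ E ↔ e ∈ A ∧ e.card = 3 ∧ e ⊆ Z := by
    intro e; rw [hE, mem_filter]
  set N := E.filter (fun e => cz A Z e < 0) with hN
  -- pairs (member, essential vertex)
  set P := E.sigma (fun f => f.filter (fun v => Ess A Z f v)) with hP
  have hcard : N.card ≤ P.card := by
    have hex : ∀ e ∈ N, ∃ q : (_ : Finset ℕ) × ℕ, q ∈ P ∧ q.2 ∈ e ∧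
        (∀ g ∈ A, g ⊆ Z → g.card = 3 → q.2 ∈ g → Z \ g ∈ A → g = e) := by
      intro e he
      rw [hN, mem_filter, hmem] at he
      obtain ⟨⟨heA, h3, heZ⟩, hneg⟩ := he
      obtain ⟨f, x, ⟨hf1, hf2, hf3⟩, hxf, hess, hxe, huniq⟩ :=
        attach hU hcov hZ heA heZ h3 hneg
      refine ⟨⟨f, x⟩, ?_, hxe, huniq⟩
      rw [hP, mem_sigma]
      exact ⟨(hmem f).mpr ⟨hf1, hf2, hf3⟩, mem_filter.mpr ⟨hxf, hess⟩⟩
    choose! φ hφ1 hφ2 hφ3 using hex
    apply Finset.card_le_card_of_injOn φ (fun e he => hφ1 e he)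
    intro e he e' he' heq
    have h1 := hφ3 e he
    have he'1 : e' ∈ N := he'
    rw [hN, mem_filter, hmem] at he'1
    obtain ⟨⟨heA, h3, heZ⟩, hneg⟩ := he'1
    have h0 := (neg_struct hU hZ heZ h3 hneg).1
    have h2 := hφ2 e' he'
    rw [← heq] at h2
    exact (h1 e' heA heZ h3 h2 h0).symm
  have hterm : ∀ e ∈ E, ((e.filter (fun v => Ess A Z e v)).card : ℤ) -
      (if cz A Z e < 0 then 1 else 0) ≤ cz A Z e := by
    intro e he
    rw [hmem] at he
    exact ess_le hU hZ he.2.2 he.2.1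
  have hsum := Finset.sum_le_sum hterm
  rw [Finset.sum_sub_distrib] at hsum
  have h1 : (∑ e ∈ E, ((e.filter (fun v => Ess A Z e v)).card : ℤ)) = (P.card : ℤ) := by
    rw [hP, Finset.card_sigma]
    push_cast
    rfl
  have h2 : (∑ e ∈ E, (if cz A Z e < 0 then (1 : ℤ) else 0)) = (N.card : ℤ) := by
    rw [hN, Finset.card_filter]
    push_cast
    rfl
  rw [h1, h2] at hsum
  have : (N.card : ℤ) ≤ P.card := by exact_mod_cast hcard
  linarith

/-- the averaging inequality over the members of size three -/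
theorem average {A : Finset (Finset ℕ)} (hU : ∀ X ∈ A, ∀ Y ∈ A, X ∪ Y ∈ A) (hcov : Cov A) :
    0 ≤ ∑ e ∈ A.filter (fun e => e.card = 3), ∑ X ∈ A, (2 * ((X ∩ e).card : ℤ) - 3) := by
  have h1 : ∑ e ∈ A.filter (fun e => e.card = 3), ∑ X ∈ A, (2 * ((X ∩ e).card : ℤ) - 3) =
      ∑ e ∈ A.filter (fun e => e.card = 3), ∑ Z ∈ A.filter (fun Z => e ⊆ Z), cz A Z e := by
    apply Finset.sum_congr rfl
    intro e he
    exact sum_fib hU (mem_filter.mp he).1
  have h2 : ∑ e ∈ A.filter (fun e => e.card = 3), ∑ Z ∈ A.filter (fun Z => e ⊆ Z), cz A Z e =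
      ∑ Z ∈ A, ∑ e ∈ A.filter (fun e => e.card = 3 ∧ e ⊆ Z), cz A Z e := by
    apply Finset.sum_comm'
    intro e Z
    simp only [mem_filter]
    tauto
  rw [h1, h2]
  exact Finset.sum_nonneg fun Z hZ => local_ineq hU hcov hZ

/-- double counting -/
theorem sum_inter (A : Finset (Finset ℕ)) (e : Finset ℕ) :
    ∑ X ∈ A, ((X ∩ e).card : ℤ) = ∑ i ∈ e, ((A.filter (fun X => i ∈ X)).card : ℤ) := by
  have h1 : ∀ X ∈ A, ((X ∩ e).card : ℤ) = ∑ i ∈ e, (if i ∈ X then (1 : ℤ) else 0) := by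
    intro X _
    rw [Finset.sum_ite_mem, Finset.inter_comm]
    simp
  rw [Finset.sum_congr rfl h1, Finset.sum_comm]
  apply Finset.sum_congr rfl
  intro i _
  rw [Finset.card_filter]
  push_cast
  rfl

/-- conclusion from the averaging inequality -/
theorem of_average {A : Finset (Finset ℕ)} (hU : ∀ X ∈ A, ∀ Y ∈ A, X ∪ Y ∈ A) (hcov : Cov A)
    (h3 : ∃ e ∈ A, e.card = 3) :
    ∃ e ∈ A, e.card = 3 ∧ ∃ i ∈ e, A.card ≤ 2 * (A.filter (fun X => i ∈ X)).card := by
  by_contra hcon
  push Not at hcon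
  obtain ⟨e0, he0, hc0⟩ := h3
  have hneg : ∀ e ∈ A.filter (fun e => e.card = 3),
      ∑ X ∈ A, (2 * ((X ∩ e).card : ℤ) - 3) < 0 := by
    intro e he
    rw [mem_filter] at he
    rw [Finset.sum_sub_distrib, ← Finset.mul_sum, sum_inter]
    simp only [Finset.sum_const, nsmul_eq_mul]
    have hlt : ∑ i ∈ e, (2 * ((A.filter (fun X => i ∈ X)).card : ℤ)) < ∑ _i ∈ e, (A.card : ℤ) := by
      apply Finset.sum_lt_sum_of_nonempty
      · rw [← Finset.card_pos]; omega
      · intro i hi
        have := hcon e he.1 he.2 i hi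
        exact_mod_cast this
    rw [← Finset.mul_sum] at hlt
    simp only [Finset.sum_const, nsmul_eq_mul, he.2] at hlt
    push_cast at hlt
    linarith
  have := average hU hcov
  have hlt : ∑ e ∈ A.filter (fun e => e.card = 3), ∑ X ∈ A, (2 * ((X ∩ e).card : ℤ) - 3) < 0 := by
    apply Finset.sum_neg hneg
    exact ⟨e0, mem_filter.mpr ⟨he0, hc0⟩⟩
  linarith

/-- the fibre of the full trace is the largest one -/
theorem fibre_le {A : Finset (Finset ℕ)} (hU : ∀ X ∈ A, ∀ Y ∈ A, X ∪ Y ∈ A) {e : Finset ℕ}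
    (he : e ∈ A) (S : Finset ℕ) :
    (A.filter (fun X => X ∩ e = S)).card ≤ (A.filter (fun X => e ⊆ X)).card := by
  apply Finset.card_le_card_of_injOn (fun X => X ∪ e)
  · intro X hX
    have hX' := mem_filter.mp hX
    exact mem_filter.mpr ⟨hU _ hX'.1 _ he, subset_union_right⟩
  · intro X hX Y hY hXY
    have hX' := (mem_filter.mp hX).2
    have hY' := (mem_filter.mp hY).2
    have hXY' : X ∪ e = Y ∪ e := hXY
    ext i
    have h1 := Finset.ext_iff.mp hXY' i
    have h2 := Finset.ext_iff.mp hX' i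
    have h3 := Finset.ext_iff.mp hY' i
    simp only [mem_union, mem_inter] at h1 h2 h3
    by_cases hi : i ∈ e
    · constructor
      · intro hx; exact (h3.mpr (h2.mp ⟨hx, hi⟩)).1
      · intro hx; exact (h2.mpr (h3.mp ⟨hx, hi⟩)).1
    · constructor
      · intro hx
        rcases h1.mp (Or.inl hx) with h | h
        · exact h
        · exact absurd h hi
      · intro hx
        rcases h1.mpr (Or.inl hx) with h | h
        · exact h
        · exact absurd h hi

theorem of_one {A : Finset (Finset ℕ)} (hU : ∀ X ∈ A, ∀ Y ∈ A, X ∪ Y ∈ A) {i : ℕ}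
    (he : {i} ∈ A) : A.card ≤ 2 * (A.filter (fun X => i ∈ X)).card := by
  have h1 := fibre_le hU he ∅
  have h2 : A.filter (fun X => X ∩ {i} = ∅) = A.filter (fun X => ¬ i ∈ X) := by
    apply Finset.filter_congr
    intro X _
    rw [← Finset.disjoint_iff_inter_eq_empty, Finset.disjoint_singleton_right]
  have h3 : A.filter (fun X => {i} ⊆ X) = A.filter (fun X => i ∈ X) := by
    apply Finset.filter_congr
    intro X _
    rw [Finset.singleton_subset_iff]
  rw [h2, h3] at h1
  have h4 := Finset.card_filter_add_card_filter_not (s := A) (fun X => i ∈ X)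
  omega

theorem of_two {A : Finset (Finset ℕ)} (hU : ∀ X ∈ A, ∀ Y ∈ A, X ∪ Y ∈ A) {a b : ℕ}
    (hab : a ≠ b) (he : {a, b} ∈ A) :
    A.card ≤ 2 * (A.filter (fun X => a ∈ X)).card ∨
      A.card ≤ 2 * (A.filter (fun X => b ∈ X)).card := by
  have h1 := fibre_le hU he ∅
  have e0 : A.filter (fun X => X ∩ {a, b} = ∅) = A.filter (fun X => a ∉ X ∧ b ∉ X) := by
    apply Finset.filter_congr
    intro X _
    rw [← Finset.disjoint_iff_inter_eq_empty, Finset.disjoint_insert_right,
      Finset.disjoint_singleton_right]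
  have e3 : A.filter (fun X => {a, b} ⊆ X) = A.filter (fun X => a ∈ X ∧ b ∈ X) := by
    apply Finset.filter_congr
    intro X _
    rw [Finset.insert_subset_iff, Finset.singleton_subset_iff]
  rw [e0, e3] at h1
  have split : ∀ p q : Finset ℕ → Prop, ∀ [DecidablePred p] [DecidablePred q],
      (A.filter p).card = (A.filter (fun X => p X ∧ q X)).card +
        (A.filter (fun X => p X ∧ ¬ q X)).card := by
    intro p q _ _
    have := Finset.card_filter_add_card_filter_not (s := A.filter p) q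
    rw [Finset.filter_filter, Finset.filter_filter] at this
    exact this.symm
  have s1 := split (fun X => a ∈ X) (fun X => b ∈ X)
  have s2 := split (fun X => a ∉ X) (fun X => b ∈ X)
  have s3 := split (fun X => b ∈ X) (fun X => a ∈ X)
  have s4 := Finset.card_filter_add_card_filter_not (s := A) (fun X => a ∈ X)
  have c1 : (A.filter (fun X => b ∈ X ∧ a ∈ X)).card = (A.filter (fun X => a ∈ X ∧ b ∈ X)).card := by
    congr 1
    apply Finset.filter_congr
    intro X _
    exact and_comm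
  have c2 : (A.filter (fun X => b ∈ X ∧ ¬ a ∈ X)).card =
      (A.filter (fun X => a ∉ X ∧ b ∈ X)).card := by
    congr 1
    apply Finset.filter_congr
    intro X _
    exact and_comm
  omega

/-- The union-closed sets conjecture for families in which every deletable element of a member
that lies in some member of size at most three lies in one contained in the given member. -/
theorem main {A : Finset (Finset ℕ)} (hU : ∀ X ∈ A, ∀ Y ∈ A, X ∪ Y ∈ A)
    (hsmall : ∃ e ∈ A, e ≠ ∅ ∧ e.card ≤ 3)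
    (hcov : ∀ X ∈ A, ∀ a ∈ X, X.erase a ∈ A → (∃ e ∈ A, e.card ≤ 3 ∧ a ∈ e) →
      ∃ f ∈ A, f.card ≤ 3 ∧ a ∈ f ∧ f ⊆ X) :
    ∃ e ∈ A, e.card ≤ 3 ∧ ∃ i ∈ e, A.card ≤ 2 * (A.filter (fun X => i ∈ X)).card := by
  by_cases h1 : ∃ e ∈ A, e.card = 1
  · obtain ⟨e, he, hc⟩ := h1
    obtain ⟨i, rfl⟩ := Finset.card_eq_one.mp hc
    exact ⟨{i}, he, by omega, i, mem_singleton_self i, of_one hU he⟩
  by_cases h2 : ∃ e ∈ A, e.card = 2
  · obtain ⟨e, he, hc⟩ := h2
    obtain ⟨a, b, hab, rfl⟩ := Finset.card_eq_two.mp hc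
    rcases of_two hU hab he with h | h
    · exact ⟨{a, b}, he, by omega, a, by simp, h⟩
    · exact ⟨{a, b}, he, by omega, b, by simp, h⟩
  have hthree : ∀ e ∈ A, e ≠ ∅ → e.card ≤ 3 → e.card = 3 := by
    intro e he hne hle
    have := Finset.card_pos.mpr (Finset.nonempty_iff_ne_empty.mpr hne)
    have k1 : e.card ≠ 1 := fun h => h1 ⟨e, he, h⟩
    have k2 : e.card ≠ 2 := fun h => h2 ⟨e, he, h⟩
    omega
  have hC : Cov A := by
    intro X hX a ha ⟨e, he, hc, hae⟩ her
    obtain ⟨f, hf, hf3, haf, hfX⟩ := hcov X hX a ha her ⟨e, he, by omega, hae⟩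
    exact ⟨f, hf, hthree f hf (Finset.ne_empty_of_mem haf) hf3, haf, hfX⟩
  obtain ⟨e0, he0, hne0, hle0⟩ := hsmall
  obtain ⟨e, he, hc, i, hi, h⟩ := of_average hU hC ⟨e0, he0, hthree e0 he0 hne0 hle0⟩
  exact ⟨e, he, by omega, i, hi, h⟩

end Pool.Agent.W457.UC
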